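import Mathlib
import Pool.Agent.Y156.L.Props
import Pool.Agent.Y1.CT.UnrelDefs

/-!
# The formula of Beilinson and Bloch for products with constant abelian varieties: definitions
-/

set_option autoImplicit false

namespace Pool.Agent.V1168.BB

open Polynomial Module Pool.Agent.Y156.L Pool.Agent.Y1.CT

/-- Data of the local factors of the `L`-functions of a smooth projective variety `Y` over a global
function field `k`. -/
structure LocalData where
  /-- the places of `k` -/
  Place : Type
  /-- the degrees of the places -/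
  deg : Place → ℕ
  /-- the space `H^b(Y)^{I_v}` of the invariants of the inertia group at `v` in the `ℓ`-adic
  cohomology of `Y`, with complex coefficients -/
  W : ℤ → Place → Type
  [group : ∀ b v, AddCommGroup (W b v)]
  [module : ∀ b v, Module ℂ (W b v)]
  [finite : ∀ b v, FiniteDimensional ℂ (W b v)]
  /-- the geometric Frobenius at `v` -/
  frob : ∀ b v, W b v →ₗ[ℂ] W b v

attribute [instance] LocalData.group LocalData.module LocalData.finite

/-- The function `Λ` is a meromorphic continuation to the complex plane of the product of the functions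
`fac v`, which converges if the real part of `s` is large. -/
def IsContinuation {P : Type} (fac : P → ℂ → ℂ) (Λ : ℂ → ℂ) : Prop :=
  (∀ s, MeromorphicAt Λ s) ∧ ∃ σ : ℝ, ∀ s : ℂ, σ < s.re → HasProd (fun v => fac v s) (Λ s)

/-- Data of the cohomology groups `H^a(A)` of the abelian variety `A`. -/
structure CohData (A : AbelianData ℂ) where
  /-- the group `H^a(A)` -/
  V : ℕ → Type
  [group : ∀ a, AddCommGroup (V a)]
  [module : ∀ a, Module ℂ (V a)]
  /-- the inclusion in the cohomology ring of `A` -/
  incl : ∀ a, V a →ₗ[ℂ] A.H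
  /-- the Frobenius endomorphism of `H^a(A)` -/
  frob : ∀ a, V a →ₗ[ℂ] V a

attribute [instance] CohData.group CohData.module

/-- The inclusion of `H^a(A)` is injective, its image is the `a`-th power of `H^1`, and it is
compatible with the Frobenius endomorphism of the cohomology ring of `A`. -/
structure IsCoh {A : AbelianData ℂ} (φ : CohData A) : Prop where
  injective : ∀ a, Function.Injective (φ.incl a)
  range : ∀ a, LinearMap.range (φ.incl a) = A.H1 ^ a
  frob : ∀ (a : ℕ) (x : φ.V a), φ.incl a (φ.frob a x) = A.frobH (φ.incl a x)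

/-- The number `det (1 - x g)^(-1)`. -/
noncomputable def invDet {V : Type} [AddCommGroup V] [Module ℂ V] (g : Module.End ℂ V) (x : ℂ) : ℂ :=
  (LinearMap.det (1 - x • g))⁻¹

/-- The number `det (1 - x (g ⊗ h))^(-1)`. -/
noncomputable def invDetTensor {V W : Type} [AddCommGroup V] [Module ℂ V] [AddCommGroup W]
    [Module ℂ W] (g : Module.End ℂ V) (h : Module.End ℂ W) (x : ℂ) : ℂ :=
  invDet (V := TensorProduct ℂ V W) (TensorProduct.map g h) x

/-- The local factor `det (1 - Q^(-s deg v) Frob_v | H^b(Y)^{I_v})^(-1)` of the `L`-function of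
`H^b(Y)`; the field of constants has `Q` elements. -/
noncomputable def LocalData.factorN (L : LocalData) (Q : ℕ) (b : ℤ) (v : L.Place) (s : ℂ) : ℂ :=
  invDet (L.frob b v) (((Q : ℂ) ^ (-s)) ^ L.deg v)

/-- The local factor of the `L`-function of `H^n(A × Y) = ⨁ H^a(A) ⊗ H^(n - a)(Y)`: the product of
the `det (1 - Q^(-s deg v) Frob_v | H^a(A) ⊗ H^(n - a)(Y)^{I_v})^(-1)`, `0 ≤ a ≤ 2 dim A`. Here `A` is
constant, so that `Frob_v` operates on `H^a(A)` as the `deg v`-th power of the Frobenius endomorphism
`φ` of the field of constants, and the inertia groups operate trivially. -/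
noncomputable def LocalData.factorM (L : LocalData) (Q : ℕ) {A : AbelianData ℂ} (φ : CohData A)
    (n : ℤ) (v : L.Place) (s : ℂ) : ℂ :=
  ∏ a ∈ Finset.range (2 * A.dim + 1),
    invDetTensor ((φ.frob a : Module.End ℂ (φ.V a)) ^ L.deg v) (L.frob (n - a) v)
      (((Q : ℂ) ^ (-s)) ^ L.deg v)

section

variable {A : AbelianData ℂ} {T R : RelData A} (ρ : Regulator T R)

/-- The group `CH^i(Y)_0`: the classes in `CH^i(Y) = H^(2 i)(Y, i)` whose cohomology class is zero. -/
def homTrivN (i : ℤ) : Submodule ℚ T.N := T.grN (2 * i) i ⊓ LinearMap.ker ρ.cN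

/-- The group `CH^i(A × Y)_0`. -/
def homTrivM (i : ℤ) : Submodule ℚ T.M := T.grM (2 * i) i ⊓ LinearMap.ker ρ.cM

/-- **The formula of Beilinson and Bloch** for `Y` in codimension `i`: the vector space `CH^i(Y)_0`
is finite-dimensional, and its dimension is the order of vanishing at `s = i` of the (any) meromorphic
continuation `Λ` of the `L`-function of `H^(2 i - 1)(Y)`. -/
def FormulaN (L : LocalData) (Q : ℕ) (i : ℤ) : Prop :=
  ∀ Λ, IsContinuation (L.factorN Q (2 * i - 1)) Λ →
    Module.Finite ℚ (homTrivN ρ i) ∧
      meromorphicOrderAt Λ i = ((finrank ℚ (homTrivN ρ i) : ℤ) : WithTop ℤ)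

/-- **The formula of Beilinson and Bloch** for `A × Y` in codimension `i`. -/
def FormulaM (L : LocalData) (φ : CohData A) (Q : ℕ) (i : ℤ) : Prop :=
  ∀ Λ, IsContinuation (L.factorM Q φ (2 * i - 1)) Λ →
    Module.Finite ℚ (homTrivM ρ i) ∧
      meromorphicOrderAt Λ i = ((finrank ℚ (homTrivM ρ i) : ℤ) : WithTop ℤ)

/-- The absolute Frobenius endomorphism of `A × Y` acts on `CH^i(A × Y)` as multiplication by
`Q ^ i`. -/
def PureChow (T : RelData A) (Q : ℕ) : Prop :=
  ∀ (i : ℤ) (m : T.M), T.DegM (2 * i) i m → T.InvM Q (2 * i) i m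

/-- The Frobenius endomorphism of `Y` satisfies on each group `CH^i(A × Y)` a nonzero rational
polynomial all of whose complex roots are unrelated to the fields `K i`. -/
def ChowUnrelated {I : Type} (K : I → Type) [∀ i, Field (K i)] (T : RelData A) : Prop :=
  ∀ i : ℤ, ∃ χ : ℚ[X], χ ≠ 0 ∧ (∀ ρ : ℂ, aeval ρ χ = 0 → Unrelated K ρ) ∧
    ∀ m, T.DegM (2 * i) i m → aeval T.frobM χ m = 0

/-- The formal properties of the Chow groups `T`, the cohomology `R`, the cycle class map `ρ` and the
local factors `L` of a smooth projective variety `Y` over a function field whose field of constants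
has `Q` elements (and of `A × Y`): those in `IsRel`, `IsRegulator`; the absolute Frobenius endomorphism
of `A × Y` acts on `CH^i(A × Y)` as `Q^i`; Chow groups and cohomology groups in negative degrees are
zero. -/
structure IsVariety (L : LocalData) (Q : ℕ) : Prop where
  chow : IsRel Q T
  pure : PureChow T Q
  regulator : IsRegulator ρ
  neg_chow : ∀ i : ℤ, i < 0 → ∀ n, T.DegN (2 * i) i n → n = 0
  neg_cohomology : ∀ b : ℤ, b < 0 → ∀ v, Subsingleton (L.W b v)

/-- `Y` is unrelated to the fields `K i`: on each group `CH^i(A × Y)` the Frobenius endomorphism of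
`Y` satisfies a nonzero rational polynomial with roots unrelated to the fields `K i` (in `T`), and the
`L`-functions of the groups `H^b(Y)` have meromorphic continuations with zeros and poles only at
points `s` with `Q^s` unrelated to the fields `K i`. -/
structure VarietyUnrelated {I : Type} (K : I → Type) [∀ i, Field (K i)] (T : RelData A)
    (L : LocalData) (Q : ℕ) : Prop where
  chow : ChowUnrelated K T
  lFunction : ∀ b : ℤ, ∃ Λ, IsContinuation (L.factorN Q b) Λ ∧
    ∀ s : ℂ, meromorphicOrderAt Λ s ≠ 0 → Unrelated K ((Q : ℂ) ^ s)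

end

section

variable {I : Type} (K : I → Type) [∀ i, Field (K i)] (q : ℕ) (f : I → ℤ[X])

/-- `BeilinsonBlochTimes K q f`: for every abelian variety `A` as in `IsAbelian` over the field with
`Q = q ^ s` elements there are finitely many products `D t` of `c t` divisor classes on `A`, such that
for every smooth projective variety `Y` over every function field with field of constants `F_Q`, with
the properties `IsVariety` and `VarietyUnrelated`:

1. every class in `CH^i(A × Y)_0` is in a unique way the sum of the products of the `D t` with classes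
  in `CH^(i - c t)(Y)_0`;
2. the `L`-functions of the `H^n(A × Y)` have meromorphic continuations, and the order at `s = i` of
  the `L`-function of `H^(2 i - 1)(A × Y)` is the sum over `t` of the orders at `s = i - c t` of the
  `L`-functions of the `H^(2 (i - c t) - 1)(Y)`;
3. for all `n`, the formula of Beilinson and Bloch holds for `A × Y` in all codimensions `i ≤ n` if
  and only if it holds for `Y` in all codimensions `i ≤ n`. -/
def BeilinsonBlochTimes : Prop :=
  ∀ (A : AbelianData ℂ) (s : ℕ), IsAbelian A q s f →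
    ∃ (J : Type) (_ : Fintype J) (c : J → ℕ) (D : J → A.CH), IsFamily A c D ∧
      ∀ φ : CohData A, IsCoh φ → ∀ (T R : RelData A) (ρ : Regulator T R) (L : LocalData),
        IsVariety ρ L (q ^ s) → VarietyUnrelated K T L (q ^ s) →
        (∀ (i : ℤ), ∀ m ∈ homTrivM ρ i, ∃! z : J → T.N,
          (∀ t, z t ∈ homTrivN ρ (i - c t)) ∧ m = ∑ t, T.mul (D t) (z t)) ∧
        (∀ n : ℤ, ∃ Λ, IsContinuation (L.factorM (q ^ s) φ n) Λ) ∧
        (∀ (i : ℤ) (Λ : ℂ → ℂ) (Λ' : ℤ → ℂ → ℂ),
          IsContinuation (L.factorM (q ^ s) φ (2 * i - 1)) Λ →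
          (∀ b, IsContinuation (L.factorN (q ^ s) b) (Λ' b)) →
          meromorphicOrderAt Λ i =
            ∑ t, meromorphicOrderAt (Λ' (2 * (i - c t) - 1)) ((i - c t : ℤ) : ℂ)) ∧
        ∀ n : ℤ, (∀ i ≤ n, FormulaM ρ L φ (q ^ s) i) ↔ ∀ i ≤ n, FormulaN ρ L (q ^ s) i

end

end Pool.Agent.V1168.BB
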