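import Mathlib
import Pool.Agent.V1168.BB.Defs
import Pool.Agent.V1168.UN.Diag
import Pool.Agent.W484.BB.Eigen

/-!
# Meromorphic continuations of Euler products, twists with constant representations
-/

set_option autoImplicit false
set_option linter.unusedSectionVars false
set_option linter.unusedVariables false

namespace Pool.Agent.V1168.BB

open Module Filter Topology

/-- The order of a meromorphic continuation does not depend on the continuation. -/
theorem order_unique {P : Type} {fac : P → ℂ → ℂ} {Λ Λ' : ℂ → ℂ} (h : IsContinuation fac Λ)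
    (h' : IsContinuation fac Λ') (s : ℂ) : meromorphicOrderAt Λ s = meromorphicOrderAt Λ' s := by
  obtain ⟨h1, σ, h2⟩ := h
  obtain ⟨h1', σ', h2'⟩ := h'
  have hmer : Meromorphic (fun s => Λ s - Λ' s) := fun s => (h1 s).sub (h1' s)
  -- the point
  let u : ℂ := ((max σ σ' + 1 : ℝ) : ℂ)
  have hu : max σ σ' < u.re := by
    change max σ σ' < (((max σ σ' + 1 : ℝ) : ℂ)).re
    rw [Complex.ofReal_re]
    linarith
  have hev : ∀ᶠ z in 𝓝 u, Λ z - Λ' z = 0 := by
    have h3 : ∀ᶠ z : ℂ in 𝓝 u, max σ σ' < z.re :=
      (Complex.continuous_re.continuousAt).eventually (lt_mem_nhds hu)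
    filter_upwards [h3] with z hz
    have h4 := (h2 z (lt_of_le_of_lt (le_max_left _ _) hz)).unique
      (h2' z (lt_of_le_of_lt (le_max_right _ _) hz))
    rw [h4, sub_self]
  have htop : meromorphicOrderAt (fun s => Λ s - Λ' s) u = ⊤ := by
    rw [meromorphicOrderAt_eq_top_iff]
    exact hev.filter_mono nhdsWithin_le_nhds
  have hall : meromorphicOrderAt (fun s => Λ s - Λ' s) s = ⊤ := by
    by_contra hcon
    exact (hmer.exists_meromorphicOrderAt_ne_top_iff_forall.1 ⟨s, hcon⟩ u) htop
  rw [meromorphicOrderAt_eq_top_iff] at hall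
  refine meromorphicOrderAt_congr ?_
  filter_upwards [hall] with z hz
  exact sub_eq_zero.1 hz

/-- Products of continuations. -/
theorem isContinuation_prod {P : Type} {ι : Type} (S : Finset ι) (fac : ι → P → ℂ → ℂ)
    (Λ : ι → ℂ → ℂ) (h : ∀ i ∈ S, IsContinuation (fac i) (Λ i)) :
    IsContinuation (fun v s => ∏ i ∈ S, fac i v s) (fun s => ∏ i ∈ S, Λ i s) := by
  classical
  induction S using Finset.induction_on with
  | empty =>
    refine ⟨fun s => ?_, 0, fun s _ => ?_⟩
    · simp only [Finset.prod_empty]
      exact MeromorphicAt.const 1 s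
    · simp only [Finset.prod_empty]
      exact hasProd_one
  | insert i S hi ih =>
    obtain ⟨h1, σ, h2⟩ := h i (Finset.mem_insert_self i S)
    obtain ⟨h3, σ', h4⟩ := ih fun j hj => h j (Finset.mem_insert_of_mem hj)
    refine ⟨fun s => ?_, max σ σ', fun s hs => ?_⟩
    · simp only [Finset.prod_insert hi]
      exact (h1 s).fun_mul (h3 s)
    · simp only [Finset.prod_insert hi]
      exact (h2 s (lt_of_le_of_lt (le_max_left _ _) hs)).mul
        (h4 s (lt_of_le_of_lt (le_max_right _ _) hs))

/-- Translates of continuations. -/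
theorem isContinuation_sub {P : Type} {fac : P → ℂ → ℂ} {Λ : ℂ → ℂ} (h : IsContinuation fac Λ)
    (u : ℂ) : IsContinuation (fun v s => fac v (s - u)) (fun s => Λ (s - u)) := by
  obtain ⟨h1, σ, h2⟩ := h
  refine ⟨fun s => ?_, σ + u.re, fun s hs => h2 _ ?_⟩
  · rw [meromorphicAt_fun_comp_sub_const_iff_meromorphicAt]
    exact h1 _
  · rw [Complex.sub_re]
    linarith

/-- The determinant of a tensor product with an operator with a basis of eigenvectors. -/
theorem invDet_tensor {V W : Type} [AddCommGroup V] [Module ℂ V] [AddCommGroup W] [Module ℂ W]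
    [FiniteDimensional ℂ W] {r : ℕ} (e : Basis (Fin r) ℂ V) (α : Fin r → ℂ) (g : Module.End ℂ V)
    (hg : ∀ j, g (e j) = α j • e j) (d : ℕ) (G : Module.End ℂ W) (x : ℂ) :
    invDetTensor (g ^ d : Module.End ℂ V) G x = ∏ j, invDet G (x * α j ^ d) := by
  classical
  let w := Module.finBasis ℂ W
  have hgd : ∀ j, (g ^ d : Module.End ℂ V) (e j) = (α j ^ d) • e j := by
    intro j
    induction d with
    | zero => simp
    | succ d ih => rw [pow_succ', Module.End.mul_apply, ih, map_smul, hg, smul_smul, pow_succ]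
  have hdiag : LinearMap.toMatrix e e (g ^ d : Module.End ℂ V) =
      Matrix.diagonal fun j => α j ^ d := by
    ext i j
    rw [LinearMap.toMatrix_apply, hgd, map_smul, Basis.repr_self, Finsupp.smul_single,
      smul_eq_mul, mul_one, Matrix.diagonal_apply, Finsupp.single_apply]
    by_cases h : i = j
    · subst h
      simp
    · rw [if_neg h, if_neg (Ne.symm h)]
  have hW : ∀ y : ℂ, LinearMap.det (1 - y • G) =
      Matrix.det (1 - y • LinearMap.toMatrix w w G) := by
    intro y
    rw [← LinearMap.det_toMatrix w, map_sub, map_smul, LinearMap.toMatrix_one]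
  unfold invDetTensor invDet
  rw [← LinearMap.det_toMatrix (e.tensorProduct w), map_sub, map_smul, LinearMap.toMatrix_one,
    TensorProduct.toMatrix_map, hdiag, Matrix.diagonal_kronecker, Finset.prod_inv_distrib]
  congr 1
  have h1 : (1 : Matrix (Fin r × Fin (finrank ℂ W)) (Fin r × Fin (finrank ℂ W)) ℂ) -
      x • Matrix.reindex (Equiv.prodComm _ _) (Equiv.prodComm _ _)
        (Matrix.blockDiagonal fun i => (α i ^ d) • LinearMap.toMatrix w w G) =
      Matrix.reindex (Equiv.prodComm _ _) (Equiv.prodComm _ _)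
        (Matrix.blockDiagonal fun i => (1 - (x * α i ^ d) • LinearMap.toMatrix w w G)) := by
    ext ⟨i, j⟩ ⟨i', j'⟩
    simp only [Matrix.sub_apply, Matrix.smul_apply, Matrix.reindex_apply, Matrix.submatrix_apply,
      Equiv.prodComm_symm, Equiv.prodComm_apply, Prod.swap_prod_mk, Matrix.blockDiagonal_apply,
      Matrix.one_apply, Prod.mk.injEq, smul_eq_mul]
    by_cases h2 : i = i'
    · subst h2
      by_cases h3 : j = j'
      · simp [h3, mul_assoc]
      · simp [h3, mul_assoc]
    · simp [h2]
  rw [h1, Matrix.det_reindex_self, Matrix.det_blockDiagonal]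
  exact Finset.prod_congr rfl fun j _ => (hW _).symm

end Pool.Agent.V1168.BB
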