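import Mathlib
import Pool.Agent.V1168.BB.LF

/-!
# The Frobenius eigenvalues of an abelian variety without relations, and the classes of cycles
-/

set_option autoImplicit false
set_option linter.unusedSectionVars false
set_option linter.unusedVariables false

namespace Pool.Agent.V1168.BB

open Module Polynomial Pool.Agent.Y156.L Pool.Agent.W484.HS Pool.Agent.Y1.CT Pool.Agent.V1168.UN

section basis

variable {K : Type} [Field K] [CharZero K] {A : AbelianData K}

variable {I : Type} {q : ℕ} (hq : 1 < q) {f : I → ℤ[X]} {R : ℂ → Prop} (hR : NoRel f q R)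

include hq hR in
/-- **Existence of a good basis.** -/
theorem exists_good_basis2 {s : ℕ} (hA : IsAbelian A q s f) :
    ∃ (n : ℕ) (b : Basis (Fin n) K A.H) (α : Fin n → K),
      (∀ t, A.frobH (b t) = α t • b t) ∧ (∀ t, IsIntegral ℚ (α t)) ∧ (∀ t, α t ≠ 0) ∧
      ∀ (χ : ℚ[X]), χ ≠ 0 → (∀ ρ : ℂ, aeval ρ χ = 0 → R ρ) → ∀ ρ : K, aeval ρ χ = 0 →
        ∀ t (c : ℤ), α t * ρ = ((q ^ s : ℕ) : K) ^ c →
          ∃ l : ℕ, α t = ((q ^ s : ℕ) : K) ^ l ∧ b t ∈ NK A l ∧ b t ∈ A.H1 ^ (2 * l) := by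
  have hfin := hA.finite
  have hs := hA.pos
  have hq0 : q ≠ 0 := by omega
  let val : {z : K // ∃ i, aeval z (f i) = 0} → K := fun z => (z : K) ^ s
  have hU : Submodule.span K {v : A.H | v ∈ A.H1 ∧ ∃ y, A.frobH v = val y • v} = A.H1 := by
    refine Eq.trans ?_ hA.spanned
    congr 1
    ext v
    constructor
    · rintro ⟨h1, ⟨z, i, hz⟩, h2⟩
      exact ⟨h1, i, z, hz, h2⟩
    · rintro ⟨h1, i, z, hz, h2⟩
      exact ⟨h1, ⟨z, i, hz⟩, h2⟩
  obtain ⟨n, b, α, hb⟩ := Pool.Agent.W484.CH.exists_basis A.frobH val A.H1 hU hA.generated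
  have hQ : ((q ^ s : ℕ) : K) = (q : K) ^ s := by push_cast; rfl
  have hQ0 : (q : K) ^ s ≠ 0 := pow_ne_zero _ (by exact_mod_cast hq0)
  refine ⟨n, b, α, fun t => (hb t).1, fun t => ?_, fun t => ?_, ?_⟩
  · obtain ⟨-, L, -, -, hL⟩ := hb t
    rw [hL]
    clear hL
    induction L with
    | nil => simpa using isIntegral_one
    | cons a L ih =>
      rw [List.map_cons, List.prod_cons]
      refine IsIntegral.mul ?_ ih
      obtain ⟨i, hi⟩ := a.2.2
      have h1 : IsIntegral ℤ (a.2 : K) := ⟨f i, hR.monic i, hi⟩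
      exact (h1.tower_top (A := ℚ)).pow s
  · intro h0
    refine b.ne_zero t (hA.nondeg _ fun a => ?_)
    have h1 := hA.tr_frob (b t * a)
    rw [map_mul, (hb t).1, h0, zero_smul, zero_mul, map_zero] at h1
    exact (mul_eq_zero.1 h1.symm).resolve_left (pow_ne_zero _ (by rw [hQ]; exact hQ0))
  · intro χ hχ hrank ρ hρ t c hc
    obtain ⟨-, L, hL1, hL2, hL3⟩ := hb t
    have hpair := exactPair_field f hR.monic q s χ hχ
      (fun ρ hρ => hR.pair s hs ρ (hrank ρ hρ)) ρ hρ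
    have h1 := Pool.Agent.W484.CH.list_graded A.frobH val ((q : K) ^ s) ρ hQ0 hpair
      (fun l => NK A l ⊓ A.H1 ^ (2 * l))
      ⟨one_mem_NK, by rw [mul_zero, pow_zero]; exact Submodule.one_le.1 le_rfl⟩
      (fun a ha l b hb => ⟨by
        rw [add_comm l 1]
        exact mul_mem_NK ha.1 hb.1, by
        rw [show 2 * (l + 1) = 2 * 1 + 2 * l by ring, pow_add]
        exact Submodule.mul_mem_mul ha.2 hb.2⟩)
      (A.H1 : Set A.H) (fun a ha b hb => hA.anticomm a ha b hb)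
      (fun a ha b hb y y' h2 h3 h4 => ⟨by
        apply mem_NK_one
        refine hA.tate (a * b) (Submodule.mul_mem_mul ha hb) ?_
        rw [map_mul, h2, h3, smul_mul_smul_comm, h4, hQ], by
        rw [mul_one, pow_two]
        exact Submodule.mul_mem_mul ha hb⟩)
      L.length c 1 one_pos L rfl hL1 (by rw [pow_one, pow_one, ← hL3, ← hQ]; exact hc)
    obtain ⟨l, -, h2, h3⟩ := h1
    refine ⟨l, ?_, ?_, ?_⟩
    · rw [hL3, h2, hQ]
    · rw [hL2]
      exact h3.1
    · rw [hL2]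
      exact h3.2

/-- The elements of the eigenspace are sums of basis vectors in it. -/
theorem eigen_sum {n : ℕ} (b : Basis (Fin n) K A.H) (α : Fin n → K)
    (hb : ∀ t, A.frobH (b t) = α t • b t) (μ : K) (V : Submodule K A.H)
    (hV : ∀ t, α t = μ → b t ∈ V) {x : A.H} (hx : A.frobH x = μ • x) : x ∈ V := by
  classical
  have h1 : ∀ t, α t ≠ μ → b.repr x t = 0 := by
    intro t ht
    have h2 : b.repr (A.frobH x) t = α t * b.repr x t := by
      conv_lhs => rw [← b.sum_repr x]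
      rw [map_sum, map_sum, Finsupp.finsetSum_apply]
      simp only [map_smul, hb, Basis.repr_self, Finsupp.smul_apply, smul_eq_mul,
        Finsupp.single_apply]
      rw [Finset.sum_eq_single t]
      · rw [if_pos rfl]
        ring
      · intro u _ hu
        rw [if_neg hu]
        ring
      · intro h
        exact absurd (Finset.mem_univ t) h
    rw [hx, map_smul, Finsupp.smul_apply, smul_eq_mul] at h2
    have h3 : (α t - μ) * b.repr x t = 0 := by rw [sub_mul, h2, sub_self]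
    exact (mul_eq_zero.1 h3).resolve_left (sub_ne_zero.2 ht)
  rw [← b.sum_repr x]
  refine Submodule.sum_mem _ fun t _ => ?_
  by_cases ht : α t = μ
  · exact Submodule.smul_mem _ _ (hV t ht)
  · rw [h1 t ht, zero_smul]
    exact Submodule.zero_mem _

include hq hR in
/-- **The Kunneth formula, for all theories relative to schemes**, and the eigenspaces. -/
theorem exists_core2 {s : ℕ} (hA : IsAbelian A q s f) :
    ∃ (J : Type) (_ : Fintype J) (c : J → ℕ) (D E' : J → A.CH), IsFamily A c D ∧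
      Pool.Agent.Y156.L.IsDual A c D E' ∧ q ^ s ≠ 0 ∧
      (∀ (k : ℕ) (x : A.H), A.frobH x = ((q ^ s : ℕ) : K) ^ k • x →
        x ∈ Submodule.span K {a | ∃ j, c j = k ∧ a = A.cl (D j)} ∧ x ∈ A.H1 ^ (2 * k)) ∧
      ∀ T : RelData A, IsRel (q ^ s) T → ∀ (j : ℤ) (χ : ℚ[X]), χ ≠ 0 →
        (∀ ρ : ℂ, aeval ρ χ = 0 → R ρ) → ∀ (V : Submodule ℚ T.M) (N : ℕ),
        (∀ m ∈ V, T.act A.frob m ∈ V) →
        (∀ m ∈ V, aeval (T.act A.frob) ((rev χ (((q ^ s : ℕ) : ℚ) ^ j)) ^ N) m = 0) →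
        ∀ m ∈ V, m = ∑ t, T.times (D t) (T.pair (E' t) m) := by
  obtain ⟨n, b, α, hb, hα, hα0, hgood⟩ := exists_good_basis2 hq hR hA
  have hs := hA.pos
  have hQ1 : 1 < q ^ s := Nat.one_lt_pow hs.ne' hq
  have hX1 : (Polynomial.X - 1 : ℚ[X]) ≠ 0 := by
    have := Polynomial.X_sub_C_ne_zero (1 : ℚ)
    rwa [map_one] at this
  have h1' : ∀ t (c : ℤ), α t = ((q ^ s : ℕ) : K) ^ c →
      ∃ l : ℕ, α t = ((q ^ s : ℕ) : K) ^ l ∧ b t ∈ NK A l ∧ b t ∈ A.H1 ^ (2 * l) := by
    intro t c hc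
    exact hgood _ hX1 (root_one hR) 1
      (by rw [map_sub, aeval_X, map_one, sub_self]) t c (by rw [mul_one]; exact hc)
  have h1 : ∀ t (c : ℤ), α t = ((q ^ s : ℕ) : K) ^ c →
      ∃ l : ℕ, α t = ((q ^ s : ℕ) : K) ^ l ∧ b t ∈ NK A l := by
    intro t c hc
    obtain ⟨l, h2, h3, -⟩ := h1' t c hc
    exact ⟨l, h2, h3⟩
  obtain ⟨J, hJ, c, D, E', hdual, hD, hE, hN⟩ := exists_dual hA hQ1 b α hb h1
  have hN' := span_dual hA hQ1 b α hb h1 hdual hE hN
  have hfam : IsFamily A c D :=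
    ⟨hD, hdual.le, fun k hk => exists_codim hA hQ1 b α hb h1 hN hk⟩
  refine ⟨J, hJ, c, D, E', hfam, hdual, by omega, fun k x hx => ?_,
    fun T hT j χ hχ hrank V N hV hRR m hm => ?_⟩
  · have h2 : ∀ t, α t = ((q ^ s : ℕ) : K) ^ k → b t ∈ NK A k ∧ b t ∈ A.H1 ^ (2 * k) := by
      intro t ht
      obtain ⟨l, h3, h4, h5⟩ := h1' t k (by rw [zpow_natCast]; exact ht)
      have h6 : l = k := by
        rw [ht] at h3
        have h7 : (((q ^ s) ^ k : ℕ) : K) = (((q ^ s) ^ l : ℕ) : K) := by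
          push_cast at h3 ⊢
          exact h3
        exact (Nat.pow_right_injective hQ1 (Nat.cast_injective h7)).symm
      rw [← h6]
      exact ⟨h4, h5⟩
    exact ⟨hN k (eigen_sum b α hb _ (NK A k) (fun t ht => (h2 t ht).1) hx),
      eigen_sum b α hb _ _ (fun t ht => (h2 t ht).2) hx⟩
  · obtain ⟨P, hP, hmix⟩ := exists_kill b α hb hα hα0 χ ((((q ^ s : ℕ) : ℚ)) ^ j) (by
      intro ρ hρ t ht
      obtain ⟨l, -, hl, -⟩ := hgood χ hχ hrank ρ hρ t j (by rw [ht]; push_cast; rfl)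
      exact ⟨l, hl⟩)
    exact rel_core hA hT hdual P _ hP.pow_right
        (fun w => act_proj_mix hA hdual hN (hmix w)) _ hV hRR hm

end basis

end Pool.Agent.V1168.BB
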