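import Mathlib
import Pool.Agent.V1168.BB.Coh

/-!
# The multiplicities of the eigenvalues `Q ^ k` and the number of classes of codimension `k`
-/

set_option autoImplicit false
set_option linter.unusedSectionVars false
set_option linter.unusedVariables false

namespace Pool.Agent.V1168.BB

open Module Polynomial Pool.Agent.Y156.L Pool.Agent.W484.HS Pool.Agent.Y1.CT Pool.Agent.V1168.UN

/-- `φ a` is the Frobenius endomorphism of the submodule `(H^1)^a`, for all `a`. -/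
def FrobOn (A : AbelianData ℂ) (φ : ∀ a : ℕ, Module.End ℂ (A.H1 ^ a : Submodule ℂ A.H)) :
    Prop :=
  ∀ (a : ℕ) (x : (A.H1 ^ a : Submodule ℂ A.H)), (φ a x : A.H) = A.frobH x

/-- The roots of the `f i`. -/
abbrev Rt {I : Type} (f : I → ℤ[X]) : Type := {z : ℂ // ∃ i, aeval z (f i) = 0}

theorem list_unrel {I : Type} {K : I → Type} [∀ i, Field (K i)] {q : ℕ} (hq : 1 < q)
    {f : I → ℤ[X]} (hR : NoRel f q (Unrelated K)) {s : ℕ} (hs : 0 < s) {ρ : ℂ}
    (hρ : Unrelated K ρ) (L : List (Rt f)) (c : ℤ)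
    (h : (L.map fun z : Rt f => (z : ℂ) ^ s).prod * ρ = ((q : ℂ) ^ s) ^ c) :
    ∃ k : ℕ, L.length = 2 * k ∧ (L.map fun z : Rt f => (z : ℂ) ^ s).prod = ((q : ℂ) ^ s) ^ k := by
  have hQ0 : (q : ℂ) ^ s ≠ 0 := pow_ne_zero _ (by exact_mod_cast (by omega : q ≠ 0))
  obtain ⟨k, h1, h2, -⟩ := Pool.Agent.W484.CH.list_graded (AlgHom.id ℂ ℂ)
    (fun z : Rt f => (z : ℂ) ^ s) ((q : ℂ) ^ s) ρ hQ0 (hR.pair s hs ρ hρ)
    (fun _ => (⊤ : Submodule ℂ ℂ)) trivial (fun _ _ _ _ _ => trivial) {0}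
    (by
      intro a ha b hb
      rw [Set.mem_singleton_iff.1 ha, Set.mem_singleton_iff.1 hb]
      simp)
    (fun _ _ _ _ _ _ _ _ _ => trivial) L.length c 1 one_pos (L.map fun z => ((0 : ℂ), z))
    (by rw [List.length_map])
    (by
      intro e he
      obtain ⟨z, -, rfl⟩ := List.mem_map.1 he
      exact ⟨rfl, by simp⟩)
    (by
      rw [List.map_map, pow_one, pow_one]
      exact h)
  refine ⟨k, h1, ?_⟩
  rw [List.map_map] at h2
  exact h2

section

variable {A : AbelianData ℂ} {I : Type} {f : I → ℤ[X]} {q s : ℕ}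

/-- The group `H^a(A)` is spanned by eigenvectors. -/
theorem span_pow (hA : IsAbelian A q s f) (a : ℕ) :
    A.H1 ^ a ≤ Submodule.span ℂ {v : A.H | v ∈ A.H1 ^ a ∧ ∃ L : List (Rt f), L.length = a ∧
      A.frobH v = (L.map fun z : Rt f => (z : ℂ) ^ s).prod • v} := by
  induction a with
  | zero =>
    rw [pow_zero, Submodule.one_eq_span]
    refine Submodule.span_mono ?_
    rintro _ rfl
    refine ⟨Submodule.mem_span_singleton_self _, [], rfl, ?_⟩
    rw [map_one, List.map_nil, List.prod_nil, one_smul]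
  | succ a ih =>
    rw [pow_succ]
    have h1 : A.H1 ≤ Submodule.span ℂ {v : A.H | v ∈ A.H1 ∧ ∃ i, ∃ z : ℂ, aeval z (f i) = 0 ∧
        A.frobH v = z ^ s • v} := hA.roots.ge
    refine (Submodule.mul_le.2 fun x hx y hy => Submodule.mul_mem_mul (ih hx) (h1 hy)).trans ?_
    rw [Submodule.span_mul_span]
    refine Submodule.span_mono ?_
    rintro _ ⟨v, ⟨hv, L, hL, hv'⟩, w, ⟨hw, i, z, hz, hw'⟩, rfl⟩
    refine ⟨Submodule.mul_mem_mul hv hw, L ++ [⟨z, i, hz⟩], by rw [List.length_append, hL]; rfl, ?_⟩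
    change A.frobH (v * w) = _
    rw [map_mul, hv', hw', List.map_append, List.prod_append, List.map_singleton,
      List.prod_singleton, smul_mul_smul_comm]

/-- A basis of eigenvectors of `H^a(A)`. -/
theorem exists_basis_pow (hA : IsAbelian A q s f)
    {φ : ∀ a : ℕ, Module.End ℂ (A.H1 ^ a : Submodule ℂ A.H)} (hφ : FrobOn A φ) (a : ℕ) :
    ∃ (r : ℕ) (e : Basis (Fin r) ℂ (A.H1 ^ a : Submodule ℂ A.H)) (α : Fin r → ℂ),
      (∀ j, ∃ L : List (Rt f), L.length = a ∧ α j = (L.map fun z : Rt f => (z : ℂ) ^ s).prod) ∧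
      ∀ j, φ a (e j) = α j • e j := by
  have hfin := hA.finite
  refine Pool.Agent.W484.BB.exists_eigenbasis (φ a)
    {α | ∃ L : List (Rt f), L.length = a ∧ α = (L.map fun z : Rt f => (z : ℂ) ^ s).prod} ?_
  rw [eq_top_iff]
  rintro ⟨x, hx⟩ -
  have h1 := span_pow hA a hx
  have h2 : ∀ y ∈ Submodule.span ℂ {v : A.H | v ∈ A.H1 ^ a ∧ ∃ L : List (Rt f), L.length = a ∧
      A.frobH v = (L.map fun z : Rt f => (z : ℂ) ^ s).prod • v}, ∃ hy : y ∈ A.H1 ^ a,
      (⟨y, hy⟩ : (A.H1 ^ a : Submodule ℂ A.H)) ∈ Submodule.span ℂ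
        {u | ∃ α ∈ {α | ∃ L : List (Rt f), L.length = a ∧
          α = (L.map fun z : Rt f => (z : ℂ) ^ s).prod}, φ a u = α • u} := by
    intro y hy
    induction hy using Submodule.span_induction with
    | mem y hy =>
      obtain ⟨h3, L, hL, h4⟩ := hy
      refine ⟨h3, Submodule.subset_span ⟨_, ⟨L, hL, rfl⟩, ?_⟩⟩
      apply Subtype.ext
      rw [hφ]
      exact h4
    | zero => exact ⟨Submodule.zero_mem _, Submodule.zero_mem _⟩
    | add x y _ _ hx hy =>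
      obtain ⟨h3, h4⟩ := hx
      obtain ⟨h5, h6⟩ := hy
      exact ⟨Submodule.add_mem _ h3 h5, Submodule.add_mem _ h4 h6⟩
    | smul c x _ hx =>
      obtain ⟨h3, h4⟩ := hx
      exact ⟨Submodule.smul_mem _ c h3, Submodule.smul_mem _ c h4⟩
  exact (h2 x h1).2

/-- The multiplicity of `Q ^ k` on `H^(2 k)(A)` is the number of classes of codimension `k`. -/
theorem card_eigen (hA : IsAbelian A q s f) {J : Type} [Fintype J] {c : J → ℕ} {D E : J → A.CH}
    (hdual : Pool.Agent.Y156.L.IsDual A c D E)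
    (hspan : ∀ (k : ℕ) (x : A.H), A.frobH x = ((q ^ s : ℕ) : ℂ) ^ k • x →
        x ∈ Submodule.span ℂ {a | ∃ j, c j = k ∧ a = A.cl (D j)} ∧ x ∈ A.H1 ^ (2 * k))
    {φ : ∀ a : ℕ, Module.End ℂ (A.H1 ^ a : Submodule ℂ A.H)} (hφ : FrobOn A φ) (k : ℕ)
    {r : ℕ} (e : Basis (Fin r) ℂ (A.H1 ^ (2 * k) : Submodule ℂ A.H)) (α : Fin r → ℂ)
    (he : ∀ j, φ (2 * k) (e j) = α j • e j) :
    Nat.card {j // α j = ((q ^ s : ℕ) : ℂ) ^ k} = Nat.card {t // c t = k} := by
  classical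
  have hfin := hA.finite
  rw [← Pool.Agent.W484.BB.finrank_eigenspace (φ (2 * k)) e α he]
  have hli : LinearIndependent ℂ (fun t : {t // c t = k} => A.cl (D t)) := by
    rw [Fintype.linearIndependent_iff]
    intro g hg u
    have h1 := congrArg (fun x => A.tr (x * A.cl (E u))) hg
    simp only [zero_mul, map_zero, Finset.sum_mul, map_sum, smul_mul_assoc, map_smul,
      smul_eq_mul, ← map_mul, hA.tr_cl] at h1
    rw [Finset.sum_eq_single u] at h1
    · rw [hdual.eq, Rat.cast_one, mul_one] at h1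
      exact h1
    · intro t _ htu
      rw [hdual.ne _ _ (fun h => htu (Subtype.ext h)), Rat.cast_zero, mul_zero]
    · intro h
      exact absurd (Finset.mem_univ u) h
  rw [Nat.card_eq_fintype_card, ← finrank_span_eq_card hli]
  refine LinearEquiv.finrank_eq ?_
  refine LinearEquiv.ofBijective
    (((A.H1 ^ (2 * k) : Submodule ℂ A.H).subtype.comp
      (LinearMap.eqLocus (φ (2 * k)) ((((q ^ s : ℕ) : ℂ) ^ k) • LinearMap.id)).subtype).codRestrict
      (Submodule.span ℂ (Set.range fun t : {t // c t = k} => A.cl (D t))) ?_) ⟨?_, ?_⟩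
  · rintro ⟨x, hx⟩
    rw [Pool.Agent.W484.BB.mem_eqLocus_smul] at hx
    have h1 : A.frobH (x : A.H) = ((q ^ s : ℕ) : ℂ) ^ k • (x : A.H) := by
      rw [← hφ, hx]
      rfl
    refine Submodule.span_mono ?_ (hspan k _ h1).1
    rintro _ ⟨t, ht, rfl⟩
    exact ⟨⟨t, ht⟩, rfl⟩
  · intro x y hxy
    have h1 : ((x : (A.H1 ^ (2 * k) : Submodule ℂ A.H)) : A.H) =
        ((y : (A.H1 ^ (2 * k) : Submodule ℂ A.H)) : A.H) := by
      have h2 := congrArg Subtype.val hxy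
      exact h2
    exact Subtype.ext (Subtype.ext h1)
  · rintro ⟨y, hy⟩
    have h1 : A.frobH y = ((q ^ s : ℕ) : ℂ) ^ k • y := by
      induction hy using Submodule.span_induction with
      | mem y hy =>
        obtain ⟨⟨t, ht⟩, rfl⟩ := hy
        have h2 := hdual.left t
        rw [ht] at h2
        exact hA.frob_cl h2
      | zero => rw [map_zero, smul_zero]
      | add x y _ _ hx hy => rw [map_add, hx, hy, smul_add]
      | smul c x _ hx => rw [map_smul, hx, smul_comm]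
    refine ⟨⟨⟨y, (hspan k y h1).2⟩, ?_⟩, rfl⟩
    rw [Pool.Agent.W484.BB.mem_eqLocus_smul]
    apply Subtype.ext
    rw [hφ]
    exact h1

/-- The isomorphism with the power of `H^1`. -/
theorem exists_equiv_coh {φ : CohData A} (hφ : IsCoh φ) (a : ℕ) :
    ∃ E : φ.V a ≃ₗ[ℂ] (A.H1 ^ a : Submodule ℂ A.H), ∀ x, ((E x : (A.H1 ^ a : Submodule ℂ A.H)) :
      A.H) = φ.incl a x := by
  refine ⟨(LinearEquiv.ofInjective (φ.incl a) (hφ.injective a)).trans
    (LinearEquiv.ofEq _ _ (hφ.range a)), fun x => ?_⟩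
  rfl

theorem exists_frobOn {φ : CohData A} (hφ : IsCoh φ) :
    ∃ (E : ∀ a, φ.V a ≃ₗ[ℂ] (A.H1 ^ a : Submodule ℂ A.H))
      (ψ : ∀ a : ℕ, Module.End ℂ (A.H1 ^ a : Submodule ℂ A.H)), FrobOn A ψ ∧
      ∀ a x, φ.frob a x = (E a).symm (ψ a (E a x)) := by
  choose E hE using fun a => exists_equiv_coh hφ a
  refine ⟨E, fun a => ((E a).toLinearMap.comp (φ.frob a)).comp (E a).symm.toLinearMap,
    fun a x => ?_, fun a x => ?_⟩
  · change ((E a (φ.frob a ((E a).symm x)) : (A.H1 ^ a : Submodule ℂ A.H)) : A.H) = _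
    rw [hE, hφ.frob, ← hE, LinearEquiv.apply_symm_apply]
  · change _ = (E a).symm (E a (φ.frob a ((E a).symm (E a x))))
    rw [LinearEquiv.symm_apply_apply, LinearEquiv.symm_apply_apply]

theorem exists_basis_coh (hA : IsAbelian A q s f) {φ : CohData A} (hφ : IsCoh φ) (a : ℕ) :
    ∃ (r : ℕ) (e : Basis (Fin r) ℂ (φ.V a)) (α : Fin r → ℂ),
      (∀ j, ∃ L : List (Rt f), L.length = a ∧ α j = (L.map fun z : Rt f => (z : ℂ) ^ s).prod) ∧
      ∀ j, φ.frob a (e j) = α j • e j := by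
  obtain ⟨E, ψ, hψ, hEψ⟩ := exists_frobOn hφ
  obtain ⟨r, e, α, h1, h2⟩ := exists_basis_pow hA hψ a
  refine ⟨r, e.map (E a).symm, α, h1, fun j => ?_⟩
  rw [hEψ, Basis.map_apply, LinearEquiv.apply_symm_apply, h2, map_smul]

theorem card_eigen_coh (hA : IsAbelian A q s f) {J : Type} [Fintype J] {c : J → ℕ}
    {D E : J → A.CH} (hdual : Pool.Agent.Y156.L.IsDual A c D E)
    (hspan : ∀ (k : ℕ) (x : A.H), A.frobH x = ((q ^ s : ℕ) : ℂ) ^ k • x →
        x ∈ Submodule.span ℂ {a | ∃ j, c j = k ∧ a = A.cl (D j)} ∧ x ∈ A.H1 ^ (2 * k))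
    {φ : CohData A} (hφ : IsCoh φ) (k : ℕ)
    {r : ℕ} (e : Basis (Fin r) ℂ (φ.V (2 * k))) (α : Fin r → ℂ)
    (he : ∀ j, φ.frob (2 * k) (e j) = α j • e j) :
    Nat.card {j // α j = ((q ^ s : ℕ) : ℂ) ^ k} = Nat.card {t // c t = k} := by
  obtain ⟨E, ψ, hψ, hEψ⟩ := exists_frobOn hφ
  refine card_eigen hA hdual hspan hψ k (e.map (E (2 * k))) α fun j => ?_
  have h1 := he j
  rw [hEψ] at h1
  have h2 := congrArg (E (2 * k)) h1
  rw [LinearEquiv.apply_symm_apply, map_smul] at h2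
  rw [Basis.map_apply]
  exact h2

/-- The eigenvalues are not zero. -/
theorem eigen_ne_zero (hQ0 : ((q ^ s : ℕ) : ℂ) ≠ 0) (hA : IsAbelian A q s f)
    {φ : ∀ a : ℕ, Module.End ℂ (A.H1 ^ a : Submodule ℂ A.H)} (hφ : FrobOn A φ) (a : ℕ)
    {r : ℕ} (e : Basis (Fin r) ℂ (A.H1 ^ a : Submodule ℂ A.H)) (α : Fin r → ℂ)
    (he : ∀ j, φ a (e j) = α j • e j) (j : Fin r) : α j ≠ 0 := by
  intro h0
  have h3 := he j
  rw [h0, zero_smul] at h3
  have h4 : A.frobH ((e j : (A.H1 ^ a : Submodule ℂ A.H)) : A.H) = 0 := by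
    rw [← hφ, h3]
    rfl
  have h5 : ((e j : (A.H1 ^ a : Submodule ℂ A.H)) : A.H) = 0 := by
    refine hA.nondeg _ fun b => ?_
    have h6 := hA.tr_frob (((e j : (A.H1 ^ a : Submodule ℂ A.H)) : A.H) * b)
    rw [map_mul, h4, zero_mul, map_zero] at h6
    exact (mul_eq_zero.1 h6.symm).resolve_left (pow_ne_zero _ hQ0)
  exact e.ne_zero j (Subtype.ext h5)

theorem eigen_ne_zero_coh (hQ0 : ((q ^ s : ℕ) : ℂ) ≠ 0) (hA : IsAbelian A q s f)
    {φ : CohData A} (hφ : IsCoh φ) (a : ℕ)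
    {r : ℕ} (e : Basis (Fin r) ℂ (φ.V a)) (α : Fin r → ℂ)
    (he : ∀ j, φ.frob a (e j) = α j • e j) (j : Fin r) : α j ≠ 0 := by
  obtain ⟨E, ψ, hψ, hEψ⟩ := exists_frobOn hφ
  refine eigen_ne_zero hQ0 hA hψ a (e.map (E a)) α (fun j => ?_) j
  have h1 := he j
  rw [hEψ] at h1
  have h2 := congrArg (E a) h1
  rw [LinearEquiv.apply_symm_apply, map_smul] at h2
  rw [Basis.map_apply]
  exact h2

end

end Pool.Agent.V1168.BB
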