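import Mathlib
import Pool.Agent.Y156.L.Props
import Pool.Agent.Y1.CT.UnrelDefs

/-!
# Finite generation of integral theories of products with abelian varieties: definitions
-/

set_option autoImplicit false

namespace Pool.Agent.V1168.BB

open Polynomial Module Pool.Agent.Y156.L Pool.Agent.Y1.CT

/-- Data of the Chow ring and the correspondences of `A` with integral coefficients. -/
structure IntegralData {Λ : Type} [Field Λ] (A : AbelianData Λ) where
  /-- the Chow ring of `A`, with integral coefficients -/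
  CHZ : Type
  [ring : CommRing CHZ]
  /-- the cycles of codimension `c` -/
  cod : ℕ → AddSubgroup CHZ
  /-- the ring of correspondences of `A`, with integral coefficients -/
  CorrZ : Type
  [ringCorr : Ring CorrZ]
  /-- the map to the Chow ring with rational coefficients -/
  toCH : CHZ →+* A.CH
  /-- the map to the ring of correspondences with rational coefficients -/
  toCorr : CorrZ →+* A.Corr
  /-- the degree of zero-cycles -/
  degZ : CHZ → ℤ
  /-- the Frobenius endomorphism -/
  frobZ : CorrZ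
  /-- the correspondence `x × y` -/
  corrZ : CHZ → CHZ → CorrZ

attribute [instance] IntegralData.ring IntegralData.ringCorr

section

variable {Λ : Type} [Field Λ] {A : AbelianData Λ}

/-- The compatibility with the data with rational coefficients: every rational cycle has an integral
multiple, and an integral correspondence which is rationally zero is a torsion element. -/
structure IsIntegralData (Z : IntegralData A) : Prop where
  multiple : ∀ {c : ℕ} {x : A.CH}, A.Codim c x → ∃ n : ℕ, n ≠ 0 ∧ ∃ z ∈ Z.cod c, Z.toCH z = n • x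
  deg : ∀ z, (Z.degZ z : ℚ) = A.deg (Z.toCH z)
  torsion : ∀ Γ, Z.toCorr Γ = 0 → ∃ n : ℕ, n ≠ 0 ∧ n • Γ = 0
  frob : Z.toCorr Z.frobZ = A.frob
  corr : ∀ x y, Z.toCorr (Z.corrZ x y) = A.corr (Z.toCH x) (Z.toCH y)

/-- Data of a bigraded theory relative to a scheme `Y` with integral coefficients: the sums `N` and `M`
of the groups `H^i(Y, ℤ(j))` and `H^i(A × Y, ℤ(j))`. -/
structure IntTheory (Z : IntegralData A) where
  /-- the sum of the groups of `Y` -/
  N : Type
  [groupN : AddCommGroup N]
  /-- the sum of the groups of `A × Y` -/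
  M : Type
  [groupM : AddCommGroup M]
  /-- the group `H^i(Y, ℤ(j))` -/
  grN : ℤ → ℤ → AddSubgroup N
  /-- the group `H^i(A × Y, ℤ(j))` -/
  grM : ℤ → ℤ → AddSubgroup M
  /-- the product with a class on `A` -/
  times : Z.CHZ → (N →+ M)
  /-- the multiplication by a class on `A`, followed by the push-forward to `Y` -/
  pair : Z.CHZ → (M →+ N)
  /-- the operation of the correspondences from `A` to `A` -/
  act : Z.CorrZ →+* AddMonoid.End M
  /-- the operation of the Frobenius endomorphism of `Y` -/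
  frobM : AddMonoid.End M

attribute [instance] IntTheory.groupN IntTheory.groupM

variable {Z : IntegralData A} (T : IntTheory Z)

/-- The product with a class on `A`. -/
def IntTheory.mul (x : Z.CHZ) (n : T.N) : T.M := T.times x n

/-- The multiplication by a class on `A`, followed by the push-forward to `Y`. -/
def IntTheory.push (x : Z.CHZ) (m : T.M) : T.N := T.pair x m

/-- The operation of a correspondence. -/
def IntTheory.app (Γ : Z.CorrZ) (m : T.M) : T.M := T.act Γ m

/-- The operation of the Frobenius endomorphism of `Y`. -/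
def IntTheory.FM (m : T.M) : T.M := T.frobM m

/-- The degrees of products and push-forwards, and the projection formula. -/
structure IsIntGraded : Prop where
  mul_mem : ∀ {c : ℕ} {x : Z.CHZ} {i j : ℤ} {n : T.N}, x ∈ Z.cod c → n ∈ T.grN i j →
    T.mul x n ∈ T.grM (i + 2 * c) (j + c)
  push_mem : ∀ {c d : ℕ} {x : Z.CHZ} {i j : ℤ} {m : T.M}, c + d = A.dim → x ∈ Z.cod d →
    m ∈ T.grM i j → T.push x m ∈ T.grN (i - 2 * c) (j - c)
  app_mem : ∀ {Γ : Z.CorrZ} {i j : ℤ} {m : T.M}, m ∈ T.grM i j → T.app Γ m ∈ T.grM i j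
  FM_mem : ∀ {i j : ℤ} {m : T.M}, m ∈ T.grM i j → T.FM m ∈ T.grM i j
  push_mul : ∀ (x y : Z.CHZ) (n : T.N), T.push x (T.mul y n) = Z.degZ (x * y) • n

/-- The operation of correspondences and of the Frobenius endomorphisms: `corrZ x y` acts as the
push-forward with `x`, followed by the product with `y`; the Frobenius endomorphism of `A` acts as `Q ^ c`
on cycles of codimension `c` on `A`, and the one of `A × Y` as `Q ^ j` on `H^i(A × Y, ℤ(j))`. -/
structure IsIntAction (Q : ℕ) : Prop where
  app_corr : ∀ {c d : ℕ} {x y : Z.CHZ} (m : T.M), c + d = A.dim → x ∈ Z.cod c → y ∈ Z.cod d →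
    T.app (Z.corrZ x y) m = T.mul y (T.push x m)
  app_frob : ∀ {c : ℕ} {x : Z.CHZ} (n : T.N), x ∈ Z.cod c →
    T.app Z.frobZ (T.mul x n) = Q ^ c • T.mul x n
  FM_app : ∀ (Γ : Z.CorrZ) (m : T.M), T.FM (T.app Γ m) = T.app Γ (T.FM m)
  pure : ∀ {i : ℤ} {j : ℕ} {m : T.M}, m ∈ T.grM i j → T.app Z.frobZ (T.FM m) = Q ^ j • m

/-- The groups in negative weights are zero, and the groups of the elements of the `H^i(Y, ℤ(j))` and
`H^i(A × Y, ℤ(j))` which are annihilated by an integer `n ≠ 0` are finite. -/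
structure IsIntFinite : Prop where
  neg : ∀ {i j : ℤ}, j < 0 → T.grN i j = ⊥ ∧ T.grM i j = ⊥
  finiteN : ∀ (i j : ℤ) (n : ℕ), n ≠ 0 → {x | x ∈ T.grN i j ∧ n • x = 0}.Finite
  finiteM : ∀ (i j : ℤ) (n : ℕ), n ≠ 0 → {x | x ∈ T.grM i j ∧ n • x = 0}.Finite

/-- The formal properties of the theory `T` relative to a scheme `Y` over the field with `Q`
elements. -/
structure IsIntTheory (Q : ℕ) : Prop where
  data : IsIntegralData Z
  graded : IsIntGraded T
  action : IsIntAction T Q
  finite : IsIntFinite T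

/-- The Frobenius endomorphism of `Y` satisfies on each group `H^i(A × Y, ℤ(j))` a nonzero polynomial
with integral coefficients all of whose complex roots are unrelated to the fields `K i`. -/
def IntUnrelated {I : Type} (K : I → Type) [∀ i, Field (K i)] : Prop :=
  ∀ i j : ℤ, ∃ χ : ℤ[X], χ ≠ 0 ∧ (∀ ρ : ℂ, aeval ρ χ = 0 → Unrelated K ρ) ∧
    ∀ m ∈ T.grM i j, aeval T.frobM χ m = 0

/-- The group `H^i(Y, ℤ(j))` is finitely generated. -/
def FGN (i j : ℤ) : Prop := (T.grN i j).FG

/-- The group `H^i(A × Y, ℤ(j))` is finitely generated. -/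
def FGM (i j : ℤ) : Prop := (T.grM i j).FG

end

section

variable {Λ : Type} [Field Λ] {A : AbelianData Λ} {Z : IntegralData A} (T : IntTheory Z)

/-- The group `H^i(A × Y, ℤ(j))` is finitely generated if and only if the groups
`H^(i - 2 k)(Y, ℤ(j - k))`, `0 ≤ k ≤ dim A`, are finitely generated. -/
def FGEquiv : Prop :=
  ∀ i j : ℤ, FGM T i j ↔ ∀ k : ℕ, k ≤ A.dim → FGN T (i - 2 * k) (j - k)

/-- Lichtenbaum's statement `L^n(Y)`: all groups `H^i(Y, ℤ(n))` are finitely generated. -/
def LStatementN (n : ℤ) : Prop := ∀ i : ℤ, FGN T i n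

/-- Lichtenbaum's statement `L^n(A × Y)`. -/
def LStatementM (n : ℤ) : Prop := ∀ i : ℤ, FGM T i n

/-- `L^n(A × Y)` is equivalent to the `L^(n - k)(Y)`, `0 ≤ k ≤ dim A` and `k ≤ n`. -/
def LEquiv : Prop :=
  ∀ n : ℕ, LStatementM T n ↔ ∀ k : ℕ, k ≤ A.dim → k ≤ n → LStatementN T (n - k)

/-- The group `H^i(Y, ℤ^c(n)) = H^(2 d + i)(Y, ℤ(d - n))` is finitely generated, `d` the dimension of
the smooth scheme `Y`. -/
def CycleFGN (d : ℕ) (i n : ℤ) : Prop := FGN T (2 * d + i) (d - n)

/-- The group `H^i(A × Y, ℤ^c(n)) = H^(2 (dim A + d) + i)(A × Y, ℤ(dim A + d - n))` is finitely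
generated. -/
def CycleFGM (d : ℕ) (i n : ℤ) : Prop := FGM T (2 * (A.dim + d) + i) (A.dim + d - n)

/-- The statement of Flach and Morin for `Y` and one `n`. -/
def FlachMorinN (d : ℕ) (n : ℤ) : Prop := ∀ i : ℤ, i ≤ -2 * n + 1 → CycleFGN T d i n

/-- The statement of Flach and Morin for `A × Y` and one `n`. -/
def FlachMorinM (d : ℕ) (n : ℤ) : Prop := ∀ i : ℤ, i ≤ -2 * n + 1 → CycleFGM T d i n

/-- The statement of Flach and Morin for `A × Y` and one `n < 0` is equivalent to the statements for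
`Y` and `n, n - 1, …, n - dim A`, and the one for `A × Y` and all `n < 0` to the one for `Y` and all
`n < 0`. -/
def FlachMorinEquiv : Prop :=
  ∀ d : ℕ, (∀ n : ℤ, FlachMorinM T d n ↔ ∀ k : ℕ, k ≤ A.dim → FlachMorinN T d (n - k)) ∧
    ((∀ n : ℤ, n < 0 → FlachMorinM T d n) ↔ ∀ n : ℤ, n < 0 → FlachMorinN T d n)

/-- All groups `H^i(Y, ℤ(m))` with `i ≤ 2 m` are finitely generated. -/
def WeightFGN (m : ℤ) : Prop := ∀ i : ℤ, i ≤ 2 * m → FGN T i m

/-- All groups `H^i(A × Y, ℤ(m))` with `i ≤ 2 m` are finitely generated. -/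
def WeightFGM (m : ℤ) : Prop := ∀ i : ℤ, i ≤ 2 * m → FGM T i m

/-- The groups `H^i(A × Y, ℤ(dim A + d))`, `i ≤ 2 (dim A + d)`, are finitely generated if and only if
the groups `H^i(Y, ℤ(d + k))`, `i ≤ 2 (d + k)`, `0 ≤ k ≤ dim A`, are finitely generated. -/
def TopWeightEquiv : Prop :=
  ∀ d : ℕ, WeightFGM T (A.dim + d) ↔ ∀ k : ℕ, k ≤ A.dim → WeightFGN T (d + k)

/-- The groups `H^i(A × Y, ℤ(dim A + d))`, `0 ≤ i ≤ 2 (dim A + d)`, are finitely generated if and only
if the groups `H^i(Y, ℤ(d + k))`, `- 2 (dim A - k) ≤ i ≤ 2 (d + k)`, `0 ≤ k ≤ dim A`, are finitely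
generated. -/
def TopRangeEquiv : Prop :=
  ∀ d : ℕ, (∀ i : ℤ, 0 ≤ i → i ≤ 2 * (A.dim + d) → FGM T i (A.dim + d)) ↔
    ∀ k : ℕ, k ≤ A.dim → ∀ i : ℤ, -2 * ((A.dim : ℤ) - k) ≤ i → i ≤ 2 * (d + k) → FGN T i (d + k)

end

section

variable {I : Type} (K : I → Type) [∀ i, Field (K i)] (q : ℕ) (f : I → ℤ[X])

/-- `FGTimes K q f P`: for every abelian variety `A` as in `IsAbelian` over the field with `Q = q ^ s`
elements and every theory `T` relative to a scheme `Y` over the field with `Q` elements, with the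
properties `IsIntTheory` and `IntUnrelated`, the conclusion `P` holds. -/
def FGTimes (P : ∀ {Λ : Type} [Field Λ] {A : AbelianData Λ} {Z : IntegralData A},
    IntTheory Z → Prop) : Prop :=
  ∀ (Λ : Type) [Field Λ] [CharZero Λ] (A : AbelianData Λ) (s : ℕ), IsAbelian A q s f →
    ∀ (Z : IntegralData A) (T : IntTheory Z), IsIntTheory T (q ^ s) → IntUnrelated T K → P T

/-- `FGTimes` with the conclusions `FGEquiv` and `LEquiv`. -/
def WeilEtaleTimes : Prop := FGTimes K q f fun T => FGEquiv T ∧ LEquiv T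

/-- `FGTimes` with the conclusion `FlachMorinEquiv`. -/
def FlachMorinTimes : Prop := FGTimes K q f fun T => FlachMorinEquiv T

/-- `FGTimes` with the conclusion `TopWeightEquiv`. -/
def TopWeightTimes : Prop := FGTimes K q f fun T => TopWeightEquiv T

/-- `FGTimes` with the conclusion `TopRangeEquiv`. -/
def TopRangeTimes : Prop := FGTimes K q f fun T => TopRangeEquiv T

end

end Pool.Agent.V1168.BB
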