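import Mathlib
import Pool.Agent.V1168.BB.Coh
import Pool.Agent.V1168.BB.IntDefs

/-!
# Finite generation of integral theories of products with abelian varieties
-/

set_option autoImplicit false
set_option linter.unusedSectionVars false
set_option linter.unusedVariables false

namespace Pool.Agent.V1168.BB

open Module Polynomial Pool.Agent.Y156.L Pool.Agent.W484.HS Pool.Agent.Y1.CT Pool.Agent.V1168.UN

section core

variable {K : Type} [Field K] [CharZero K] {A : AbelianData K}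

variable {I : Type} {q : ℕ} (hq : 1 < q) {f : I → ℤ[X]} {R : ℂ → Prop} (hR : NoRel f q R)

include hq hR in
/-- **The projector and the polynomials.** -/
theorem exists_core3 {s : ℕ} (hA : IsAbelian A q s f) :
    ∃ (J : Type) (_ : Fintype J) (c : J → ℕ) (D E' : J → A.CH), IsFamily A c D ∧
      Pool.Agent.Y156.L.IsDual A c D E' ∧ q ^ s ≠ 0 ∧
      ∀ (j : ℤ) (χ : ℚ[X]), χ ≠ 0 → (∀ ρ : ℂ, aeval ρ χ = 0 → R ρ) →
        ∃ P : ℚ[X], IsCoprime P (rev χ (((q ^ s : ℕ) : ℚ) ^ j)) ∧
          ∀ w : A.H, A.act (proj D E') (aeval (A.frobH.toLinearMap : Module.End K A.H)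
            (P.map (algebraMap ℚ K)) w) = aeval (A.frobH.toLinearMap : Module.End K A.H)
              (P.map (algebraMap ℚ K)) w := by
  obtain ⟨n, b, α, hb, hα, hα0, hgood⟩ := exists_good_basis2 hq hR hA
  have hs := hA.pos
  have hQ1 : 1 < q ^ s := Nat.one_lt_pow hs.ne' hq
  have hX1 : (Polynomial.X - 1 : ℚ[X]) ≠ 0 := by
    have := Polynomial.X_sub_C_ne_zero (1 : ℚ)
    rwa [map_one] at this
  have h1 : ∀ t (c : ℤ), α t = ((q ^ s : ℕ) : K) ^ c →
      ∃ l : ℕ, α t = ((q ^ s : ℕ) : K) ^ l ∧ b t ∈ NK A l := by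
    intro t c hc
    obtain ⟨l, h2, h3, -⟩ := hgood _ hX1 (root_one hR) 1
      (by rw [map_sub, aeval_X, map_one, sub_self]) t c (by rw [mul_one]; exact hc)
    exact ⟨l, h2, h3⟩
  obtain ⟨J, hJ, c, D, E', hdual, hD, hE, hN⟩ := exists_dual hA hQ1 b α hb h1
  have hfam : IsFamily A c D :=
    ⟨hD, hdual.le, fun k hk => exists_codim hA hQ1 b α hb h1 hN hk⟩
  refine ⟨J, hJ, c, D, E', hfam, hdual, by omega, fun j χ hχ hrank => ?_⟩
  obtain ⟨P, hP, hmix⟩ := exists_kill b α hb hα hα0 χ ((((q ^ s : ℕ) : ℚ)) ^ j) (by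
    intro ρ hρ t ht
    obtain ⟨l, -, hl, -⟩ := hgood χ hχ hrank ρ hρ t j (by rw [ht]; push_cast; rfl)
    exact ⟨l, hl⟩)
  exact ⟨P, hP, fun w => act_proj_mix hA hdual hN (hmix w)⟩

end core

section polynomials

theorem exists_int (S : ℚ[X]) : ∃ (n : ℤ) (S' : ℤ[X]), n ≠ 0 ∧
    S'.map (Int.castRingHom ℚ) = (n : ℚ) • S := by
  obtain ⟨b, hb, h⟩ := IsLocalization.integerNormalization_spec (nonZeroDivisors ℤ) S
  refine ⟨b, IsLocalization.integerNormalization (nonZeroDivisors ℤ) S,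
    nonZeroDivisors.ne_zero hb, ?_⟩
  rw [Int.cast_smul_eq_zsmul]
  exact h

/-- The polynomial with the roots `μ / ρ`, with integral coefficients. -/
noncomputable def revZ (χ : ℤ[X]) (μ : ℤ) : ℤ[X] :=
  ∑ l ∈ Finset.range (χ.natDegree + 1), Polynomial.C (χ.coeff l * μ ^ l) * X ^ (χ.natDegree - l)

theorem map_revZ (χ : ℤ[X]) (μ : ℤ) :
    (revZ χ μ).map (Int.castRingHom ℚ) = rev (χ.map (Int.castRingHom ℚ)) μ := by
  unfold revZ rev
  rw [Polynomial.map_sum, natDegree_map_eq_of_injective (RingHom.injective_int _)]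
  refine Finset.sum_congr rfl fun l _ => ?_
  rw [Polynomial.map_mul, Polynomial.map_pow, map_X, map_C, coeff_map, map_mul, map_pow]
  rfl

theorem bezout_int {P' R' : ℤ[X]} {P : ℚ[X]} {s : ℤ} (hs : s ≠ 0)
    (hP : P'.map (Int.castRingHom ℚ) = (s : ℚ) • P)
    (h : IsCoprime P (R'.map (Int.castRingHom ℚ))) :
    ∃ (a b : ℤ[X]) (N : ℤ), N ≠ 0 ∧ P' * a + R' * b = C N := by
  obtain ⟨a, b, hab⟩ := h
  obtain ⟨n₁, a', hn₁, ha'⟩ := exists_int ((s : ℚ)⁻¹ • a)
  obtain ⟨n₂, b', hn₂, hb'⟩ := exists_int b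
  have hs' : (s : ℚ) ≠ 0 := Int.cast_ne_zero.2 hs
  refine ⟨C n₂ * a', C n₁ * b', n₁ * n₂, mul_ne_zero hn₁ hn₂, ?_⟩
  apply Polynomial.map_injective (Int.castRingHom ℚ) (RingHom.injective_int _)
  simp only [Polynomial.map_add, Polynomial.map_mul, map_C, hP, ha', hb', map_mul,
    Polynomial.smul_eq_C_mul]
  have h1 : C ((Int.castRingHom ℚ) n₁) = C (n₁ : ℚ) := rfl
  have h2 : C ((Int.castRingHom ℚ) n₂) = C (n₂ : ℚ) := rfl
  have h3 : C (s : ℚ) * C ((s : ℚ)⁻¹) = 1 := by rw [← C_mul, mul_inv_cancel₀ hs', C_1]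
  rw [h1, h2]
  calc C (s : ℚ) * P * (C (n₂ : ℚ) * (C (n₁ : ℚ) * (C (s : ℚ)⁻¹ * a))) +
        R'.map (Int.castRingHom ℚ) * (C (n₁ : ℚ) * (C (n₂ : ℚ) * b))
      = C (n₁ : ℚ) * C (n₂ : ℚ) * ((C (s : ℚ) * C (s : ℚ)⁻¹) * (a * P) +
        b * R'.map (Int.castRingHom ℚ)) := by ring
    _ = C (n₁ : ℚ) * C (n₂ : ℚ) := by rw [h3, one_mul, hab, mul_one]

end polynomials

section operators

variable {M : Type} [AddCommGroup M]

theorem aeval_revZ_op (F ψ : Module.End ℤ M) (V : AddSubgroup M) (μ : ℤ)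
    (hV : ∀ m ∈ V, ψ m ∈ V) (hF : ∀ m ∈ V, F (ψ m) = μ • m)
    (χ : ℤ[X]) (hχ : ∀ m ∈ V, aeval ψ χ m = 0) {m : M} (hm : m ∈ V) :
    aeval F (revZ χ μ) m = 0 := by
  have hψ : ∀ l : ℕ, (ψ ^ l) m ∈ V := by
    intro l
    induction l with
    | zero => simpa using hm
    | succ l ih =>
      rw [pow_succ', Module.End.mul_apply]
      exact hV _ ih
  have hFl : ∀ l : ℕ, (F ^ l) ((ψ ^ l) m) = μ ^ l • m := by
    intro l
    induction l with
    | zero => simp
    | succ l ih =>
      rw [pow_succ F, Module.End.mul_apply, pow_succ' ψ, Module.End.mul_apply, hF _ (hψ l),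
        map_smul, ih, smul_smul, pow_succ']
  have h1 : (F ^ χ.natDegree) (aeval ψ χ m) = 0 := by rw [hχ m hm, map_zero]
  rw [← h1, revZ, map_sum, LinearMap.sum_apply, aeval_eq_sum_range, LinearMap.sum_apply, map_sum]
  refine Finset.sum_congr rfl fun l hl => ?_
  have hl' : l ≤ χ.natDegree := by
    have := Finset.mem_range.1 hl
    omega
  have h2 : F ^ χ.natDegree = F ^ (χ.natDegree - l) * F ^ l := by
    rw [← pow_add]
    congr 1
    omega
  rw [LinearMap.smul_apply, map_smul, h2, Module.End.mul_apply, hFl, map_smul, map_mul, aeval_C,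
    map_pow, aeval_X, Module.End.mul_apply, smul_smul, Module.algebraMap_end_apply]

end operators

section groups

theorem fg_bot' {G : Type} [AddCommGroup G] : (⊥ : AddSubgroup G).FG := ⟨∅, by simp⟩

theorem fg_of_map {G H : Type} [AddCommGroup G] [AddCommGroup H] (φ : G →+ H)
    [Module.Finite ℤ H] (h : Finite φ.ker) : Module.Finite ℤ G := by
  let f : G →ₗ[ℤ] H := φ.toIntLinearMap
  have h1 : Module.Finite ℤ (LinearMap.ker f) := by
    have h2 : Finite (LinearMap.ker f) := h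
    exact Module.Finite.of_finite
  have h3 : Module.Finite ℤ (G ⧸ LinearMap.ker f) := by
    have h4 : Function.Injective ((LinearMap.ker f).liftQ f le_rfl) := by
      rw [← LinearMap.ker_eq_bot, Submodule.ker_liftQ_eq_bot _ _ _ le_rfl]
    exact Module.Finite.of_injective _ h4
  exact Module.Finite.of_submodule_quotient (LinearMap.ker f)

end groups

section

variable {Λ : Type} [Field Λ] [CharZero Λ] {A : AbelianData Λ} {Z : IntegralData A}
  {T : IntTheory Z} {J : Type} [Fintype J] {c : J → ℕ} {D E : J → A.CH}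

/-- Integral multiples of the classes. -/
theorem exists_lifts (hZ : IsIntegralData Z) (h : Pool.Agent.Y156.L.IsDual A c D E) :
    ∃ (N₀ : ℕ) (D' E' : J → Z.CHZ), N₀ ≠ 0 ∧ (∀ t, D' t ∈ Z.cod (c t)) ∧
      (∀ t, E' t ∈ Z.cod (A.dim - c t)) ∧ (∀ t, Z.toCH (D' t) = N₀ • D t) ∧
      ∀ t, Z.toCH (E' t) = N₀ • E t := by
  classical
  choose nD hnD zD hzD hD using fun t => hZ.multiple (h.left t)
  choose nE hnE zE hzE hE using fun t => hZ.multiple (h.right t)
  let N : ℕ := ∏ t, nD t * nE t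
  have hN : N ≠ 0 := Finset.prod_ne_zero_iff.2 fun t _ => mul_ne_zero (hnD t) (hnE t)
  have hcof : ∀ t, ∃ k : ℕ, N = nD t * nE t * k := by
    intro t
    exact Finset.dvd_prod_of_mem _ (Finset.mem_univ t)
  choose k hk using hcof
  refine ⟨N, fun t => (nE t * k t) • zD t, fun t => (nD t * k t) • zE t, hN,
    fun t => AddSubgroup.nsmul_mem _ (hzD t) _, fun t => AddSubgroup.nsmul_mem _ (hzE t) _,
    fun t => ?_, fun t => ?_⟩
  · rw [map_nsmul, hD, smul_smul, hk t]
    congr 1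
    ring
  · rw [map_nsmul, hE, smul_smul, hk t]
    congr 1
    ring

/-- The operation of the correspondences by linear maps. -/
noncomputable def actZ (T : IntTheory Z) : Z.CorrZ →+* Module.End ℤ T.M :=
  (addMonoidEndRingEquivInt T.M).toRingHom.comp T.act

theorem actZ_apply (Γ : Z.CorrZ) (m : T.M) : actZ T Γ m = T.act Γ m := rfl

/-- The Frobenius endomorphism as a linear map. -/
noncomputable def frobL (T : IntTheory Z) : Module.End ℤ T.M := addMonoidEndRingEquivInt T.M T.frobM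

theorem frobL_apply (m : T.M) : frobL T m = T.frobM m := rfl

theorem aeval_frobL (χ : ℤ[X]) (m : T.M) : aeval (frobL T) χ m = aeval T.frobM χ m := by
  have h : aeval ((addMonoidEndRingEquivInt T.M).toRingHom.toIntAlgHom T.frobM) χ =
      (addMonoidEndRingEquivInt T.M).toRingHom.toIntAlgHom (aeval T.frobM χ) :=
    aeval_algHom_apply _ _ _
  exact congrArg (fun g : Module.End ℤ T.M => g m) h

theorem aeval_actZ (S : ℤ[X]) : aeval (actZ T Z.frobZ) S = actZ T (aeval Z.frobZ S) :=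
  aeval_algHom_apply (actZ T).toIntAlgHom Z.frobZ S

/-- The integral multiple of the projector. -/
def projZ (D' E' : J → Z.CHZ) : Z.CorrZ := ∑ t, Z.corrZ (E' t) (D' t)

variable {Q : ℕ} {D' E' : J → Z.CHZ} {N₀ : ℕ}

theorem act_projZ (hT : IsIntAction T Q) (hle : ∀ t, c t ≤ A.dim) (hD : ∀ t, D' t ∈ Z.cod (c t))
    (hE : ∀ t, E' t ∈ Z.cod (A.dim - c t)) (m : T.M) :
    actZ T (projZ D' E') m = ∑ t, T.times (D' t) (T.pair (E' t) m) := by
  unfold projZ
  rw [map_sum, LinearMap.sum_apply]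
  exact Finset.sum_congr rfl fun t _ => hT.app_corr m (Nat.sub_add_cancel (hle t)) (hE t) (hD t)

theorem pair_times_int (hZ : IsIntegralData Z) (hG : IsIntGraded T)
    (h : Pool.Agent.Y156.L.IsDual A c D E) (hD : ∀ t, Z.toCH (D' t) = N₀ • D t)
    (hE : ∀ t, Z.toCH (E' t) = N₀ • E t) (i j : J) (n : T.N) [Decidable (i = j)] :
    T.pair (E' j) (T.times (D' i) n) = if i = j then (N₀ ^ 2) • n else 0 := by
  have h1 : T.pair (E' j) (T.times (D' i) n) = Z.degZ (E' j * D' i) • n := hG.push_mul _ _ _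
  have h2 : (Z.degZ (E' j * D' i) : ℚ) = (N₀ : ℚ) ^ 2 * A.deg (E j * D i) := by
    rw [hZ.deg, map_mul, hD, hE, smul_mul_smul_comm, map_nsmul, ← Nat.cast_smul_eq_nsmul ℚ,
      smul_eq_mul]
    push_cast
    ring
  rw [h1]
  by_cases hij : i = j
  · subst hij
    rw [if_pos rfl]
    rw [mul_comm (E i), h.eq, mul_one] at h2
    have h3 : Z.degZ (E' i * D' i) = ((N₀ ^ 2 : ℕ) : ℤ) := by
      exact_mod_cast h2
    rw [h3, natCast_zsmul]
  · rw [if_neg hij]
    rw [mul_comm (E j), h.ne i j hij, mul_zero] at h2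
    have h3 : Z.degZ (E' j * D' i) = 0 := by exact_mod_cast h2
    rw [h3, zero_smul]

theorem pair_sum_int (hZ : IsIntegralData Z) (hG : IsIntGraded T)
    (h : Pool.Agent.Y156.L.IsDual A c D E) (hD : ∀ t, Z.toCH (D' t) = N₀ • D t)
    (hE : ∀ t, Z.toCH (E' t) = N₀ • E t) (j : J) (z : J → T.N) :
    T.pair (E' j) (∑ i, T.times (D' i) (z i)) = (N₀ ^ 2) • z j := by
  classical
  rw [map_sum, Finset.sum_congr rfl fun i _ => pair_times_int hZ hG h hD hE i j (z i),
    Finset.sum_ite_eq', if_pos (Finset.mem_univ _)]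

theorem aeval_frob_times_int (hT : IsIntAction T Q) {n : ℕ} {b : Z.CHZ} (hb : b ∈ Z.cod n)
    (x : T.N) (P : ℤ[X]) : aeval (actZ T Z.frobZ) P (T.times b x) =
      T.times b (P.eval ((Q : ℤ) ^ n) • x) := by
  have h0 : actZ T Z.frobZ (T.times b x) = ((Q : ℤ) ^ n) • T.times b x := by
    have h := hT.app_frob x hb
    change T.act Z.frobZ (T.times b x) = Q ^ n • T.times b x at h
    rw [actZ_apply, h, ← natCast_zsmul]
    push_cast
    rfl
  have h1 : ∀ l : ℕ, ((actZ T Z.frobZ) ^ l) (T.times b x) =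
      (((Q : ℤ) ^ n) ^ l) • T.times b x := by
    intro l
    induction l with
    | zero => simp
    | succ l ih => rw [pow_succ', Module.End.mul_apply, ih, map_smul, h0, smul_smul, pow_succ]
  rw [aeval_eq_sum_range, LinearMap.sum_apply, eval_eq_sum_range, Finset.sum_smul, map_sum]
  refine Finset.sum_congr rfl fun l _ => ?_
  rw [LinearMap.smul_apply, h1, map_zsmul, smul_smul]

/-- The cohomological action of the integral projector. -/
theorem act_toCorr_projZ {q s : ℕ} {I : Type} {f : I → ℤ[X]} (hA : IsAbelian A q s f)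
    (hZ : IsIntegralData Z) (h : Pool.Agent.Y156.L.IsDual A c D E)
    (hD : ∀ t, Z.toCH (D' t) = N₀ • D t) (hE : ∀ t, Z.toCH (E' t) = N₀ • E t) (v : A.H) :
    A.act (Z.toCorr (projZ D' E')) v = ((N₀ : Λ) ^ 2) • A.act (proj D E) v := by
  have hsm : ∀ x : A.CH, A.cl (N₀ • x) = (N₀ : Λ) • A.cl x := by
    intro x
    rw [map_nsmul, Nat.cast_smul_eq_nsmul]
  unfold projZ proj
  rw [map_sum, map_sum, LinearMap.sum_apply, map_sum, LinearMap.sum_apply, Finset.smul_sum]
  refine Finset.sum_congr rfl fun t _ => ?_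
  rw [hZ.corr, hD, hE, hA.act_corr (Nat.sub_add_cancel (h.le t))
    (Submodule.smul_of_tower_mem _ _ (h.right t)) (Submodule.smul_of_tower_mem _ _ (h.left t)),
    hA.act_corr (Nat.sub_add_cancel (h.le t)) (h.right t) (h.left t), hsm, hsm,
    smul_mul_assoc, map_smul, smul_eq_mul, smul_smul, smul_smul]
  congr 1
  ring

/-- **The core, with integral coefficients.** -/
theorem int_core {q s : ℕ} {I : Type} {f : I → ℤ[X]} (hA : IsAbelian A q s f)
    (hZ : IsIntegralData Z) (hG : IsIntGraded T) (hT : IsIntAction T Q)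
    (h : Pool.Agent.Y156.L.IsDual A c D E) (hN₀ : N₀ ≠ 0)
    (hcD : ∀ t, D' t ∈ Z.cod (c t)) (hcE : ∀ t, E' t ∈ Z.cod (A.dim - c t))
    (hD : ∀ t, Z.toCH (D' t) = N₀ • D t) (hE : ∀ t, Z.toCH (E' t) = N₀ • E t)
    (P : ℚ[X]) (R' : ℤ[X]) (hPR : IsCoprime P (R'.map (Int.castRingHom ℚ)))
    (hkill : ∀ w : A.H, A.act (proj D E) (aeval (A.frobH.toLinearMap : Module.End Λ A.H)
      (P.map (algebraMap ℚ Λ)) w) = aeval (A.frobH.toLinearMap : Module.End Λ A.H)
        (P.map (algebraMap ℚ Λ)) w)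
    (V : AddSubgroup T.M) (hV : ∀ m ∈ V, T.act Z.frobZ m ∈ V)
    (hR : ∀ m ∈ V, aeval (actZ T Z.frobZ) R' m = 0) :
    ∃ B b : ℤ, B ≠ 0 ∧ ∀ m ∈ V, B • m = b • ∑ t, T.times (D' t) (T.pair (E' t) m) := by
  classical
  obtain ⟨s', P', hs', hP'⟩ := exists_int P
  obtain ⟨a, b, N₄, hN₄, hab⟩ := bezout_int hs' hP' hPR
  set F : Module.End ℤ T.M := actZ T Z.frobZ with hF
  set p : Module.End ℤ T.M := actZ T (projZ D' E') with hp
  set Θ : Z.CorrZ := ((N₀ ^ 2 : ℕ) - projZ D' E') * aeval Z.frobZ P' with hΘ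
  -- `Θ` is homologically trivial
  have hΘ0 : A.act (Z.toCorr Θ) = 0 := by
    have h1 : Z.toCorr (aeval Z.frobZ P') = aeval A.frob P' := by
      rw [← hZ.frob]
      exact (aeval_algHom_apply Z.toCorr.toIntAlgHom Z.frobZ P').symm
    have h2 : A.act (aeval A.frob P') =
        aeval (A.frobH.toLinearMap : Module.End Λ A.H) P' := by
      have h3 : A.act A.frob = (A.frobH.toLinearMap : Module.End Λ A.H) :=
        LinearMap.ext fun a => hA.act_frob a
      rw [← h3]
      exact (aeval_algHom_apply A.act.toIntAlgHom A.frob P').symm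
    have h4 : aeval (A.frobH.toLinearMap : Module.End Λ A.H) P' =
        (s' : Λ) • aeval (A.frobH.toLinearMap : Module.End Λ A.H) (P.map (algebraMap ℚ Λ)) := by
      rw [← map_smul]
      have h5 : (s' : Λ) • P.map (algebraMap ℚ Λ) = P'.map (Int.castRingHom Λ) := by
        have h6 : P'.map (Int.castRingHom Λ) =
            (P'.map (Int.castRingHom ℚ)).map (algebraMap ℚ Λ) := by
          rw [Polynomial.map_map]
          congr 1
          exact Subsingleton.elim _ _
        rw [h6, hP', Polynomial.map_smul]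
        congr 1
        rw [eq_ratCast, Rat.cast_intCast]
      rw [h5, aeval_def, aeval_def, eval₂_map]
      congr 1
      exact Subsingleton.elim _ _
    ext w
    rw [hΘ, map_mul, map_mul, Module.End.mul_apply, h1, h2, h4, map_sub, map_natCast, map_sub,
      map_natCast, LinearMap.sub_apply, act_toCorr_projZ hA hZ h hD hE, LinearMap.smul_apply,
      map_smul (A.act (proj D E)), hkill, LinearMap.zero_apply, Module.End.natCast_apply,
      ← Nat.cast_smul_eq_nsmul Λ]
    push_cast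
    rw [sub_self]
  obtain ⟨n, hn⟩ := hA.nilpotent _ hΘ0
  obtain ⟨N₃, hN₃, hN₃'⟩ := hZ.torsion (Θ ^ n) (by rw [map_pow, hn])
  have hpm : ∀ m, p m = ∑ t, T.times (D' t) (T.pair (E' t) m) := by
    intro m
    rw [hp]
    exact act_projZ hT h.le hcD hcE m
  -- the operator `Θ`
  have hΘm : ∀ y : T.M, actZ T Θ y = (N₀ ^ 2) • aeval F P' y - p (aeval F P' y) := by
    intro y
    rw [hΘ, map_mul, map_sub, map_natCast, Module.End.mul_apply, LinearMap.sub_apply,
      Module.End.natCast_apply, ← aeval_actZ]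
  have hfix : ∀ z : J → T.N, p (∑ t, T.times (D' t) (z t)) =
      (N₀ ^ 2) • ∑ t, T.times (D' t) (z t) := by
    intro z
    rw [hpm, Finset.smul_sum]
    refine Finset.sum_congr rfl fun t _ => ?_
    rw [pair_sum_int hZ hG h hD hE, map_nsmul]
  have hΘp : ∀ y : T.M, actZ T Θ (p y) = 0 := by
    intro y
    have h4 : aeval F P' (p y) = ∑ t, T.times (D' t)
        (P'.eval ((Q : ℤ) ^ c t) • T.pair (E' t) y) := by
      rw [hpm, map_sum]
      refine Finset.sum_congr rfl fun t _ => ?_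
      exact aeval_frob_times_int hT (hcD t) _ P'
    rw [hΘm, h4, hfix, sub_self]
  have haV : ∀ (S : ℤ[X]) (y : T.M), y ∈ V → aeval F S y ∈ V := by
    intro S y hy
    have hpow : ∀ l : ℕ, (F ^ l) y ∈ V := by
      intro l
      induction l with
      | zero => simpa using hy
      | succ l ih =>
        rw [pow_succ', Module.End.mul_apply]
        exact hV _ ih
    rw [aeval_eq_sum_range, LinearMap.sum_apply]
    exact AddSubgroup.sum_mem _ fun l _ => AddSubgroup.zsmul_mem _ (hpow l) _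
  have hdiv : ∀ y ∈ V, aeval F P' (aeval F a y) = N₄ • y := by
    intro y hy
    have h5 := congrArg (fun S => aeval F S y) hab
    simp only [map_add, map_mul, LinearMap.add_apply, Module.End.mul_apply, aeval_C,
      Module.algebraMap_end_apply] at h5
    have h6 : aeval F R' (aeval F b y) = 0 := hR _ (haV b y hy)
    rw [h6, add_zero] at h5
    exact h5
  have hpow : ∀ (l : ℕ) (y : T.M), y ∈ V → ∃ y',
      ((N₄ * (N₀ : ℤ) ^ 2) ^ l) • ((N₀ ^ 2) • y - p y) = ((actZ T Θ) ^ l) y' := by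
    intro l
    induction l with
    | zero =>
      intro y _
      exact ⟨_, by rw [pow_zero, one_smul, pow_zero, Module.End.one_apply]⟩
    | succ l ih =>
      intro y hy
      obtain ⟨y', hy'⟩ := ih (aeval F a y) (haV a y hy)
      refine ⟨y', ?_⟩
      have h8 : actZ T Θ (((N₄ * (N₀ : ℤ) ^ 2) ^ l) •
          ((N₀ ^ 2) • aeval F a y - p (aeval F a y))) =
          ((N₄ * (N₀ : ℤ) ^ 2) ^ (l + 1)) • ((N₀ ^ 2) • y - p y) := by
        rw [map_zsmul, map_sub, map_nsmul, hΘp, sub_zero, hΘm, hdiv y hy, map_zsmul, pow_succ]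
        simp only [← natCast_zsmul]
        push_cast
        module
      rw [← h8, hy', pow_succ' (actZ T Θ) l, Module.End.mul_apply]
  refine ⟨N₃ * ((N₄ * (N₀ : ℤ) ^ 2) ^ n) * (N₀ : ℤ) ^ 2, N₃ * ((N₄ * (N₀ : ℤ) ^ 2) ^ n), ?_,
    fun m hm => ?_⟩
  · have h9 : (N₀ : ℤ) ≠ 0 := Int.natCast_ne_zero.2 hN₀
    exact mul_ne_zero (mul_ne_zero (Int.natCast_ne_zero.2 hN₃)
      (pow_ne_zero _ (mul_ne_zero hN₄ (pow_ne_zero _ h9)))) (pow_ne_zero _ h9)
  · obtain ⟨y', hy'⟩ := hpow n m hm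
    have h10 : (N₃ : ℤ) • ((actZ T Θ) ^ n) y' = 0 := by
      rw [← map_pow, natCast_zsmul, ← LinearMap.smul_apply, ← map_nsmul, hN₃', map_zero,
        LinearMap.zero_apply]
    rw [← hy'] at h10
    have h11 : (N₃ * ((N₄ * (N₀ : ℤ) ^ 2) ^ n)) • ((N₀ ^ 2) • m - p m) = 0 := by
      rw [mul_smul, h10]
    rw [smul_sub, sub_eq_zero] at h11
    rw [← hpm, ← h11, ← natCast_zsmul, mul_smul]
    push_cast
    rfl

end

section

variable {I : Type} {K : I → Type} [∀ i, Field (K i)] {q : ℕ} {f : I → ℤ[X]}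

theorem fgM_iff {Λ : Type} [Field Λ] {A : AbelianData Λ} {Z : IntegralData A} {T : IntTheory Z}
    {i j : ℤ} : FGM T i j ↔ Module.Finite ℤ (T.grM i j) := by
  rw [Module.Finite.iff_addGroup_fg, AddGroup.fg_iff_addSubgroup_fg]
  rfl

theorem fgN_iff {Λ : Type} [Field Λ] {A : AbelianData Λ} {Z : IntegralData A} {T : IntTheory Z}
    {i j : ℤ} : FGN T i j ↔ Module.Finite ℤ (T.grN i j) := by
  rw [Module.Finite.iff_addGroup_fg, AddGroup.fg_iff_addSubgroup_fg]
  rfl

/-- **Finite generation for products.** -/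
theorem fgEquiv (hq : 1 < q) (hR : NoRel f q (Unrelated K)) {Λ : Type} [Field Λ] [CharZero Λ]
    {A : AbelianData Λ} {s : ℕ} (hA : IsAbelian A q s f) {Z : IntegralData A} {T : IntTheory Z}
    (hT : IsIntTheory T (q ^ s)) (hK : IntUnrelated T K) : FGEquiv T := by
  classical
  obtain ⟨J, hJ, c, D, E, hF, hdual, hQ, hmain⟩ := exists_core3 hq hR hA
  obtain ⟨N₀, D', E', hN₀, hcD, hcE, hD, hE⟩ := exists_lifts hT.data hdual
  have hG := hT.graded
  have hAc := hT.action
  intro i j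
  rcases lt_or_ge j 0 with hj | hj
  · have h1 : FGM T i j := by
      unfold FGM
      rw [(hT.finite.neg hj).2]
      exact fg_bot'
    refine ⟨fun _ k _ => ?_, fun _ => h1⟩
    unfold FGN
    rw [(hT.finite.neg (i := i - 2 * k) (j := j - k) (by omega)).1]
    exact fg_bot'
  obtain ⟨n, rfl⟩ := Int.eq_ofNat_of_zero_le hj
  obtain ⟨χ, hχ, hroot, hkill⟩ := hK i n
  -- the polynomials
  obtain ⟨P, hP, hPk⟩ := hmain n (χ.map (Int.castRingHom ℚ)) (by
    rw [Ne, Polynomial.map_eq_zero_iff (RingHom.injective_int _)]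
    exact hχ) (fun ρ hρ => hroot ρ (by
      rw [aeval_def, eval₂_map] at hρ
      rw [aeval_def, ← hρ]
      rfl))
  have hμ : (((q ^ s : ℕ) : ℚ)) ^ (n : ℤ) = (((((q ^ s : ℕ) : ℤ) ^ n : ℤ)) : ℚ) := by
    push_cast
    rw [zpow_natCast]
  rw [hμ, ← map_revZ] at hP
  have hrel : ∀ m ∈ T.grM i n, aeval (actZ T Z.frobZ) (revZ χ (((q ^ s : ℕ) : ℤ) ^ n)) m = 0 := by
    intro m hm
    refine aeval_revZ_op (actZ T Z.frobZ) (frobL T) (T.grM i n) _ (fun m hm => hG.FM_mem hm)
      (fun m hm => ?_) χ (fun m hm => ?_) hm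
    · have h1 : T.act Z.frobZ (T.frobM m) = (q ^ s) ^ n • m := hAc.pure hm
      rw [actZ_apply, frobL_apply, h1, ← natCast_zsmul]
      push_cast
      rfl
    · rw [aeval_frobL]
      exact hkill m hm
  obtain ⟨B, b, hB, hBb⟩ := int_core hA hT.data hG hAc hdual hN₀ hcD hcE hD hE P _ hP hPk
    (T.grM i n) (fun m hm => hG.app_mem hm) hrel
  constructor
  · intro h k hk
    rw [fgM_iff] at h
    rw [fgN_iff]
    obtain ⟨t, rfl⟩ := hF.exists_eq k hk
    have hmem : ∀ x : T.grN (i - 2 * c t) (n - c t), T.times (D' t) (x : T.N) ∈ T.grM i n := by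
      intro x
      have h1 := hG.mul_mem (hcD t) x.2
      rw [show i - 2 * (c t : ℤ) + 2 * c t = i by ring, sub_add_cancel] at h1
      exact h1
    let φ : T.grN (i - 2 * c t) (n - c t) →+ T.grM i n :=
      ((T.times (D' t)).comp (AddSubgroup.subtype _)).codRestrict _ hmem
    refine fg_of_map φ ?_
    have hfin := (hT.finite.finiteN (i - 2 * c t) (n - c t) (N₀ ^ 2) (pow_ne_zero _ hN₀)).to_subtype
    refine Finite.of_injective (β := {x | x ∈ T.grN (i - 2 * c t) (n - c t) ∧ (N₀ ^ 2) • x = 0})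
      (fun x => ⟨((x : T.grN (i - 2 * c t) (n - c t)) : T.N), x.1.2, ?_⟩) ?_
    · have h1 : T.times (D' t) ((x : T.grN (i - 2 * c t) (n - c t)) : T.N) = 0 :=
        congrArg Subtype.val x.2
      have h2 := pair_times_int hT.data hG hdual hD hE t t
        ((x : T.grN (i - 2 * c t) (n - c t)) : T.N)
      rw [h1, map_zero, if_pos rfl] at h2
      exact h2.symm
    · intro x y hxy
      have hxy' := congrArg Subtype.val hxy
      exact Subtype.ext (Subtype.ext hxy')
  · intro h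
    rw [fgM_iff]
    have hfinN : ∀ t, Module.Finite ℤ (T.grN (i - 2 * c t) (n - c t)) :=
      fun t => fgN_iff.1 (h (c t) (hdual.le t))
    have hmem : ∀ (t : J) (x : T.grM i n),
        T.pair (E' t) (x : T.M) ∈ T.grN (i - 2 * c t) (n - c t) := by
      intro t x
      exact hG.push_mem (by have := hdual.le t; omega) (hcE t) x.2
    let φ : T.grM i n →+ ∀ t, T.grN (i - 2 * c t) (n - c t) :=
      { toFun := fun x t => ⟨T.pair (E' t) x, hmem t x⟩
        map_zero' := by
          funext t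
          apply Subtype.ext
          exact map_zero _
        map_add' := by
          intro x y
          funext t
          apply Subtype.ext
          exact map_add _ _ _ }
    refine fg_of_map φ ?_
    have hB' : B.natAbs ≠ 0 := Int.natAbs_ne_zero.2 hB
    have hfin := (hT.finite.finiteM i n B.natAbs hB').to_subtype
    refine Finite.of_injective (β := {x | x ∈ T.grM i n ∧ B.natAbs • x = 0})
      (fun x => ⟨((x : T.grM i n) : T.M), x.1.2, ?_⟩) ?_
    · have h1 : ∀ t, T.pair (E' t) ((x : T.grM i n) : T.M) = 0 := fun t =>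
        congrArg Subtype.val (congrFun (x.2 : φ (x : T.grM i n) = 0) t)
      have h2 := hBb _ (x : T.grM i n).2
      simp only [h1, map_zero, Finset.sum_const_zero, smul_zero] at h2
      rcases Int.natAbs_eq B with hB2 | hB2
      · rw [hB2, natCast_zsmul] at h2
        exact h2
      · rw [hB2, neg_smul, natCast_zsmul, neg_eq_zero] at h2
        exact h2
    · intro x y hxy
      have hxy' := congrArg Subtype.val hxy
      exact Subtype.ext (Subtype.ext hxy')

theorem lEquiv {Λ : Type} [Field Λ] {A : AbelianData Λ} {Z : IntegralData A} {T : IntTheory Z}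
    (hfin : IsIntFinite T) (h : FGEquiv T) : LEquiv T := by
  intro n
  constructor
  · intro h1 k hk hkn i
    have h2 := (h (i + 2 * k) n).1 (h1 _) k hk
    rwa [add_sub_cancel_right] at h2
  · intro h1 i
    refine (h i n).2 fun k hk => ?_
    rcases le_or_gt k n with hkn | hkn
    · exact h1 k hk hkn _
    · unfold FGN
      rw [(hfin.neg (i := i - 2 * k) (j := (n : ℤ) - k) (by omega)).1]
      exact fg_bot'

theorem flachMorinEquiv {Λ : Type} [Field Λ] {A : AbelianData Λ} {Z : IntegralData A}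
    {T : IntTheory Z} (h : FGEquiv T) : FlachMorinEquiv T := by
  intro d
  have h0 : ∀ n : ℤ, FlachMorinM T d n ↔ ∀ k : ℕ, k ≤ A.dim → FlachMorinN T d (n - k) := by
    intro n
    constructor
    · intro h1 k hk i hi
      have h2 := (h _ _).1 (h1 (i - 2 * k) (by omega)) (A.dim - k) (Nat.sub_le _ _)
      unfold CycleFGN
      rw [Nat.cast_sub hk] at h2
      rw [show 2 * (d : ℤ) + i = 2 * ((A.dim : ℤ) + d) + (i - 2 * k) -
        2 * ((A.dim : ℤ) - k) by ring,
        show (d : ℤ) - (n - k) = (A.dim : ℤ) + d - n - ((A.dim : ℤ) - k) by ring]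
      exact h2
    · intro h1 i hi
      refine (h _ _).2 fun k hk => ?_
      have h2 := h1 (A.dim - k) (Nat.sub_le _ _) (i + 2 * ((A.dim : ℤ) - k)) (by
        rw [Nat.cast_sub hk]
        omega)
      unfold CycleFGN at h2
      rw [Nat.cast_sub hk] at h2
      rw [show 2 * (d : ℤ) + (i + 2 * ((A.dim : ℤ) - k)) =
        2 * ((A.dim : ℤ) + d) + i - 2 * k by ring,
        show (d : ℤ) - (n - ((A.dim : ℤ) - k)) = (A.dim : ℤ) + d - n - k by ring] at h2
      exact h2
  refine ⟨h0, ?_⟩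
  constructor
  · intro h1 n hn
    have h2 := (h0 n).1 (h1 n hn) 0 (Nat.zero_le _)
    rwa [Nat.cast_zero, sub_zero] at h2
  · intro h1 n hn
    exact (h0 n).2 fun k _ => h1 _ (by omega)

theorem topWeightEquiv {Λ : Type} [Field Λ] {A : AbelianData Λ} {Z : IntegralData A}
    {T : IntTheory Z} (h : FGEquiv T) : TopWeightEquiv T := by
  intro d
  constructor
  · intro h1 k hk i hi
    have h2 := (h _ _).1 (h1 (i + 2 * ((A.dim : ℤ) - k)) (by omega)) (A.dim - k) (Nat.sub_le _ _)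
    rw [Nat.cast_sub hk] at h2
    rw [add_sub_cancel_right, show (A.dim : ℤ) + d - ((A.dim : ℤ) - k) = d + k by ring] at h2
    exact h2
  · intro h1 i hi
    refine (h _ _).2 fun k hk => ?_
    have h2 := h1 (A.dim - k) (Nat.sub_le _ _) (i - 2 * k) (by
      rw [Nat.cast_sub hk]
      omega)
    rw [Nat.cast_sub hk] at h2
    rw [show (d : ℤ) + ((A.dim : ℤ) - k) = (A.dim : ℤ) + d - k by ring] at h2
    exact h2

theorem topRangeEquiv {Λ : Type} [Field Λ] {A : AbelianData Λ} {Z : IntegralData A}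
    {T : IntTheory Z} (h : FGEquiv T) : TopRangeEquiv T := by
  intro d
  constructor
  · intro h1 k hk i hi hi'
    have h2 := (h _ _).1 (h1 (i + 2 * ((A.dim : ℤ) - k)) (by omega) (by omega)) (A.dim - k)
      (Nat.sub_le _ _)
    rw [Nat.cast_sub hk] at h2
    rw [add_sub_cancel_right, show (A.dim : ℤ) + d - ((A.dim : ℤ) - k) = d + k by ring] at h2
    exact h2
  · intro h1 i hi hi'
    refine (h _ _).2 fun k hk => ?_
    have h2 := h1 (A.dim - k) (Nat.sub_le _ _) (i - 2 * k) (by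
      rw [Nat.cast_sub hk]
      omega) (by
      rw [Nat.cast_sub hk]
      omega)
    rw [Nat.cast_sub hk] at h2
    rw [show (d : ℤ) + ((A.dim : ℤ) - k) = (A.dim : ℤ) + d - k by ring] at h2
    exact h2

theorem weilEtaleTimes (hq : 1 < q) (hR : NoRel f q (Unrelated K)) : WeilEtaleTimes K q f := by
  intro Λ _ _ A s hA Z T hT hK
  have h := fgEquiv hq hR hA hT hK
  exact ⟨h, lEquiv hT.finite h⟩

theorem flachMorinTimes (hq : 1 < q) (hR : NoRel f q (Unrelated K)) : FlachMorinTimes K q f := by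
  intro Λ _ _ A s hA Z T hT hK
  exact flachMorinEquiv (fgEquiv hq hR hA hT hK)

theorem topWeightTimes (hq : 1 < q) (hR : NoRel f q (Unrelated K)) : TopWeightTimes K q f := by
  intro Λ _ _ A s hA Z T hT hK
  exact topWeightEquiv (fgEquiv hq hR hA hT hK)

theorem topRangeTimes (hq : 1 < q) (hR : NoRel f q (Unrelated K)) : TopRangeTimes K q f := by
  intro Λ _ _ A s hA Z T hT hK
  exact topRangeEquiv (fgEquiv hq hR hA hT hK)

end

end Pool.Agent.V1168.BB
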