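import Mathlib
import Pool.Agent.V1168.BB.Defs

/-!
# The Tate conjecture over finitely generated fields for products with constant abelian varieties:
definitions
-/

set_option autoImplicit false

namespace Pool.Agent.V1168.BB

open Polynomial Module Pool.Agent.Y156.L Pool.Agent.Y1.CT

/-- Data of the cohomology of a smooth projective variety `Y` over a field `k` finitely generated over a
finite field, the function field of a variety `B`. -/
structure InvData where
  /-- the space of the invariants of the geometric fundamental group of (an open part of) `B` in the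
  `ℓ`-adic cohomology `H^b(Y)`, with complex coefficients -/
  G : ℤ → Type
  [group : ∀ b, AddCommGroup (G b)]
  [module : ∀ b, Module ℂ (G b)]
  [finite : ∀ b, FiniteDimensional ℂ (G b)]
  /-- the Frobenius endomorphism of the field of constants -/
  frob : ∀ b, G b →ₗ[ℂ] G b

attribute [instance] InvData.group InvData.module InvData.finite

/-- The dimension of the space of the `v` with `g v = x v`. -/
noncomputable def eigenDim {V : Type} [AddCommGroup V] [Module ℂ V] (g : Module.End ℂ V) (x : ℂ) :
    ℕ :=
  finrank ℂ (LinearMap.ker (g - x • (1 : Module.End ℂ V)))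

/-- The same for `g ⊗ h`. -/
noncomputable def eigenDimTensor {V W : Type} [AddCommGroup V] [Module ℂ V] [AddCommGroup W]
    [Module ℂ W] (g : Module.End ℂ V) (h : Module.End ℂ W) (x : ℂ) : ℕ :=
  eigenDim (V := TensorProduct ℂ V W) (TensorProduct.map g h) x

/-- The dimension of the space `H^(2 j)(Y)(j)^{π₁(B)}` of the invariants of the fundamental group of
`B`, that is of the elements of `G (2 j)` which the Frobenius endomorphism multiplies by `Q ^ j`. -/
noncomputable def InvData.dimN (Y : InvData) (Q : ℕ) (j : ℤ) : ℕ :=
  eigenDim (Y.frob (2 * j)) ((Q : ℂ) ^ j)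

/-- The dimension of the space `H^(2 j)(A × Y)(j)^{π₁(B)}`. Here `H^(2 j)(A × Y)` is the sum of the
spaces `H^a(A) ⊗ H^(2 j - a)(Y)`, `0 ≤ a ≤ 2 dim A`, the geometric fundamental group operates trivially
on `H^a(A)`, since `A` is constant, so that its invariants are the sum of the spaces
`H^a(A) ⊗ G (2 j - a)`. -/
noncomputable def InvData.dimM (Y : InvData) (Q : ℕ) {A : AbelianData ℂ} (φ : CohData A) (j : ℤ) :
    ℕ :=
  ∑ a ∈ Finset.range (2 * A.dim + 1),
    eigenDimTensor (φ.frob a) (Y.frob (2 * j - a)) ((Q : ℂ) ^ j)

section

variable {A : AbelianData ℂ} (T : RelData A)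

/-- **The equality of Tate** for `Y` in codimension `j`: the vector space `A^j(Y) = T^(2 j)(Y, j)` of
the classes of cycles is finite-dimensional, and its dimension is equal to the dimension of the space
of the invariants in `H^(2 j)(Y)(j)`. -/
def RankN (Y : InvData) (Q : ℕ) (j : ℤ) : Prop :=
  Module.Finite ℚ (T.grN (2 * j) j) ∧ finrank ℚ (T.grN (2 * j) j) = Y.dimN Q j

/-- **The equality of Tate** for `A × Y` in codimension `j`. -/
def RankM (Y : InvData) (φ : CohData A) (Q : ℕ) (j : ℤ) : Prop :=
  Module.Finite ℚ (T.grM (2 * j) j) ∧ finrank ℚ (T.grM (2 * j) j) = Y.dimM Q φ j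

/-- The components of the classes of cycles of codimension `j` on `A × Y` in the spaces
`H^a(A) ⊗ G (2 j - a)`. -/
structure ClassData (φ : CohData A) (Y : InvData) where
  /-- the component of degree `a` of the class of a cycle of codimension `j` -/
  cl : ∀ (j : ℤ) (a : ℕ), T.M → TensorProduct ℂ (φ.V a) (Y.G (2 * j - a))

/-- Classes of cycles are additive; cycles with the class zero are zero in the groups considered
(homological equivalence), and the Frobenius endomorphism of `Y` operates on the classes in the usual
way. -/
structure IsClass {φ : CohData A} {Y : InvData} (κ : ClassData T φ Y) : Prop where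
  add : ∀ (j : ℤ) (a : ℕ) (m m' : T.M), κ.cl j a (m + m') = κ.cl j a m + κ.cl j a m'
  injective : ∀ (j : ℤ) (m : T.M), T.DegM (2 * j) j m → (∀ a ≤ 2 * A.dim, κ.cl j a m = 0) → m = 0
  frob : ∀ (j : ℤ) (a : ℕ) (m : T.M), T.DegM (2 * j) j m →
    κ.cl j a (T.FM m) = TensorProduct.map LinearMap.id (Y.frob (2 * j - a)) (κ.cl j a m)

/-- The formal properties of the groups `T` of cycles modulo homological equivalence on `Y` and
`A × Y` and of their classes, where `Y` is a smooth projective variety over a field `k` finitely
generated over the field with `Q` elements: those in `IsRel` and `IsClass`; the absolute Frobenius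
endomorphism of `A × Y` acts on cycles of codimension `j` as `Q^j`; the groups in negative degrees are
zero. -/
structure IsInvTheory {φ : CohData A} {Y : InvData} (κ : ClassData T φ Y) (Q : ℕ) : Prop where
  chow : IsRel Q T
  pure : PureChow T Q
  classes : IsClass T κ
  neg_chow : ∀ i : ℤ, i < 0 → ∀ n, T.DegN (2 * i) i n → n = 0
  neg_cohomology : ∀ b : ℤ, b < 0 → Subsingleton (Y.G b)

/-- `Y` is unrelated to the fields `K i`: the Frobenius endomorphism of the field of constants
satisfies on the invariants of the geometric fundamental group in `H^b(Y)`, for all `b`, a nonzero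
polynomial with integral coefficients all of whose complex roots are unrelated to the
fields `K i`. -/
def InvUnrelated {I : Type} (K : I → Type) [∀ i, Field (K i)] (Y : InvData) : Prop :=
  ∀ b : ℤ, ∃ χ : ℤ[X], χ ≠ 0 ∧ (∀ ρ : ℂ, aeval ρ χ = 0 → Unrelated K ρ) ∧
    ∀ v : Y.G b, aeval (Y.frob b : Module.End ℂ (Y.G b)) χ v = 0

end

section

variable {I : Type} (K : I → Type) [∀ i, Field (K i)] (q : ℕ) (f : I → ℤ[X])

/-- `TateRankTimes K q f`: for every abelian variety `A` as in `IsAbelian` over the field with
`Q = q ^ s` elements there are finitely many products `D t` of `c t` divisor classes on `A`, such that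
for every smooth projective variety `Y` over every field `k` finitely generated over the field with
`Q` elements, with the properties `IsInvTheory` and `InvUnrelated`:

1. every class in `A^j(A × Y)` is in a unique way the sum of the products of the `D t` with classes
  in `A^(j - c t)(Y)`;
2. the dimension of the space of the invariants in `H^(2 j)(A × Y)(j)` is the sum over `t` of the
  dimensions of the spaces of the invariants in the `H^(2 (j - c t))(Y)(j - c t)`;
3. for all `n`, the equality of Tate holds for `A × Y` in all codimensions `j ≤ n` if and only if it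
  holds for `Y` in all codimensions `j ≤ n`. -/
def TateRankTimes : Prop :=
  ∀ (A : AbelianData ℂ) (s : ℕ), IsAbelian A q s f →
    ∃ (J : Type) (_ : Fintype J) (c : J → ℕ) (D : J → A.CH), IsFamily A c D ∧
      ∀ φ : CohData A, IsCoh φ → ∀ (T : RelData A) (Y : InvData) (κ : ClassData T φ Y),
        IsInvTheory T κ (q ^ s) → InvUnrelated K Y →
        (∀ (j : ℤ) (m : T.M), T.DegM (2 * j) j m → ∃! z : J → T.N,
          (∀ t, T.DegN (2 * (j - c t)) (j - c t) (z t)) ∧ m = ∑ t, T.mul (D t) (z t)) ∧
        (∀ j : ℤ, Y.dimM (q ^ s) φ j = ∑ t, Y.dimN (q ^ s) (j - c t)) ∧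
        ∀ n : ℤ, (∀ j ≤ n, RankM T Y φ (q ^ s) j) ↔ ∀ j ≤ n, RankN T Y (q ^ s) j

end

end Pool.Agent.V1168.BB
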