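import Mathlib
import Pool.Agent.V1168.BB.Count

/-!
# The order of the `L`-functions of products with constant abelian varieties
-/

set_option autoImplicit false
set_option linter.unusedSectionVars false
set_option linter.unusedVariables false

namespace Pool.Agent.V1168.BB

open Module Polynomial Pool.Agent.Y156.L Pool.Agent.W484.HS Pool.Agent.Y1.CT Pool.Agent.V1168.UN

/-- A logarithm to the base `Q`, which is `k` at `Q ^ k`. -/
theorem exists_log {Q : ℕ} (hQ : 1 < Q) : ∃ u : ℂ → ℂ, (∀ α, α ≠ 0 → (Q : ℂ) ^ u α = α) ∧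
    ∀ k : ℕ, u ((Q : ℂ) ^ k) = k := by
  classical
  have hinj : ∀ k l : ℕ, (Q : ℂ) ^ k = (Q : ℂ) ^ l → k = l := by
    intro k l h
    have h1 : ((Q ^ k : ℕ) : ℂ) = ((Q ^ l : ℕ) : ℂ) := by push_cast; exact h
    exact Nat.pow_right_injective hQ (Nat.cast_injective h1)
  have hQ0 : (Q : ℂ) ≠ 0 := by exact_mod_cast (by omega : Q ≠ 0)
  have hlog : Complex.log (Q : ℂ) ≠ 0 := by
    intro h
    have h1 := Complex.exp_log hQ0
    rw [h, Complex.exp_zero] at h1
    have h2 : ((1 : ℕ) : ℂ) = (Q : ℂ) := by push_cast; exact h1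
    have := Nat.cast_injective h2
    omega
  refine ⟨fun α => if h : ∃ k : ℕ, α = (Q : ℂ) ^ k then (h.choose : ℂ) else
    Complex.log α / Complex.log Q, fun α hα => ?_, fun k => ?_⟩
  · by_cases h : ∃ k : ℕ, α = (Q : ℂ) ^ k
    · simp only [dif_pos h]
      rw [Complex.cpow_natCast]
      exact h.choose_spec.symm
    · simp only [dif_neg h]
      rw [Complex.cpow_def_of_ne_zero hQ0, mul_div_cancel₀ _ hlog, Complex.exp_log hα]
  · have h : ∃ l : ℕ, (Q : ℂ) ^ k = (Q : ℂ) ^ l := ⟨k, rfl⟩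
    simp only [dif_pos h]
    rw [hinj _ _ h.choose_spec.symm]

section

variable {A : AbelianData ℂ} {I : Type} {f : I → ℤ[X]} {q s : ℕ}
  {K : I → Type} [∀ i, Field (K i)]

/-- **The order of the `L`-functions.** -/
theorem exists_continuation (hq : 1 < q) (hR : NoRel f q (Unrelated K)) (hA : IsAbelian A q s f)
    {J : Type} [Fintype J] {c : J → ℕ} {D E : J → A.CH}
    (hdual : Pool.Agent.Y156.L.IsDual A c D E)
    (hspan : ∀ (k : ℕ) (x : A.H), A.frobH x = ((q ^ s : ℕ) : ℂ) ^ k • x →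
        x ∈ Submodule.span ℂ {a | ∃ j, c j = k ∧ a = A.cl (D j)} ∧ x ∈ A.H1 ^ (2 * k))
    {φ : CohData A} (hφ : IsCoh φ)
    (L : LocalData) (Λ' : ℤ → ℂ → ℂ) (h1 : ∀ b, IsContinuation (L.factorN (q ^ s) b) (Λ' b))
    (h2 : ∀ b (z : ℂ), meromorphicOrderAt (Λ' b) z ≠ 0 → Unrelated K (((q ^ s : ℕ) : ℂ) ^ z))
    (n : ℤ) : ∃ Λ, IsContinuation (L.factorM (q ^ s) φ n) Λ ∧
      ∀ i : ℤ, meromorphicOrderAt Λ i =
        ∑ t, meromorphicOrderAt (Λ' (n - 2 * c t)) ((i - c t : ℤ) : ℂ) := by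
  classical
  have hs := hA.pos
  have hQ1 : 1 < q ^ s := Nat.one_lt_pow hs.ne' hq
  have hQ0 : ((q ^ s : ℕ) : ℂ) ≠ 0 := by exact_mod_cast (by omega : q ^ s ≠ 0)
  have hq0 : (q : ℂ) ≠ 0 := by exact_mod_cast (by omega : q ≠ 0)
  obtain ⟨u, hu1, hu2⟩ := exists_log hQ1
  choose r e α hα he using fun a => exists_basis_coh (s := s) (f := f) hA hφ a
  -- the eigenvalues are not zero
  have hα0 : ∀ a j, α a j ≠ 0 := fun a j => eigen_ne_zero_coh hQ0 hA hφ a (e a) (α a) (he a) j
  let Λ : ℂ → ℂ := fun z => ∏ a ∈ Finset.range (2 * A.dim + 1),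
    ∏ j : Fin (r a), Λ' (n - a) (z - u (α a j))
  have hΛ : IsContinuation (L.factorM (q ^ s) φ n) Λ := by
    have h3 : L.factorM (q ^ s) φ n = fun v z => ∏ a ∈ Finset.range (2 * A.dim + 1),
        ∏ j : Fin (r a), L.factorN (q ^ s) (n - a) v (z - u (α a j)) := by
      funext v z
      unfold LocalData.factorM
      refine Finset.prod_congr rfl fun a _ => ?_
      rw [invDet_tensor (e a) (α a) (φ.frob a) (he a)]
      refine Finset.prod_congr rfl fun j _ => ?_
      unfold LocalData.factorN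
      congr 1
      rw [← mul_pow]
      congr 1
      rw [show -(z - u (α a j)) = -z + u (α a j) by ring, Complex.cpow_add _ _ hQ0,
        hu1 _ (hα0 a j)]
    rw [h3]
    exact isContinuation_prod _ (fun a v z => ∏ j : Fin (r a),
      L.factorN (q ^ s) (n - a) v (z - u (α a j)))
      (fun a z => ∏ j : Fin (r a), Λ' (n - a) (z - u (α a j))) fun a _ =>
      isContinuation_prod _ (fun j v z => L.factorN (q ^ s) (n - a) v (z - u (α a j)))
        (fun j z => Λ' (n - a) (z - u (α a j))) fun j _ => isContinuation_sub (h1 (n - a)) _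
  refine ⟨Λ, hΛ, fun i => ?_⟩
  -- the terms
  let g : ℕ → ℂ → WithTop ℤ := fun a x => meromorphicOrderAt (Λ' (n - a)) ((i : ℂ) - u x)
  have hmer : ∀ (b : ℤ) (x z : ℂ), MeromorphicAt (fun z => Λ' b (z - x)) z := by
    intro b x z
    rw [meromorphicAt_fun_comp_sub_const_iff_meromorphicAt]
    exact (h1 b).1 _
  have h3 : meromorphicOrderAt Λ i =
      ∑ a ∈ Finset.range (2 * A.dim + 1), ∑ j : Fin (r a), g a (α a j) := by
    have h4 := meromorphicOrderAt_fun_prod (x := (i : ℂ)) (s := Finset.range (2 * A.dim + 1))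
      (f := fun a z => ∏ j : Fin (r a), Λ' (n - a) (z - u (α a j)))
      (fun a _ => MeromorphicAt.fun_prod fun j _ => hmer _ _ _)
    refine h4.trans (Finset.sum_congr rfl fun a _ => ?_)
    have h5 := meromorphicOrderAt_fun_prod (x := (i : ℂ)) (s := Finset.univ)
      (f := fun (j : Fin (r a)) z => Λ' (n - a) (z - u (α a j))) (fun j _ => hmer _ _ _)
    refine h5.trans (Finset.sum_congr rfl fun j _ => ?_)
    exact meromorphicOrderAt_fun_comp_sub_const_eq_meromorphicOrderAt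
  -- the vanishing
  have hg : ∀ a j, g a (α a j) ≠ 0 → ∃ k : ℕ, a = 2 * k ∧ α a j = ((q ^ s : ℕ) : ℂ) ^ k := by
    intro a j h
    have h4 := h2 _ _ h
    obtain ⟨M, hM1, hM2⟩ := hα a j
    have h5 : (M.map fun z : Rt f => (z : ℂ) ^ s).prod * ((q ^ s : ℕ) : ℂ) ^ ((i : ℂ) - u (α a j)) =
        ((q : ℂ) ^ s) ^ i := by
      rw [← hM2, Complex.cpow_sub _ _ hQ0, hu1 _ (hα0 a j), mul_div_cancel₀ _ (hα0 a j),
        Complex.cpow_intCast]
      push_cast
      rfl
    obtain ⟨k, h6, h7⟩ := list_unrel hq hR hs h4 M i h5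
    refine ⟨k, by omega, ?_⟩
    rw [hM2, h7]
    push_cast
    rfl
  have hpowinj : ∀ k l : ℕ, ((q ^ s : ℕ) : ℂ) ^ k = ((q ^ s : ℕ) : ℂ) ^ l → k = l := by
    intro k l h
    have h1 : (((q ^ s) ^ k : ℕ) : ℂ) = (((q ^ s) ^ l : ℕ) : ℂ) := by push_cast at h ⊢; exact h
    exact Nat.pow_right_injective hQ1 (Nat.cast_injective h1)
  -- the even terms
  have h4 : ∀ k : ℕ, ∑ j : Fin (r (2 * k)), g (2 * k) (α (2 * k) j) =
      Nat.card {t // c t = k} • meromorphicOrderAt (Λ' (n - 2 * k)) ((i - k : ℤ) : ℂ) := by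
    intro k
    rw [← card_eigen_coh hA hdual hspan hφ k (e (2 * k)) (α (2 * k)) (he (2 * k)),
      Nat.card_eq_fintype_card, Fintype.card_subtype, ← Finset.sum_const]
    rw [Finset.sum_filter]
    refine Finset.sum_congr rfl fun j _ => ?_
    by_cases h : α (2 * k) j = ((q ^ s : ℕ) : ℂ) ^ k
    · rw [if_pos h, h]
      change meromorphicOrderAt (Λ' (n - (2 * k : ℕ))) ((i : ℂ) - u (((q ^ s : ℕ) : ℂ) ^ k)) = _
      rw [hu2]
      push_cast
      rfl
    · rw [if_neg h]
      by_contra hcon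
      obtain ⟨l, h5, h6⟩ := hg _ _ hcon
      have h7 : l = k := by omega
      rw [h7] at h6
      exact h h6
  have h5 : ∀ a, (¬ ∃ k, a = 2 * k) → ∑ j : Fin (r a), g a (α a j) = 0 := by
    intro a ha
    refine Finset.sum_eq_zero fun j _ => ?_
    by_contra hcon
    obtain ⟨k, h6, -⟩ := hg _ _ hcon
    exact ha ⟨k, h6⟩
  have h6 : ∑ a ∈ Finset.range (2 * A.dim + 1), ∑ j : Fin (r a), g a (α a j) =
      ∑ k ∈ Finset.range (A.dim + 1), ∑ j : Fin (r (2 * k)), g (2 * k) (α (2 * k) j) := by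
    have hinj : Set.InjOn (fun k : ℕ => 2 * k) (Finset.range (A.dim + 1)) := by
      intro x _ y _ h
      have h' : 2 * x = 2 * y := h
      omega
    rw [← Finset.sum_image (s := Finset.range (A.dim + 1)) (g := fun k => 2 * k)
      (f := fun a => ∑ j : Fin (r a), g a (α a j)) hinj]
    symm
    refine Finset.sum_subset ?_ ?_
    · intro a ha
      obtain ⟨k, hk, rfl⟩ := Finset.mem_image.1 ha
      rw [Finset.mem_range] at hk ⊢
      omega
    · intro a ha hna
      refine h5 a fun ⟨k, hk⟩ => hna ?_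
      rw [Finset.mem_image]
      refine ⟨k, ?_, hk.symm⟩
      rw [Finset.mem_range] at ha ⊢
      omega
  rw [h3, h6]
  simp only [h4]
  rw [← Finset.sum_fiberwise_of_maps_to (s := Finset.univ) (t := Finset.range (A.dim + 1))
    (g := c) (fun t _ => by
      rw [Finset.mem_range]
      have := hdual.le t
      omega)]
  refine Finset.sum_congr rfl fun k _ => ?_
  rw [Nat.card_eq_fintype_card, Fintype.card_subtype, ← Finset.sum_const]
  refine Finset.sum_congr rfl fun t ht => ?_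
  rw [(Finset.mem_filter.1 ht).2]

end

end Pool.Agent.V1168.BB
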