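import Mathlib
import Pool.Agent.V1168.BB.Ord

/-!
# The order of the `L`-functions of products with constant abelian varieties, at one point
-/

set_option autoImplicit false
set_option linter.unusedSectionVars false
set_option linter.unusedVariables false

namespace Pool.Agent.V1168.BB

open Module Polynomial Pool.Agent.Y156.L Pool.Agent.W484.HS Pool.Agent.Y1.CT Pool.Agent.V1168.UN

/-- The absolute value of a power of `Q`. -/
theorem norm_sq_cpow {Q : ℕ} (hQ : 1 < Q) (u : ℂ) (a : ℕ) (h : ‖(Q : ℂ) ^ u‖ ^ 2 = (Q : ℝ) ^ a) :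
    2 * u.re = a := by
  have hQ0 : (0 : ℝ) < Q := by exact_mod_cast (by omega : 0 < Q)
  have h1 : ‖(Q : ℂ) ^ u‖ = (Q : ℝ) ^ u.re := by
    have h2 := Complex.norm_cpow_eq_rpow_re_of_pos hQ0 u
    rw [← h2]
    norm_num
  rw [h1, ← Real.rpow_natCast, ← Real.rpow_mul hQ0.le, ← Real.rpow_natCast] at h
  have h3 := (Real.rpow_right_inj hQ0 (by
    have : (1 : ℝ) < Q := by exact_mod_cast hQ
    exact this.ne')).1 h
  push_cast at h3
  linarith

section

variable {A : AbelianData ℂ} {I : Type} {f : I → ℤ[X]} {q s : ℕ}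
  {K : I → Type} [∀ i, Field (K i)]

/-- **The order of the `L`-functions.** -/
theorem exists_continuation_at (hq : 1 < q)
    (hw : ∀ i (z : ℂ), aeval z (f i) = 0 → ‖z‖ ^ 2 = (q : ℝ))
    (hR : NoRel f q (Unrelated K)) (hA : IsAbelian A q s f)
    {J : Type} [Fintype J] {c : J → ℕ} {D E : J → A.CH}
    (hdual : Pool.Agent.Y156.L.IsDual A c D E)
    (hspan : ∀ (k : ℕ) (x : A.H), A.frobH x = ((q ^ s : ℕ) : ℂ) ^ k • x →
        x ∈ Submodule.span ℂ {a | ∃ j, c j = k ∧ a = A.cl (D j)} ∧ x ∈ A.H1 ^ (2 * k))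
    {φ : CohData A} (hφ : IsCoh φ)
    (L : LocalData) (Λ' : ℤ → ℂ → ℂ) (h1 : ∀ b, IsContinuation (L.factorN (q ^ s) b) (Λ' b))
    (n : ℤ) : ∃ Λ, IsContinuation (L.factorM (q ^ s) φ n) Λ ∧
      ∀ i : ℤ, (∀ (b : ℤ) (z : ℂ), 2 * z.re = 2 * i - n + b → meromorphicOrderAt (Λ' b) z ≠ 0 →
        Unrelated K (((q ^ s : ℕ) : ℂ) ^ z)) → meromorphicOrderAt Λ i =
        ∑ t, meromorphicOrderAt (Λ' (n - 2 * c t)) ((i - c t : ℤ) : ℂ) := by
  classical
  have hs := hA.pos
  have hQ1 : 1 < q ^ s := Nat.one_lt_pow hs.ne' hq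
  have hQ0 : ((q ^ s : ℕ) : ℂ) ≠ 0 := by exact_mod_cast (by omega : q ^ s ≠ 0)
  have hq0 : (q : ℂ) ≠ 0 := by exact_mod_cast (by omega : q ≠ 0)
  obtain ⟨u, hu1, hu2⟩ := exists_log hQ1
  choose r e α hα he using fun a => exists_basis_coh (s := s) (f := f) hA hφ a
  -- the eigenvalues are not zero
  have hα0 : ∀ a j, α a j ≠ 0 := fun a j => eigen_ne_zero_coh hQ0 hA hφ a (e a) (α a) (he a) j
  -- the real parts of the logarithms
  have hure : ∀ a j, 2 * (u (α a j)).re = (a : ℝ) := by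
    intro a j
    refine norm_sq_cpow hQ1 _ a ?_
    rw [hu1 _ (hα0 a j)]
    obtain ⟨M, hM1, hM2⟩ := hα a j
    rw [hM2]
    have h3 : ∀ M : List (Rt f), ‖(M.map fun z : Rt f => (z : ℂ) ^ s).prod‖ ^ 2 =
        ((q ^ s : ℕ) : ℝ) ^ M.length := by
      intro M
      induction M with
      | nil => simp
      | cons z M ih =>
        obtain ⟨i, hi⟩ := z.2
        have h7 : (‖(z : ℂ)‖ ^ s) ^ 2 = ((q ^ s : ℕ) : ℝ) := by
          rw [← pow_mul, mul_comm s 2, pow_mul, hw i _ hi]
          push_cast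
          rfl
        rw [List.map_cons, List.prod_cons, norm_mul, mul_pow, ih, List.length_cons, norm_pow, h7]
        ring
    rw [h3, hM1]
  let Λ : ℂ → ℂ := fun z => ∏ a ∈ Finset.range (2 * A.dim + 1),
    ∏ j : Fin (r a), Λ' (n - a) (z - u (α a j))
  have hΛ : IsContinuation (L.factorM (q ^ s) φ n) Λ := by
    have h3 : L.factorM (q ^ s) φ n = fun v z => ∏ a ∈ Finset.range (2 * A.dim + 1),
        ∏ j : Fin (r a), L.factorN (q ^ s) (n - a) v (z - u (α a j)) := by
      funext v z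
      unfold LocalData.factorM
      refine Finset.prod_congr rfl fun a _ => ?_
      rw [invDet_tensor (e a) (α a) (φ.frob a) (he a)]
      refine Finset.prod_congr rfl fun j _ => ?_
      unfold LocalData.factorN
      congr 1
      rw [← mul_pow]
      congr 1
      rw [show -(z - u (α a j)) = -z + u (α a j) by ring, Complex.cpow_add _ _ hQ0,
        hu1 _ (hα0 a j)]
    rw [h3]
    exact isContinuation_prod _ (fun a v z => ∏ j : Fin (r a),
      L.factorN (q ^ s) (n - a) v (z - u (α a j)))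
      (fun a z => ∏ j : Fin (r a), Λ' (n - a) (z - u (α a j))) fun a _ =>
      isContinuation_prod _ (fun j v z => L.factorN (q ^ s) (n - a) v (z - u (α a j)))
        (fun j z => Λ' (n - a) (z - u (α a j))) fun j _ => isContinuation_sub (h1 (n - a)) _
  refine ⟨Λ, hΛ, fun i h2 => ?_⟩
  -- the terms
  let g : ℕ → ℂ → WithTop ℤ := fun a x => meromorphicOrderAt (Λ' (n - a)) ((i : ℂ) - u x)
  have hmer : ∀ (b : ℤ) (x z : ℂ), MeromorphicAt (fun z => Λ' b (z - x)) z := by
    intro b x z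
    rw [meromorphicAt_fun_comp_sub_const_iff_meromorphicAt]
    exact (h1 b).1 _
  have h3 : meromorphicOrderAt Λ i =
      ∑ a ∈ Finset.range (2 * A.dim + 1), ∑ j : Fin (r a), g a (α a j) := by
    have h4 := meromorphicOrderAt_fun_prod (x := (i : ℂ)) (s := Finset.range (2 * A.dim + 1))
      (f := fun a z => ∏ j : Fin (r a), Λ' (n - a) (z - u (α a j)))
      (fun a _ => MeromorphicAt.fun_prod fun j _ => hmer _ _ _)
    refine h4.trans (Finset.sum_congr rfl fun a _ => ?_)
    have h5 := meromorphicOrderAt_fun_prod (x := (i : ℂ)) (s := Finset.univ)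
      (f := fun (j : Fin (r a)) z => Λ' (n - a) (z - u (α a j))) (fun j _ => hmer _ _ _)
    refine h5.trans (Finset.sum_congr rfl fun j _ => ?_)
    exact meromorphicOrderAt_fun_comp_sub_const_eq_meromorphicOrderAt
  -- the vanishing
  have hg : ∀ a j, g a (α a j) ≠ 0 → ∃ k : ℕ, a = 2 * k ∧ α a j = ((q ^ s : ℕ) : ℂ) ^ k := by
    intro a j h
    have h4 := h2 _ _ (by
      rw [Complex.sub_re, Complex.intCast_re]
      have := hure a j
      push_cast
      linarith) h
    obtain ⟨M, hM1, hM2⟩ := hα a j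
    have h5 : (M.map fun z : Rt f => (z : ℂ) ^ s).prod * ((q ^ s : ℕ) : ℂ) ^ ((i : ℂ) - u (α a j)) =
        ((q : ℂ) ^ s) ^ i := by
      rw [← hM2, Complex.cpow_sub _ _ hQ0, hu1 _ (hα0 a j), mul_div_cancel₀ _ (hα0 a j),
        Complex.cpow_intCast]
      push_cast
      rfl
    obtain ⟨k, h6, h7⟩ := list_unrel hq hR hs h4 M i h5
    refine ⟨k, by omega, ?_⟩
    rw [hM2, h7]
    push_cast
    rfl
  -- the even terms
  have h4 : ∀ k : ℕ, ∑ j : Fin (r (2 * k)), g (2 * k) (α (2 * k) j) =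
      Nat.card {t // c t = k} • meromorphicOrderAt (Λ' (n - 2 * k)) ((i - k : ℤ) : ℂ) := by
    intro k
    rw [← card_eigen_coh hA hdual hspan hφ k (e (2 * k)) (α (2 * k)) (he (2 * k)),
      Nat.card_eq_fintype_card, Fintype.card_subtype, ← Finset.sum_const]
    rw [Finset.sum_filter]
    refine Finset.sum_congr rfl fun j _ => ?_
    by_cases h : α (2 * k) j = ((q ^ s : ℕ) : ℂ) ^ k
    · rw [if_pos h, h]
      change meromorphicOrderAt (Λ' (n - (2 * k : ℕ))) ((i : ℂ) - u (((q ^ s : ℕ) : ℂ) ^ k)) = _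
      rw [hu2]
      push_cast
      rfl
    · rw [if_neg h]
      by_contra hcon
      obtain ⟨l, h5, h6⟩ := hg _ _ hcon
      have h7 : l = k := by omega
      rw [h7] at h6
      exact h h6
  have h5 : ∀ a, (¬ ∃ k, a = 2 * k) → ∑ j : Fin (r a), g a (α a j) = 0 := by
    intro a ha
    refine Finset.sum_eq_zero fun j _ => ?_
    by_contra hcon
    obtain ⟨k, h6, -⟩ := hg _ _ hcon
    exact ha ⟨k, h6⟩
  have h6 : ∑ a ∈ Finset.range (2 * A.dim + 1), ∑ j : Fin (r a), g a (α a j) =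
      ∑ k ∈ Finset.range (A.dim + 1), ∑ j : Fin (r (2 * k)), g (2 * k) (α (2 * k) j) := by
    have hinj : Set.InjOn (fun k : ℕ => 2 * k) (Finset.range (A.dim + 1)) := by
      intro x _ y _ h
      have h' : 2 * x = 2 * y := h
      omega
    rw [← Finset.sum_image (s := Finset.range (A.dim + 1)) (g := fun k => 2 * k)
      (f := fun a => ∑ j : Fin (r a), g a (α a j)) hinj]
    symm
    refine Finset.sum_subset ?_ ?_
    · intro a ha
      obtain ⟨k, hk, rfl⟩ := Finset.mem_image.1 ha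
      rw [Finset.mem_range] at hk ⊢
      omega
    · intro a ha hna
      refine h5 a fun ⟨k, hk⟩ => hna ?_
      rw [Finset.mem_image]
      refine ⟨k, ?_, hk.symm⟩
      rw [Finset.mem_range] at ha ⊢
      omega
  rw [h3, h6]
  simp only [h4]
  rw [← Finset.sum_fiberwise_of_maps_to (s := Finset.univ) (t := Finset.range (A.dim + 1))
    (g := c) (fun t _ => by
      rw [Finset.mem_range]
      have := hdual.le t
      omega)]
  refine Finset.sum_congr rfl fun k _ => ?_
  rw [Nat.card_eq_fintype_card, Fintype.card_subtype, ← Finset.sum_const]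
  refine Finset.sum_congr rfl fun t ht => ?_
  rw [(Finset.mem_filter.1 ht).2]

end

end Pool.Agent.V1168.BB
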