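import Mathlib
import Pool.Agent.V1168.BB.Ord

/-!
# The formula of Beilinson and Bloch for products with constant abelian varieties
-/

set_option autoImplicit false
set_option linter.unusedSectionVars false
set_option linter.unusedVariables false

namespace Pool.Agent.V1168.BB

open Module Polynomial Pool.Agent.Y156.L Pool.Agent.W484.HS Pool.Agent.Y1.CT Pool.Agent.V1168.UN

section chow

variable {A : AbelianData ℂ} {J : Type} [Fintype J] {c : J → ℕ} {D E : J → A.CH} {Q : ℕ}
  {T R : RelData A} {ρ : Regulator T R}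

theorem mem_homTrivN {i : ℤ} {n : T.N} : n ∈ homTrivN ρ i ↔ T.DegN (2 * i) i n ∧ ρ.cN n = 0 :=
  Iff.rfl

theorem mem_homTrivM {i : ℤ} {m : T.M} : m ∈ homTrivM ρ i ↔ T.DegM (2 * i) i m ∧ ρ.cM m = 0 :=
  Iff.rfl

theorem pair_mem_homTriv (hT : IsRel Q T) (h : Pool.Agent.Y156.L.IsDual A c D E)
    (hρ : IsRegulator ρ) {i : ℤ} {m : T.M} (hm : m ∈ homTrivM ρ i) (t : J) :
    T.pair (E t) m ∈ homTrivN ρ (i - c t) := by
  rw [mem_homTrivN]
  refine ⟨?_, ?_⟩
  · have h1 := hT.pair_mem (c := c t) (by have := h.le t; omega) (h.right t) hm.1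
    rw [show 2 * (i - (c t : ℤ)) = 2 * i - 2 * c t by ring]
    exact h1
  · have h1 : ρ.cN (T.pair (E t) m) = R.pair (E t) (ρ.cM m) := hρ.push (E t) m
    rw [h1, (mem_homTrivM.1 hm).2, map_zero]

theorem times_mem_homTriv (hT : IsRel Q T) (h : Pool.Agent.Y156.L.IsDual A c D E)
    (hρ : IsRegulator ρ) {i : ℤ} (t : J) {n : T.N} (hn : n ∈ homTrivN ρ (i - c t)) :
    T.times (D t) n ∈ homTrivM ρ i := by
  rw [mem_homTrivM]
  refine ⟨?_, ?_⟩
  · have h1 := hT.times_mem (h.left t) (mem_homTrivN.1 hn).1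
    rw [show 2 * (i - (c t : ℤ)) + 2 * c t = 2 * i by ring, sub_add_cancel] at h1
    exact h1
  · have h1 : ρ.cM (T.times (D t) n) = R.times (D t) (ρ.cN n) := hρ.mul (D t) n
    rw [h1, (mem_homTrivN.1 hn).2, map_zero]

/-- The Kunneth isomorphism. -/
theorem exists_equiv (hT : IsRel Q T) (h : Pool.Agent.Y156.L.IsDual A c D E) (hρ : IsRegulator ρ)
    (hexp : ∀ (i : ℤ) (m : T.M), T.DegM (2 * i) i m → m = ∑ t, T.times (D t) (T.pair (E t) m))
    (i : ℤ) : Nonempty ((∀ t, homTrivN ρ (i - c t)) ≃ₗ[ℚ] homTrivM ρ i) := by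
  classical
  let F : (∀ t, homTrivN ρ (i - c t)) →ₗ[ℚ] homTrivM ρ i :=
    { toFun := fun z => ⟨∑ t, T.times (D t) (z t : T.N),
        Submodule.sum_mem _ fun t _ => times_mem_homTriv hT h hρ t (z t).2⟩
      map_add' := by
        intro x y
        apply Subtype.ext
        change ∑ t, T.times (D t) ((x t : T.N) + (y t : T.N)) =
          ∑ t, T.times (D t) (x t : T.N) + ∑ t, T.times (D t) (y t : T.N)
        simp only [map_add, Finset.sum_add_distrib]
      map_smul' := by
        intro a x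
        apply Subtype.ext
        change ∑ t, T.times (D t) (a • (x t : T.N)) = a • ∑ t, T.times (D t) (x t : T.N)
        simp only [map_smul, Finset.smul_sum] }
  refine ⟨LinearEquiv.ofBijective F ⟨?_, ?_⟩⟩
  · intro x y hxy
    have h1 : ∑ t, T.times (D t) (x t : T.N) = ∑ t, T.times (D t) (y t : T.N) :=
      congrArg Subtype.val hxy
    funext t
    apply Subtype.ext
    have h2 := congrArg (T.pair (E t)) h1
    rw [pair_sum hT h t (fun t => (x t : T.N)), pair_sum hT h t (fun t => (y t : T.N))] at h2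
    exact h2
  · rintro ⟨m, hm⟩
    refine ⟨fun t => ⟨T.pair (E t) m, pair_mem_homTriv hT h hρ hm t⟩, ?_⟩
    apply Subtype.ext
    exact (hexp i m hm.1).symm

end chow

section

variable {I : Type} {K : I → Type} [∀ i, Field (K i)] {q : ℕ} (hq : 1 < q) {f : I → ℤ[X]}
  (hR : NoRel f q (Unrelated K))

/-- The expansion of the classes in the Chow groups. -/
theorem expands_chow {A : AbelianData ℂ} {s : ℕ} {J : Type} [Fintype J] {D E : J → A.CH}
    (hmain : ∀ T : RelData A, IsRel (q ^ s) T → ∀ (j : ℤ) (χ : ℚ[X]), χ ≠ 0 →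
        (∀ ρ : ℂ, aeval ρ χ = 0 → Unrelated K ρ) → ∀ (V : Submodule ℚ T.M) (N : ℕ),
        (∀ m ∈ V, T.act A.frob m ∈ V) →
        (∀ m ∈ V, aeval (T.act A.frob) ((rev χ (((q ^ s : ℕ) : ℚ) ^ j)) ^ N) m = 0) →
        ∀ m ∈ V, m = ∑ t, T.times (D t) (T.pair (E t) m))
    {T : RelData A} (hT : IsRel (q ^ s) T) (hpure : IsPureDiag T (q ^ s)) (hK : DiagUnrelated K T)
    (i : ℤ) (m : T.M) (hm : T.DegM (2 * i) i m) : m = ∑ t, T.times (D t) (T.pair (E t) m) := by
  have hT' := isRel_diag hT
  have hK' := unrelated_diag hK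
  have hm' : (diag T).InvM (q ^ s) (2 * i) i m :=
    isPure_diag hpure (2 * i) i m ((degM_diag (T := T) i m).2 hm)
  obtain ⟨χ, hχ, hrank, hkill⟩ := hK' (2 * i) i
  have hkill' : ∀ m ∈ invSub (diag T) (q ^ s) (2 * i) i, aeval (diag T).frobM χ m = 0 :=
    fun m hm => hkill m hm.1
  have hV1 : ∀ m ∈ invSub (diag T) (q ^ s) (2 * i) i,
      (diag T).frobM m ∈ invSub (diag T) (q ^ s) (2 * i) i := fun m hm => inv_frob hT' hm
  have hV2 : ∀ m ∈ invSub (diag T) (q ^ s) (2 * i) i, (diag T).act A.frob ((diag T).frobM m) =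
      ((q ^ s : ℕ) : ℚ) ^ i • m := fun m hm => hm.2
  have hV : ∀ m ∈ invSub (diag T) (q ^ s) (2 * i) i,
      (diag T).act A.frob m ∈ invSub (diag T) (q ^ s) (2 * i) i := fun m hm =>
    stable_of _ (diag T).frobM _ _ hV1 hV2 χ
      (coeff_zero_ne' (not_unrelated_zero K) hrank) hkill' hm
  exact hmain (diag T) hT' i χ hχ hrank (invSub (diag T) (q ^ s) (2 * i) i) 1 hV (fun m hm => by
    rw [pow_one]
    exact aeval_rev_op _ (diag T).frobM _ _ hV1 hV2 χ hkill' hm) m hm'

end

/-- The combinatorial part: a triangular system. -/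
theorem triangular {J : Type} [Fintype J] (c : J → ℕ) (h0 : ∃ t, c t = 0) (F : ℤ → Prop)
    (o : ℤ → WithTop ℤ) (d : ℤ → ℕ) (hneg : ∀ i < 0, F i ∧ o i = ((d i : ℤ) : WithTop ℤ)) (n : ℤ) :
    (∀ i ≤ n, (∀ t, F (i - c t)) ∧
      ∑ t, o (i - c t) = ((∑ t, (d (i - c t) : ℤ) : ℤ) : WithTop ℤ)) ↔
    ∀ i ≤ n, F i ∧ o i = ((d i : ℤ) : WithTop ℤ) := by
  classical
  obtain ⟨t₀, ht₀⟩ := h0
  constructor
  · intro h
    have key : ∀ m : ℕ, ∀ i : ℤ, i < m → i ≤ n → F i ∧ o i = ((d i : ℤ) : WithTop ℤ) := by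
      intro m
      induction m with
      | zero =>
        intro i hi _
        exact hneg i (by exact_mod_cast hi)
      | succ m ih =>
        intro i hi hin
        rcases lt_or_ge i (m : ℤ) with hlt | hge
        · exact ih i hlt hin
        obtain ⟨h1, h2⟩ := h i hin
        have hF : F i := by
          have := h1 t₀
          rwa [ht₀, Nat.cast_zero, sub_zero] at this
        refine ⟨hF, ?_⟩
        have hlow : ∀ t, c t ≠ 0 → o (i - c t) = ((d (i - c t) : ℤ) : WithTop ℤ) := by
          intro t ht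
          exact (ih (i - c t) (by omega) (by omega)).2
        -- the order is finite
        obtain ⟨z, hz⟩ : ∃ z : ℤ, o i = (z : WithTop ℤ) := by
          rcases h3 : o i with _ | z
          · exfalso
            have h4 : ∑ t, o (i - c t) = ⊤ := by
              rw [WithTop.sum_eq_top]
              refine ⟨t₀, Finset.mem_univ _, ?_⟩
              rw [ht₀, Nat.cast_zero, sub_zero, h3]
              rfl
            rw [h4] at h2
            exact WithTop.top_ne_coe h2
          · exact ⟨z, rfl⟩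
        have h4 : ∀ t, o (i - c t) =
            (((if c t = 0 then z else (d (i - c t) : ℤ)) : ℤ) : WithTop ℤ) := by
          intro t
          by_cases ht : c t = 0
          · rw [if_pos ht, ht, Nat.cast_zero, sub_zero, hz]
          · rw [if_neg ht, hlow t ht]
        rw [Finset.sum_congr rfl fun t _ => h4 t, ← WithTop.coe_sum, WithTop.coe_inj] at h2
        have h5 : ∑ t, ((if c t = 0 then z else (d (i - c t) : ℤ)) - (d (i - c t) : ℤ)) = 0 := by
          rw [Finset.sum_sub_distrib, h2, sub_self]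
        have h6 : ∀ t, ((if c t = 0 then z else (d (i - c t) : ℤ)) - (d (i - c t) : ℤ)) =
            if c t = 0 then z - d i else 0 := by
          intro t
          by_cases ht : c t = 0
          · rw [if_pos ht, if_pos ht, ht, Nat.cast_zero, sub_zero]
          · rw [if_neg ht, if_neg ht, sub_self]
        rw [Finset.sum_congr rfl fun t _ => h6 t, ← Finset.sum_filter, Finset.sum_const,
          nsmul_eq_mul] at h5
        have h7 : ((Finset.univ.filter fun t => c t = 0).card : ℤ) ≠ 0 := by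
          have h8 : 0 < (Finset.univ.filter fun t => c t = 0).card :=
            Finset.card_pos.2 ⟨t₀, Finset.mem_filter.2 ⟨Finset.mem_univ _, ht₀⟩⟩
          exact_mod_cast h8.ne'
        have h8 := (mul_eq_zero.1 h5).resolve_left h7
        rw [hz, sub_eq_zero.1 h8]
    intro i hi
    refine key (i.toNat + 1) i ?_ hi
    have := Int.self_le_toNat i
    push_cast
    omega
  · intro h i hi
    have h1 : ∀ t, F (i - c t) ∧ o (i - c t) = ((d (i - c t) : ℤ) : WithTop ℤ) :=
      fun t => h _ (by omega)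
    refine ⟨fun t => (h1 t).1, ?_⟩
    rw [Finset.sum_congr rfl fun t _ => (h1 t).2, ← WithTop.coe_sum]

section

variable {I : Type} {K : I → Type} [∀ i, Field (K i)] {q : ℕ} (hq : 1 < q) {f : I → ℤ[X]}
  (hR : NoRel f q (Unrelated K))

include hq hR in
/-- **The formula of Beilinson and Bloch for products.** -/
theorem beilinsonBlochTimes : BeilinsonBlochTimes K q f := by
  classical
  intro A s hA
  obtain ⟨J, hJ, c, D, E, hF, hdual, hQ, hspan, hmain⟩ := exists_core2 hq hR hA
  refine ⟨J, hJ, c, D, hF, fun φ hφ T R ρ L hY hU => ?_⟩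
  have hexp := expands_chow hmain hY.chow hY.pure hU.chow
  choose Λ' h1 h2 using hU.lFunction
  have hcont := exists_continuation hq hR hA hdual hspan hφ L Λ' h1 h2
  choose Λ hΛ hord using hcont
  have hequiv := exists_equiv hY.chow hdual hY.regulator hexp
  refine ⟨fun i m hm => ?_, fun n => ⟨Λ n, hΛ n⟩, fun i Λ₁ Λ₁' h3 h4 => ?_, fun n => ?_⟩
  · refine ⟨fun t => T.pair (E t) m,
      ⟨fun t => pair_mem_homTriv hY.chow hdual hY.regulator hm t, hexp i m hm.1⟩, ?_⟩
    rintro z ⟨-, hz⟩
    funext t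
    rw [hz]
    exact (pair_sum hY.chow hdual t z).symm
  · rw [order_unique h3 (hΛ (2 * i - 1)) i, hord]
    refine Finset.sum_congr rfl fun t _ => ?_
    rw [show 2 * i - 1 - 2 * (c t : ℤ) = 2 * (i - c t) - 1 by ring]
    exact order_unique (h1 _) (h4 _) _
  · -- the reformulations
    let o : ℤ → WithTop ℤ := fun i => meromorphicOrderAt (Λ' (2 * i - 1)) (i : ℂ)
    have hN : ∀ i, FormulaN ρ L (q ^ s) i ↔
        Module.Finite ℚ (homTrivN ρ i) ∧ o i = ((finrank ℚ (homTrivN ρ i) : ℤ) : WithTop ℤ) := by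
      intro i
      constructor
      · intro h
        exact h _ (h1 _)
      · rintro ⟨h3, h4⟩ Λ₁ h5
        exact ⟨h3, by rw [order_unique h5 (h1 (2 * i - 1)) i]; exact h4⟩
    have hM : ∀ i, FormulaM ρ L φ (q ^ s) i ↔ (∀ t, Module.Finite ℚ (homTrivN ρ (i - c t))) ∧
        ∑ t, o (i - c t) =
          ((∑ t, (finrank ℚ (homTrivN ρ (i - c t)) : ℤ) : ℤ) : WithTop ℤ) := by
      intro i
      obtain ⟨e⟩ := hequiv i
      have ho : meromorphicOrderAt (Λ (2 * i - 1)) (i : ℂ) = ∑ t, o (i - c t) := by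
        rw [hord]
        refine Finset.sum_congr rfl fun t _ => ?_
        rw [show 2 * i - 1 - 2 * (c t : ℤ) = 2 * (i - c t) - 1 by ring]
      have hfr : (∀ t, Module.Finite ℚ (homTrivN ρ (i - c t))) →
          finrank ℚ (homTrivM ρ i) = ∑ t, finrank ℚ (homTrivN ρ (i - c t)) := by
        intro h
        rw [← e.finrank_eq]
        exact Module.finrank_pi_fintype ℚ
      have hfin : Module.Finite ℚ (homTrivM ρ i) ↔ ∀ t, Module.Finite ℚ (homTrivN ρ (i - c t)) := by
        constructor
        · intro h t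
          have h3 : Module.Finite ℚ (∀ t, homTrivN ρ (i - c t)) := Module.Finite.equiv e.symm
          exact Module.Finite.of_surjective
            (LinearMap.proj t : (∀ t, homTrivN ρ (i - c t)) →ₗ[ℚ] homTrivN ρ (i - c t))
            (LinearMap.proj_surjective t)
        · intro h
          exact Module.Finite.equiv e
      constructor
      · intro h
        obtain ⟨h3, h4⟩ := h _ (hΛ _)
        have h5 := hfin.1 h3
        refine ⟨h5, ?_⟩
        rw [← ho, h4, hfr h5]
        push_cast
        rfl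
      · rintro ⟨h3, h4⟩ Λ₁ h5
        refine ⟨hfin.2 h3, ?_⟩
        rw [order_unique h5 (hΛ (2 * i - 1)) i, ho, h4, hfr h3]
        push_cast
        rfl
    have hneg : ∀ i < 0, Module.Finite ℚ (homTrivN ρ i) ∧
        o i = ((finrank ℚ (homTrivN ρ i) : ℤ) : WithTop ℤ) := by
      intro i hi
      have hbot : homTrivN ρ i = ⊥ := by
        rw [Submodule.eq_bot_iff]
        intro x hx
        exact hY.neg_chow i hi x (mem_homTrivN.1 hx).1
      rw [hbot]
      refine ⟨inferInstance, ?_⟩
      rw [finrank_bot]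
      have h3 : IsContinuation (L.factorN (q ^ s) (2 * i - 1)) (fun _ => 1) := by
        refine ⟨fun s => MeromorphicAt.const 1 s, 0, fun z _ => ?_⟩
        have h4 : (fun v => L.factorN (q ^ s) (2 * i - 1) v z) = fun _ => (1 : ℂ) := by
          funext v
          have h5 := hY.neg_cohomology (2 * i - 1) (by omega) v
          unfold LocalData.factorN invDet
          rw [LinearMap.det_eq_one_of_subsingleton, inv_one]
        rw [h4]
        exact hasProd_one
      change meromorphicOrderAt (Λ' (2 * i - 1)) (i : ℂ) = _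
      rw [order_unique (h1 _) h3 i, meromorphicOrderAt_const, if_neg one_ne_zero]
      rfl
    have h0 : ∃ t, c t = 0 := hF.exists_eq 0 (Nat.zero_le _)
    have htri := triangular c h0 (fun i => Module.Finite ℚ (homTrivN ρ i)) o
      (fun i => finrank ℚ (homTrivN ρ i)) hneg n
    constructor
    · intro h i hi
      exact (hN i).2 (htri.1 (fun i hi => (hM i).1 (h i hi)) i hi)
    · intro h i hi
      exact (hM i).2 (htri.2 (fun i hi => (hN i).1 (h i hi)) i hi)

end

end Pool.Agent.V1168.BB
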