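import Mathlib
import Pool.Agent.V1168.BB.Defs

/-!
# The analytic conjecture of Tate for products with constant abelian varieties: definitions
-/

set_option autoImplicit false

namespace Pool.Agent.V1168.BB

open Polynomial Module Pool.Agent.Y156.L Pool.Agent.Y1.CT

section

variable {A : AbelianData ℂ} (T : RelData A)

/-- **The formula of Tate** for `Y` in codimension `j`: the space `A^j(Y) = T^(2 j)(Y, j)` of the
classes of cycles is finite-dimensional, and its dimension is the order of the pole at `s = j + d` of
the (any) meromorphic continuation `Λ` of the `L`-function of `H^(2 j)(Y)`. -/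
def PoleN (L : LocalData) (Q d : ℕ) (j : ℤ) : Prop :=
  ∀ Λ, IsContinuation (L.factorN Q (2 * j)) Λ →
    Module.Finite ℚ (T.grN (2 * j) j) ∧ meromorphicOrderAt Λ ((j + d : ℤ) : ℂ) =
      ((-(finrank ℚ (T.grN (2 * j) j) : ℤ) : ℤ) : WithTop ℤ)

/-- **The formula of Tate** for `A × Y` in codimension `j`. -/
def PoleM (L : LocalData) (φ : CohData A) (Q d : ℕ) (j : ℤ) : Prop :=
  ∀ Λ, IsContinuation (L.factorM Q φ (2 * j)) Λ →
    Module.Finite ℚ (T.grM (2 * j) j) ∧ meromorphicOrderAt Λ ((j + d : ℤ) : ℂ) =
      ((-(finrank ℚ (T.grM (2 * j) j) : ℤ) : ℤ) : WithTop ℤ)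

/-- The formal properties of the groups `T` of cycles modulo homological equivalence and of the
local factors `L` of a smooth projective variety `Y` over a field `k` finitely generated over the field
with `Q` elements: those in `IsRel`; the absolute Frobenius endomorphism of `A × Y` acts on cycles of
codimension `j` as `Q^j`; the groups in negative degrees are zero. -/
structure IsCycleTheory (L : LocalData) (Q : ℕ) : Prop where
  chow : IsRel Q T
  pure : PureChow T Q
  neg_chow : ∀ i : ℤ, i < 0 → ∀ n, T.DegN (2 * i) i n → n = 0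
  neg_cohomology : ∀ b : ℤ, b < 0 → ∀ v, Subsingleton (L.W b v)

/-- `Y` is unrelated to the fields `K i`: on each of the groups of cycles of `A × Y` the absolute
Frobenius endomorphism of `Y` satisfies a nonzero rational polynomial with roots unrelated to the
fields `K i`, and the `L`-functions of the groups `H^b(Y)` have meromorphic continuations with zeros
and poles on the line `Re s = b / 2 + d` only at points `s` with `Q^s` unrelated to the
fields `K i`. -/
structure EdgeUnrelated {I : Type} (K : I → Type) [∀ i, Field (K i)] (L : LocalData) (Q d : ℕ) :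
    Prop where
  chow : ChowUnrelated K T
  lFunction : ∀ b : ℤ, ∃ Λ, IsContinuation (L.factorN Q b) Λ ∧
    ∀ s : ℂ, 2 * s.re = b + 2 * d → meromorphicOrderAt Λ s ≠ 0 → Unrelated K ((Q : ℂ) ^ s)

end

section

variable {I : Type} (K : I → Type) [∀ i, Field (K i)] (q : ℕ) (f : I → ℤ[X])

/-- `AnalyticTateTimes K q f`: for every abelian variety `A` as in `IsAbelian` over the field with
`Q = q ^ s` elements there are finitely many products `D t` of `c t` divisor classes on `A`, such that
for every smooth projective variety `Y` over every field `k` of transcendence degree `d`, finitely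
generated over the field with `Q` elements, with the properties `IsCycleTheory` and `EdgeUnrelated`:

1. every class in `A^j(A × Y)` is in a unique way the sum of the products of the `D t` with classes
  in `A^(j - c t)(Y)`;
2. the `L`-functions of the `H^n(A × Y)` have meromorphic continuations, and the order at `s = j + d` of
  the `L`-function of `H^(2 j)(A × Y)` is the sum over `t` of the orders at `s = j - c t + d` of the
  `L`-functions of the `H^(2 (j - c t))(Y)`;
3. for all `n`, the formula of Tate holds for `A × Y` in all codimensions `j ≤ n` if and only if it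
  holds for `Y` in all codimensions `j ≤ n`. -/
def AnalyticTateTimes : Prop :=
  ∀ (A : AbelianData ℂ) (s : ℕ), IsAbelian A q s f →
    ∃ (J : Type) (_ : Fintype J) (c : J → ℕ) (D : J → A.CH), IsFamily A c D ∧
      ∀ φ : CohData A, IsCoh φ → ∀ (T : RelData A) (L : LocalData) (d : ℕ),
        IsCycleTheory T L (q ^ s) → EdgeUnrelated T K L (q ^ s) d →
        (∀ (j : ℤ) (m : T.M), T.DegM (2 * j) j m → ∃! z : J → T.N,
          (∀ t, T.DegN (2 * (j - c t)) (j - c t) (z t)) ∧ m = ∑ t, T.mul (D t) (z t)) ∧
        (∀ n : ℤ, ∃ Λ, IsContinuation (L.factorM (q ^ s) φ n) Λ) ∧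
        (∀ (j : ℤ) (Λ : ℂ → ℂ) (Λ' : ℤ → ℂ → ℂ), IsContinuation (L.factorM (q ^ s) φ (2 * j)) Λ →
          (∀ b, IsContinuation (L.factorN (q ^ s) b) (Λ' b)) →
          meromorphicOrderAt Λ ((j + d : ℤ) : ℂ) =
            ∑ t, meromorphicOrderAt (Λ' (2 * (j - c t))) ((j - c t + d : ℤ) : ℂ)) ∧
        ∀ n : ℤ, (∀ j ≤ n, PoleM T L φ (q ^ s) d j) ↔ ∀ j ≤ n, PoleN T L (q ^ s) d j

end

end Pool.Agent.V1168.BB
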