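import Mathlib
import Pool.Agent.V1168.BB.Edge
import Pool.Agent.V1168.BB.Main
import Pool.Agent.V1168.BB.PoleDefs

/-!
# The analytic conjecture of Tate for products with constant abelian varieties
-/

set_option autoImplicit false
set_option linter.unusedSectionVars false
set_option linter.unusedVariables false

namespace Pool.Agent.V1168.BB

open Module Polynomial Pool.Agent.Y156.L Pool.Agent.W484.HS Pool.Agent.Y1.CT Pool.Agent.V1168.UN

/-- The combinatorial part: a triangular system. -/
theorem triangularZ {J : Type} [Fintype J] (c : J → ℕ) (h0 : ∃ t, c t = 0) (F : ℤ → Prop)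
    (o : ℤ → WithTop ℤ) (d : ℤ → ℤ) (hneg : ∀ i < 0, F i ∧ o i = (d i : WithTop ℤ)) (n : ℤ) :
    (∀ i ≤ n, (∀ t, F (i - c t)) ∧
      ∑ t, o (i - c t) = ((∑ t, d (i - c t) : ℤ) : WithTop ℤ)) ↔
    ∀ i ≤ n, F i ∧ o i = (d i : WithTop ℤ) := by
  classical
  obtain ⟨t₀, ht₀⟩ := h0
  constructor
  · intro h
    have key : ∀ m : ℕ, ∀ i : ℤ, i < m → i ≤ n → F i ∧ o i = (d i : WithTop ℤ) := by
      intro m
      induction m with
      | zero =>
        intro i hi _
        exact hneg i (by exact_mod_cast hi)
      | succ m ih =>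
        intro i hi hin
        rcases lt_or_ge i (m : ℤ) with hlt | hge
        · exact ih i hlt hin
        obtain ⟨h1, h2⟩ := h i hin
        have hF : F i := by
          have := h1 t₀
          rwa [ht₀, Nat.cast_zero, sub_zero] at this
        refine ⟨hF, ?_⟩
        have hlow : ∀ t, c t ≠ 0 → o (i - c t) = (d (i - c t) : WithTop ℤ) := by
          intro t ht
          exact (ih (i - c t) (by omega) (by omega)).2
        -- the order is finite
        obtain ⟨z, hz⟩ : ∃ z : ℤ, o i = (z : WithTop ℤ) := by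
          rcases h3 : o i with _ | z
          · exfalso
            have h4 : ∑ t, o (i - c t) = ⊤ := by
              rw [WithTop.sum_eq_top]
              refine ⟨t₀, Finset.mem_univ _, ?_⟩
              rw [ht₀, Nat.cast_zero, sub_zero, h3]
              rfl
            rw [h4] at h2
            exact WithTop.top_ne_coe h2
          · exact ⟨z, rfl⟩
        have h4 : ∀ t, o (i - c t) =
            (((if c t = 0 then z else d (i - c t)) : ℤ) : WithTop ℤ) := by
          intro t
          by_cases ht : c t = 0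
          · rw [if_pos ht, ht, Nat.cast_zero, sub_zero, hz]
          · rw [if_neg ht, hlow t ht]
        rw [Finset.sum_congr rfl fun t _ => h4 t, ← WithTop.coe_sum, WithTop.coe_inj] at h2
        have h5 : ∑ t, ((if c t = 0 then z else d (i - c t)) - d (i - c t)) = 0 := by
          rw [Finset.sum_sub_distrib, h2, sub_self]
        have h6 : ∀ t, ((if c t = 0 then z else d (i - c t)) - d (i - c t)) =
            if c t = 0 then z - d i else 0 := by
          intro t
          by_cases ht : c t = 0
          · rw [if_pos ht, if_pos ht, ht, Nat.cast_zero, sub_zero]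
          · rw [if_neg ht, if_neg ht, sub_self]
        rw [Finset.sum_congr rfl fun t _ => h6 t, ← Finset.sum_filter, Finset.sum_const,
          nsmul_eq_mul] at h5
        have h7 : ((Finset.univ.filter fun t => c t = 0).card : ℤ) ≠ 0 := by
          have h8 : 0 < (Finset.univ.filter fun t => c t = 0).card :=
            Finset.card_pos.2 ⟨t₀, Finset.mem_filter.2 ⟨Finset.mem_univ _, ht₀⟩⟩
          exact_mod_cast h8.ne'
        have h8 := (mul_eq_zero.1 h5).resolve_left h7
        rw [hz, sub_eq_zero.1 h8]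
    intro i hi
    refine key (i.toNat + 1) i ?_ hi
    have := Int.self_le_toNat i
    push_cast
    omega
  · intro h i hi
    have h1 : ∀ t, F (i - c t) ∧ o (i - c t) = (d (i - c t) : WithTop ℤ) :=
      fun t => h _ (by omega)
    refine ⟨fun t => (h1 t).1, ?_⟩
    rw [Finset.sum_congr rfl fun t _ => (h1 t).2, ← WithTop.coe_sum]

section equiv

variable {A : AbelianData ℂ} {J : Type} [Fintype J] {c : J → ℕ} {D E : J → A.CH} {Q : ℕ}
  {T : RelData A}

/-- The Kunneth isomorphism, for one bidegree. -/
theorem exists_equiv_deg (hT : IsRel Q T) (h : Pool.Agent.Y156.L.IsDual A c D E) (i j : ℤ)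
    (hexp : ∀ m : T.M, T.DegM i j m → m = ∑ t, T.times (D t) (T.pair (E t) m))
    (i' : J → ℤ) (hi' : ∀ t, i' t = i - 2 * c t) :
    Nonempty ((∀ t, T.grN (i' t) (j - c t)) ≃ₗ[ℚ] T.grM i j) := by
  classical
  obtain rfl : i' = fun t => i - 2 * c t := funext hi'
  have hmem : ∀ (t : J) (n : T.N), n ∈ T.grN (i - 2 * c t) (j - c t) →
      T.times (D t) n ∈ T.grM i j := by
    intro t n hn
    have h1 := hT.times_mem (h.left t) hn
    rw [sub_add_cancel, sub_add_cancel] at h1
    exact h1
  have hmem' : ∀ (t : J) (m : T.M), m ∈ T.grM i j →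
      T.pair (E t) m ∈ T.grN (i - 2 * c t) (j - c t) := by
    intro t m hm
    exact hT.pair_mem (c := c t) (by have := h.le t; omega) (h.right t) hm
  let F : (∀ t, T.grN (i - 2 * c t) (j - c t)) →ₗ[ℚ] T.grM i j :=
    { toFun := fun z => ⟨∑ t, T.times (D t) (z t : T.N),
        Submodule.sum_mem _ fun t _ => hmem t _ (z t).2⟩
      map_add' := by
        intro x y
        apply Subtype.ext
        change ∑ t, T.times (D t) ((x t : T.N) + (y t : T.N)) =
          ∑ t, T.times (D t) (x t : T.N) + ∑ t, T.times (D t) (y t : T.N)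
        simp only [map_add, Finset.sum_add_distrib]
      map_smul' := by
        intro a x
        apply Subtype.ext
        change ∑ t, T.times (D t) (a • (x t : T.N)) = a • ∑ t, T.times (D t) (x t : T.N)
        simp only [map_smul, Finset.smul_sum] }
  refine ⟨LinearEquiv.ofBijective F ⟨?_, ?_⟩⟩
  · intro x y hxy
    have h1 : ∑ t, T.times (D t) (x t : T.N) = ∑ t, T.times (D t) (y t : T.N) :=
      congrArg Subtype.val hxy
    funext t
    apply Subtype.ext
    have h2 := congrArg (T.pair (E t)) h1
    rw [pair_sum hT h t (fun t => (x t : T.N)), pair_sum hT h t (fun t => (y t : T.N))] at h2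
    exact h2
  · rintro ⟨m, hm⟩
    refine ⟨fun t => ⟨T.pair (E t) m, hmem' t m hm⟩, ?_⟩
    apply Subtype.ext
    exact (hexp m hm).symm

/-- Finite products are finite-dimensional if and only if the factors are. -/
theorem finite_pi_iff {M : Type} [AddCommGroup M] [Module ℚ M] {V : J → Type}
    [∀ t, AddCommGroup (V t)] [∀ t, Module ℚ (V t)] (e : (∀ t, V t) ≃ₗ[ℚ] M) :
    (Module.Finite ℚ M ↔ ∀ t, Module.Finite ℚ (V t)) ∧
      ((∀ t, Module.Finite ℚ (V t)) → finrank ℚ M = ∑ t, finrank ℚ (V t)) := by
  classical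
  refine ⟨⟨fun h t => ?_, fun h => Module.Finite.equiv e⟩, fun h => ?_⟩
  · have h3 : Module.Finite ℚ (∀ t, V t) := Module.Finite.equiv e.symm
    exact Module.Finite.of_surjective (LinearMap.proj t : (∀ t, V t) →ₗ[ℚ] V t)
      (LinearMap.proj_surjective t)
  · rw [← e.finrank_eq]
    exact Module.finrank_pi_fintype ℚ

end equiv

section

variable {I : Type} {K : I → Type} [∀ i, Field (K i)] {q : ℕ} (hq : 1 < q) {f : I → ℤ[X]}
  (hw : ∀ i (z : ℂ), aeval z (f i) = 0 → ‖z‖ ^ 2 = (q : ℝ))
  (hR : NoRel f q (Unrelated K))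

include hq hw hR in
/-- **The analytic conjecture of Tate for products.** -/
theorem analyticTateTimes : AnalyticTateTimes K q f := by
  classical
  intro A s hA
  obtain ⟨J, hJ, c, D, E, hF, hdual, hQ, hspan, hmain⟩ := exists_core2 hq hR hA
  refine ⟨J, hJ, c, D, hF, fun φ hφ T L d hY hU => ?_⟩
  have hexp := expands_chow hmain hY.chow hY.pure hU.chow
  choose Λ' h1 h2 using hU.lFunction
  have hcont := exists_continuation_at hq hw hR hA hdual hspan hφ L Λ' h1
  choose Λ hΛ hord' using hcont
  have hord : ∀ j : ℤ, meromorphicOrderAt (Λ (2 * j)) ((j + d : ℤ) : ℂ) =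
      ∑ t, meromorphicOrderAt (Λ' (2 * (j - c t))) ((j - c t + d : ℤ) : ℂ) := by
    intro j
    rw [hord' (2 * j) (j + d) (fun b z hz => h2 b z (by rw [hz]; push_cast; ring))]
    refine Finset.sum_congr rfl fun t _ => ?_
    rw [show 2 * j - 2 * (c t : ℤ) = 2 * (j - c t) by ring,
      show j + (d : ℤ) - c t = j - c t + d by ring]
  have hequiv : ∀ j : ℤ, Nonempty ((∀ t, T.grN (2 * (j - c t)) (j - c t)) ≃ₗ[ℚ]
      T.grM (2 * j) j) := by
    intro j
    exact exists_equiv_deg hY.chow hdual (2 * j) j (hexp j) (fun t => 2 * (j - c t))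
      fun t => by ring
  refine ⟨fun j m hm => ?_, fun n => ⟨Λ n, hΛ n⟩, fun j Λ₁ Λ₁' h3 h4 => ?_, fun n => ?_⟩
  · refine ⟨fun t => T.pair (E t) m, ⟨fun t => ?_, hexp j m hm⟩, ?_⟩
    · have h1 := hY.chow.pair_mem (c := c t) (by have := hdual.le t; omega) (hdual.right t) hm
      rw [show 2 * (j - (c t : ℤ)) = 2 * j - 2 * c t by ring]
      exact h1
    · rintro z ⟨-, hz⟩
      funext t
      rw [hz]
      exact (pair_sum hY.chow hdual t z).symm
  · rw [order_unique h3 (hΛ (2 * j)), hord]
    exact Finset.sum_congr rfl fun t _ => order_unique (h1 _) (h4 _) _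
  · -- the reformulations
    let o : ℤ → WithTop ℤ := fun j => meromorphicOrderAt (Λ' (2 * j)) ((j + d : ℤ) : ℂ)
    have hN : ∀ j, PoleN T L (q ^ s) d j ↔ Module.Finite ℚ (T.grN (2 * j) j) ∧
        o j = ((-(finrank ℚ (T.grN (2 * j) j) : ℤ) : ℤ) : WithTop ℤ) := by
      intro j
      constructor
      · intro h
        exact h _ (h1 _)
      · rintro ⟨h3, h4⟩ Λ₁ h5
        exact ⟨h3, by rw [order_unique h5 (h1 (2 * j))]; exact h4⟩
    have hM : ∀ j, PoleM T L φ (q ^ s) d j ↔
        (∀ t, Module.Finite ℚ (T.grN (2 * (j - c t)) (j - c t))) ∧ ∑ t, o (j - c t) =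
          ((∑ t, -(finrank ℚ (T.grN (2 * (j - c t)) (j - c t)) : ℤ) : ℤ) : WithTop ℤ) := by
      intro j
      obtain ⟨e⟩ := hequiv j
      obtain ⟨hfin, hfr⟩ := finite_pi_iff e
      constructor
      · intro h
        obtain ⟨h3, h4⟩ := h _ (hΛ _)
        have h5 := hfin.1 h3
        refine ⟨h5, ?_⟩
        change ∑ t, meromorphicOrderAt (Λ' (2 * (j - c t))) ((j - c t + d : ℤ) : ℂ) = _
        rw [← hord, h4, hfr h5, Finset.sum_neg_distrib]
        push_cast
        rfl
      · rintro ⟨h3, h4⟩ Λ₁ h5
        refine ⟨hfin.2 h3, ?_⟩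
        rw [order_unique h5 (hΛ (2 * j)), hord]
        change ∑ t, o (j - c t) = _
        rw [h4, hfr h3, Finset.sum_neg_distrib]
        push_cast
        rfl
    have hneg : ∀ j < 0, Module.Finite ℚ (T.grN (2 * j) j) ∧
        o j = ((-(finrank ℚ (T.grN (2 * j) j) : ℤ) : ℤ) : WithTop ℤ) := by
      intro j hj
      have hbot : T.grN (2 * j) j = ⊥ := by
        rw [Submodule.eq_bot_iff]
        intro x hx
        exact hY.neg_chow j hj x hx
      rw [hbot]
      refine ⟨inferInstance, ?_⟩
      rw [finrank_bot]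
      have h3 : IsContinuation (L.factorN (q ^ s) (2 * j)) (fun _ => 1) := by
        refine ⟨fun s => MeromorphicAt.const 1 s, 0, fun z _ => ?_⟩
        have h4 : (fun v => L.factorN (q ^ s) (2 * j) v z) = fun _ => (1 : ℂ) := by
          funext v
          have h5 := hY.neg_cohomology (2 * j) (by omega) v
          unfold LocalData.factorN invDet
          rw [LinearMap.det_eq_one_of_subsingleton, inv_one]
        rw [h4]
        exact hasProd_one
      change meromorphicOrderAt (Λ' (2 * j)) ((j + d : ℤ) : ℂ) = _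
      rw [order_unique (h1 _) h3, meromorphicOrderAt_const, if_neg one_ne_zero]
      rfl
    have h0 : ∃ t, c t = 0 := hF.exists_eq 0 (Nat.zero_le _)
    have htri := triangularZ c h0 (fun j => Module.Finite ℚ (T.grN (2 * j) j)) o
      (fun j => -(finrank ℚ (T.grN (2 * j) j) : ℤ)) hneg n
    constructor
    · intro h j hj
      exact (hN j).2 (htri.1 (fun j hj => (hM j).1 (h j hj)) j hj)
    · intro h j hj
      exact (hM j).2 (htri.2 (fun j hj => (hN j).1 (h j hj)) j hj)

end

end Pool.Agent.V1168.BB
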