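import Mathlib
import Pool.Agent.V1168.BB.Pole
import Pool.Agent.V1168.BB.GeoDefs

/-!
# The Tate conjecture over finitely generated fields for products with constant abelian varieties
-/

set_option autoImplicit false
set_option linter.unusedSectionVars false
set_option linter.unusedVariables false

namespace Pool.Agent.V1168.BB

open Module Polynomial Pool.Agent.Y156.L Pool.Agent.W484.HS Pool.Agent.Y1.CT Pool.Agent.V1168.UN

section tensor

variable {V W : Type} [AddCommGroup V] [Module ℂ V] [AddCommGroup W] [Module ℂ W]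
  [FiniteDimensional ℂ W] {r : ℕ} (e : Basis (Fin r) ℂ V) (α : Fin r → ℂ) (g : Module.End ℂ V)
  (hg : ∀ j, g (e j) = α j • e j) (h : Module.End ℂ W) (x : ℂ)

/-- The tensor product as a space of functions. -/
noncomputable def tensorFun : TensorProduct ℂ V W ≃ₗ[ℂ] (Fin r → W) :=
  (TensorProduct.equivFinsuppOfBasisLeft e).trans (Finsupp.linearEquivFunOnFinite ℂ W (Fin r))

include hg in
theorem tensorFun_map (y : TensorProduct ℂ V W) (j : Fin r) :
    tensorFun e (TensorProduct.map g h y) j = α j • h (tensorFun e y j) := by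
  induction y using TensorProduct.induction_on with
  | zero => simp
  | tmul v w =>
    rw [TensorProduct.map_tmul]
    have h1 : ∀ (v : V) (w : W), tensorFun (W := W) e (v ⊗ₜ[ℂ] w) j = e.repr v j • w := by
      intro v w
      simp [tensorFun]
    have h2 : e.repr (g v) j = α j * e.repr v j := by
      conv_lhs => rw [← e.sum_repr v]
      rw [map_sum, map_sum, Finsupp.finsetSum_apply]
      simp only [map_smul, hg, Basis.repr_self, Finsupp.smul_apply, smul_eq_mul,
        Finsupp.single_apply]
      rw [Finset.sum_eq_single j]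
      · rw [if_pos rfl]
        ring
      · intro u _ hu
        rw [if_neg hu]
        ring
      · intro h
        exact absurd (Finset.mem_univ j) h
    rw [h1, h1, h2, map_smul, smul_smul]
  | add y z hy hz =>
    rw [map_add, map_add, Pi.add_apply, hy, hz, map_add, Pi.add_apply, map_add, smul_add]

include hg in
/-- The dimension of the eigenspaces of a tensor product. -/
theorem eigenDimTensor_eq : eigenDimTensor g h x =
    ∑ j, finrank ℂ (LinearMap.ker (α j • h - x • (1 : Module.End ℂ W))) := by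
  classical
  unfold eigenDimTensor eigenDim
  rw [← Module.finrank_pi_fintype ℂ]
  refine LinearEquiv.finrank_eq ?_
  have hiff : ∀ y : TensorProduct ℂ V W,
      y ∈ LinearMap.ker (TensorProduct.map g h - x • (1 : Module.End ℂ (TensorProduct ℂ V W))) ↔
        ∀ j, tensorFun e y j ∈ LinearMap.ker (α j • h - x • (1 : Module.End ℂ W)) := by
    intro y
    rw [LinearMap.mem_ker, LinearMap.sub_apply, sub_eq_zero]
    constructor
    · intro h1 j
      rw [LinearMap.mem_ker, LinearMap.sub_apply, sub_eq_zero, LinearMap.smul_apply,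
        ← tensorFun_map e α g hg h, h1]
      simp
    · intro h1
      apply (tensorFun e).injective
      funext j
      have h2 := h1 j
      rw [LinearMap.mem_ker, LinearMap.sub_apply, sub_eq_zero, LinearMap.smul_apply] at h2
      rw [tensorFun_map e α g hg h, h2]
      simp
  refine LinearEquiv.ofBijective
    { toFun := fun y j => ⟨tensorFun e (y : TensorProduct ℂ V W) j, (hiff y).1 y.2 j⟩
      map_add' := by
        intro y z
        funext j
        apply Subtype.ext
        simp
      map_smul' := by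
        intro a y
        funext j
        apply Subtype.ext
        simp } ⟨?_, ?_⟩
  · intro y z hyz
    apply Subtype.ext
    apply (tensorFun e).injective
    funext j
    exact congrArg Subtype.val (congrFun hyz j)
  · intro z
    refine ⟨⟨(tensorFun e).symm fun j => (z j : W), (hiff _).2 fun j => ?_⟩, ?_⟩
    · rw [LinearEquiv.apply_symm_apply]
      exact (z j).2
    · funext j
      apply Subtype.ext
      change tensorFun e ((tensorFun e).symm fun j => (z j : W)) j = z j
      rw [LinearEquiv.apply_symm_apply]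

end tensor

section

variable {I : Type} {K : I → Type} [∀ i, Field (K i)] {q : ℕ}

/-- The polynomial for the cycles. -/
theorem chowUnrelated_of {A : AbelianData ℂ} {Q : ℕ} {φ : CohData A} {T : RelData A} {Y : InvData}
    {κ : ClassData T φ Y} (hY : IsInvTheory T κ Q) (hU : InvUnrelated K Y)
    (h0 : Unrelated K (1 : ℂ)) : ChowUnrelated K T := by
  classical
  intro j
  choose χ hχ hroot hkill using hU
  let P : ℤ[X] := ∏ a ∈ Finset.range (2 * A.dim + 1), χ (2 * j - a)
  have hP : P ≠ 0 := Finset.prod_ne_zero_iff.2 fun a _ => hχ _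
  refine ⟨P.map (Int.castRingHom ℚ), ?_, fun ρ hρ => ?_, fun m hm => ?_⟩
  · rw [Ne, Polynomial.map_eq_zero_iff (RingHom.injective_int _)]
    exact hP
  · have h1 : aeval ρ P = 0 := by
      rw [aeval_def, eval₂_map] at hρ
      rw [aeval_def, ← hρ]
      rfl
    rw [map_prod, Finset.prod_eq_zero_iff] at h1
    obtain ⟨a, -, ha⟩ := h1
    exact hroot _ ρ ha
  · -- the operator on the groups
    have hmem : ∀ (S : ℚ[X]) (y : T.M), T.DegM (2 * j) j y → T.DegM (2 * j) j (aeval T.frobM S y) := by
      intro S y hy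
      have hpow : ∀ l : ℕ, (T.frobM ^ l) y ∈ T.grM (2 * j) j := by
        intro l
        induction l with
        | zero => exact hy
        | succ l ih =>
          rw [pow_succ', Module.End.mul_apply]
          exact hY.chow.frobenius.FM_mem ih
      rw [aeval_eq_sum_range, LinearMap.sum_apply]
      exact Submodule.sum_mem _ fun l _ => Submodule.smul_mem _ _ (hpow l)
    refine hY.classes.injective j _ (hmem _ m hm) fun a ha => ?_
    -- the additive map
    let cl : T.M →+ TensorProduct ℂ (φ.V a) (Y.G (2 * j - a)) :=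
      AddMonoidHom.mk' (κ.cl j a) (hY.classes.add j a)
    let N : Module.End ℂ (TensorProduct ℂ (φ.V a) (Y.G (2 * j - a))) :=
      TensorProduct.map LinearMap.id (Y.frob (2 * j - a))
    have hpow : ∀ (l : ℕ) (y : T.M), T.DegM (2 * j) j y → cl ((T.frobM ^ l) y) = (N ^ l) (cl y) ∧
        T.DegM (2 * j) j ((T.frobM ^ l) y) := by
      intro l y hy
      induction l with
      | zero => exact ⟨rfl, hy⟩
      | succ l ih =>
        rw [pow_succ', pow_succ', Module.End.mul_apply, Module.End.mul_apply, ← ih.1]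
        exact ⟨hY.classes.frob j a _ ih.2, hY.chow.frobenius.FM_mem ih.2⟩
    have hS : ∀ (S : ℤ[X]), cl (aeval T.frobM (S.map (Int.castRingHom ℚ)) m) = aeval N S (cl m) := by
      intro S
      have h1 : aeval T.frobM (S.map (Int.castRingHom ℚ)) = aeval T.frobM S := by
        rw [aeval_def, eval₂_map, aeval_def]
        congr 1
        exact Subsingleton.elim _ _
      rw [h1, aeval_eq_sum_range, aeval_eq_sum_range, LinearMap.sum_apply, LinearMap.sum_apply,
        map_sum]
      refine Finset.sum_congr rfl fun l _ => ?_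
      rw [LinearMap.smul_apply, LinearMap.smul_apply, map_zsmul, (hpow l m hm).1]
    change cl (aeval T.frobM (P.map (Int.castRingHom ℚ)) m) = 0
    rw [hS]
    have h2 : ∀ (S : ℤ[X]) (y : TensorProduct ℂ (φ.V a) (Y.G (2 * j - a))),
        aeval N S y = TensorProduct.map LinearMap.id
          (aeval (Y.frob (2 * j - a) : Module.End ℂ (Y.G (2 * j - a))) S) y := by
      intro S y
      induction y using TensorProduct.induction_on with
      | zero => simp
      | add y z hy hz => rw [map_add, map_add, hy, hz]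
      | tmul v w =>
        rw [TensorProduct.map_tmul, LinearMap.id_apply]
        have hNl : ∀ l : ℕ, (N ^ l) (v ⊗ₜ[ℂ] w) =
            v ⊗ₜ[ℂ] (((Y.frob (2 * j - a) : Module.End ℂ (Y.G (2 * j - a))) ^ l) w) := by
          intro l
          induction l with
          | zero => rfl
          | succ l ih =>
            rw [pow_succ', pow_succ', Module.End.mul_apply, Module.End.mul_apply, ih]
            rfl
        rw [aeval_eq_sum_range, aeval_eq_sum_range, LinearMap.sum_apply, LinearMap.sum_apply,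
          TensorProduct.tmul_sum]
        refine Finset.sum_congr rfl fun l _ => ?_
        rw [LinearMap.smul_apply, LinearMap.smul_apply, hNl, TensorProduct.tmul_smul]
    have hmemr : a ∈ Finset.range (2 * A.dim + 1) := by
      rw [Finset.mem_range]
      omega
    have hPa : (aeval (Y.frob (2 * j - a) : Module.End ℂ (Y.G (2 * j - a))) P) = 0 := by
      change aeval _ (∏ a ∈ Finset.range (2 * A.dim + 1), χ (2 * j - a)) = 0
      rw [← Finset.prod_erase_mul _ _ hmemr, map_mul]
      have h3 : aeval (Y.frob (2 * j - a) : Module.End ℂ (Y.G (2 * j - a))) (χ (2 * j - a)) = 0 :=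
        LinearMap.ext fun v => hkill _ v
      rw [h3, mul_zero]
    rw [h2, hPa, TensorProduct.map_zero_right]
    rfl

variable {f : I → ℤ[X]}

/-- **The dimension of the space of the invariants of the product.** -/
theorem dimM_eq (hq : 1 < q) (hR : NoRel f q (Unrelated K)) {A : AbelianData ℂ} {s : ℕ}
    (hA : IsAbelian A q s f) {J : Type} [Fintype J] {c : J → ℕ} {D E : J → A.CH}
    (hdual : Pool.Agent.Y156.L.IsDual A c D E)
    (hspan : ∀ (k : ℕ) (x : A.H), A.frobH x = ((q ^ s : ℕ) : ℂ) ^ k • x →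
        x ∈ Submodule.span ℂ {a | ∃ j, c j = k ∧ a = A.cl (D j)} ∧ x ∈ A.H1 ^ (2 * k))
    {φ : CohData A} (hφ : IsCoh φ) {Y : InvData} (hU : InvUnrelated K Y) (i : ℤ) :
    Y.dimM (q ^ s) φ i = ∑ t, Y.dimN (q ^ s) (i - c t) := by
  classical
  have hs := hA.pos
  have hQ1 : 1 < q ^ s := Nat.one_lt_pow hs.ne' hq
  have hQ0 : ((q ^ s : ℕ) : ℂ) ≠ 0 := by exact_mod_cast (by omega : q ^ s ≠ 0)
  choose r e α hα he using fun a => exists_basis_coh (s := s) (f := f) hA hφ a
  have hα0 : ∀ a j, α a j ≠ 0 := fun a j => eigen_ne_zero_coh hQ0 hA hφ a (e a) (α a) (he a) j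
  let g : ℕ → ℂ → ℕ := fun a x => finrank ℂ (LinearMap.ker
    (x • (Y.frob (2 * i - a) : Module.End ℂ (Y.G (2 * i - a))) -
      (((q ^ s : ℕ) : ℂ) ^ i) • (1 : Module.End ℂ (Y.G (2 * i - a)))))
  have h3 : Y.dimM (q ^ s) φ i =
      ∑ a ∈ Finset.range (2 * A.dim + 1), ∑ j : Fin (r a), g a (α a j) := by
    unfold InvData.dimM
    refine Finset.sum_congr rfl fun a _ => ?_
    exact eigenDimTensor_eq (e a) (α a) (φ.frob a) (he a) (Y.frob (2 * i - a)) _
  -- the vanishing
  have hg : ∀ a j, g a (α a j) ≠ 0 → ∃ k : ℕ, a = 2 * k ∧ α a j = ((q ^ s : ℕ) : ℂ) ^ k := by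
    intro a j h
    have h4 : ∃ v : Y.G (2 * i - a), v ≠ 0 ∧
        α a j • Y.frob (2 * i - a) v = (((q ^ s : ℕ) : ℂ) ^ i) • v := by
      by_contra hcon
      push Not at hcon
      apply h
      change finrank ℂ (LinearMap.ker _) = 0
      rw [show LinearMap.ker (α a j • (Y.frob (2 * i - a) : Module.End ℂ (Y.G (2 * i - a))) -
        (((q ^ s : ℕ) : ℂ) ^ i) • (1 : Module.End ℂ (Y.G (2 * i - a)))) = ⊥ from ?_, finrank_bot]
      rw [Submodule.eq_bot_iff]
      intro v hv
      by_contra hv0
      refine hcon v hv0 ?_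
      rw [LinearMap.mem_ker, LinearMap.sub_apply, sub_eq_zero] at hv
      exact hv
    obtain ⟨v, hv0, hv⟩ := h4
    set ρ : ℂ := (α a j)⁻¹ * ((q ^ s : ℕ) : ℂ) ^ i with hρ
    have hv' : Y.frob (2 * i - a) v = ρ • v := by
      rw [hρ, mul_smul, ← hv, smul_smul, inv_mul_cancel₀ (hα0 a j), one_smul]
    obtain ⟨χ, hχ, hroot, hkill⟩ := hU (2 * i - a)
    have h5 : aeval ρ χ = 0 := by
      have h6 := hkill v
      have h7 : ∀ l : ℕ, ((Y.frob (2 * i - a) : Module.End ℂ (Y.G (2 * i - a))) ^ l) v =
          ρ ^ l • v := by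
        intro l
        induction l with
        | zero => simp
        | succ l ih => rw [pow_succ', Module.End.mul_apply, ih, map_smul, hv', smul_smul, pow_succ]
      rw [aeval_eq_sum_range, LinearMap.sum_apply] at h6
      have h8 : ∑ l ∈ Finset.range (χ.natDegree + 1),
          (χ.coeff l • (Y.frob (2 * i - a) : Module.End ℂ (Y.G (2 * i - a))) ^ l) v =
          (aeval ρ χ) • v := by
        rw [aeval_eq_sum_range, Finset.sum_smul]
        refine Finset.sum_congr rfl fun l _ => ?_
        rw [LinearMap.smul_apply, h7, smul_assoc]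
      rw [h8] at h6
      exact (smul_eq_zero.1 h6).resolve_right hv0
    have h4 := hroot ρ h5
    obtain ⟨M, hM1, hM2⟩ := hα a j
    have h5 : (M.map fun z : Rt f => (z : ℂ) ^ s).prod * ρ = ((q : ℂ) ^ s) ^ i := by
      rw [← hM2, hρ, ← mul_assoc, mul_inv_cancel₀ (hα0 a j), one_mul]
      push_cast
      rfl
    obtain ⟨k, h6, h7⟩ := list_unrel hq hR hs h4 M i h5
    refine ⟨k, by omega, ?_⟩
    rw [hM2, h7]
    push_cast
    rfl
  -- the even terms
  have hk0 : ∀ k : ℕ, g (2 * k) (((q ^ s : ℕ) : ℂ) ^ k) = Y.dimN (q ^ s) (i - k) := by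
    intro k
    change finrank ℂ (LinearMap.ker ((((q ^ s : ℕ) : ℂ) ^ k) •
      (Y.frob (2 * i - (2 * k : ℕ)) : Module.End ℂ (Y.G (2 * i - (2 * k : ℕ)))) -
      (((q ^ s : ℕ) : ℂ) ^ i) • (1 : Module.End ℂ (Y.G (2 * i - (2 * k : ℕ)))))) = _
    unfold InvData.dimN eigenDim
    have h1 : 2 * i - ((2 * k : ℕ) : ℤ) = 2 * (i - k) := by push_cast; ring
    rw [h1]
    have h2 : LinearMap.ker ((((q ^ s : ℕ) : ℂ) ^ k) •
        (Y.frob (2 * (i - k)) : Module.End ℂ (Y.G (2 * (i - k)))) -
        (((q ^ s : ℕ) : ℂ) ^ i) • (1 : Module.End ℂ (Y.G (2 * (i - k))))) =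
        LinearMap.ker ((Y.frob (2 * (i - k)) : Module.End ℂ (Y.G (2 * (i - k)))) -
        (((q ^ s : ℕ) : ℂ) ^ (i - (k : ℤ))) • (1 : Module.End ℂ (Y.G (2 * (i - k))))) := by
      ext v
      rw [LinearMap.mem_ker, LinearMap.mem_ker, LinearMap.sub_apply, LinearMap.sub_apply,
        sub_eq_zero, sub_eq_zero, LinearMap.smul_apply, LinearMap.smul_apply,
        LinearMap.smul_apply, Module.End.one_apply]
      have hk : (((q ^ s : ℕ) : ℂ) ^ k) ≠ 0 := pow_ne_zero _ hQ0
      have h3 : (((q ^ s : ℕ) : ℂ) ^ i) = ((q ^ s : ℕ) : ℂ) ^ k * ((q ^ s : ℕ) : ℂ) ^ (i - (k : ℤ)) := by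
        rw [← zpow_natCast, ← zpow_add₀ hQ0]
        congr 1
        ring
      rw [h3, mul_smul]
      exact ⟨fun h => smul_right_injective _ hk h, fun h => by rw [h]⟩
    rw [h2]
  have h4 : ∀ k : ℕ, ∑ j : Fin (r (2 * k)), g (2 * k) (α (2 * k) j) =
      Nat.card {t // c t = k} • Y.dimN (q ^ s) (i - k) := by
    intro k
    rw [← card_eigen_coh hA hdual hspan hφ k (e (2 * k)) (α (2 * k)) (he (2 * k)),
      Nat.card_eq_fintype_card, Fintype.card_subtype, ← Finset.sum_const]
    rw [Finset.sum_filter]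
    refine Finset.sum_congr rfl fun j _ => ?_
    by_cases h : α (2 * k) j = ((q ^ s : ℕ) : ℂ) ^ k
    · rw [if_pos h, h, hk0]
    · rw [if_neg h]
      by_contra hcon
      obtain ⟨l, h5, h6⟩ := hg _ _ hcon
      have h7 : l = k := by omega
      rw [h7] at h6
      exact h h6
  have h5 : ∀ a, (¬ ∃ k, a = 2 * k) → ∑ j : Fin (r a), g a (α a j) = 0 := by
    intro a ha
    refine Finset.sum_eq_zero fun j _ => ?_
    by_contra hcon
    obtain ⟨k, h6, -⟩ := hg _ _ hcon
    exact ha ⟨k, h6⟩
  have h6 : ∑ a ∈ Finset.range (2 * A.dim + 1), ∑ j : Fin (r a), g a (α a j) =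
      ∑ k ∈ Finset.range (A.dim + 1), ∑ j : Fin (r (2 * k)), g (2 * k) (α (2 * k) j) := by
    have hinj : Set.InjOn (fun k : ℕ => 2 * k) (Finset.range (A.dim + 1)) := by
      intro x _ y _ h
      have h' : 2 * x = 2 * y := h
      omega
    rw [← Finset.sum_image (s := Finset.range (A.dim + 1)) (g := fun k => 2 * k)
      (f := fun a => ∑ j : Fin (r a), g a (α a j)) hinj]
    symm
    refine Finset.sum_subset ?_ ?_
    · intro a ha
      obtain ⟨k, hk, rfl⟩ := Finset.mem_image.1 ha
      rw [Finset.mem_range] at hk ⊢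
      omega
    · intro a ha hna
      refine h5 a fun ⟨k, hk⟩ => hna ?_
      rw [Finset.mem_image]
      refine ⟨k, ?_, hk.symm⟩
      rw [Finset.mem_range] at ha ⊢
      omega
  rw [h3, h6]
  simp only [h4]
  rw [← Finset.sum_fiberwise_of_maps_to (s := Finset.univ) (t := Finset.range (A.dim + 1))
    (g := c) (fun t _ => by
      rw [Finset.mem_range]
      have := hdual.le t
      omega)]
  refine Finset.sum_congr rfl fun k _ => ?_
  rw [Nat.card_eq_fintype_card, Fintype.card_subtype, ← Finset.sum_const]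
  refine Finset.sum_congr rfl fun t ht => ?_
  rw [(Finset.mem_filter.1 ht).2]

/-- **The Tate conjecture over finitely generated fields for products.** -/
theorem tateRankTimes (hq : 1 < q) (hR : NoRel f q (Unrelated K)) : TateRankTimes K q f := by
  classical
  intro A s hA
  obtain ⟨J, hJ, c, D, E, hF, hdual, hQ, hspan, hmain⟩ := exists_core2 hq hR hA
  refine ⟨J, hJ, c, D, hF, fun φ hφ T Y κ hY hU => ?_⟩
  have hexp := expands_chow hmain hY.chow hY.pure (chowUnrelated_of hY hU (by
    have h1 := root_one hR (1 : ℂ) (by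
      rw [map_sub, aeval_X, map_one, sub_self])
    exact h1))
  have hdim := fun j => dimM_eq hq hR hA hdual hspan hφ hU j
  have hequiv : ∀ j : ℤ, Nonempty ((∀ t, T.grN (2 * (j - c t)) (j - c t)) ≃ₗ[ℚ]
      T.grM (2 * j) j) := by
    intro j
    exact exists_equiv_deg hY.chow hdual (2 * j) j (hexp j) (fun t => 2 * (j - c t))
      fun t => by ring
  refine ⟨fun j m hm => ?_, hdim, fun n => ?_⟩
  · refine ⟨fun t => T.pair (E t) m, ⟨fun t => ?_, hexp j m hm⟩, ?_⟩
    · have h1 := hY.chow.pair_mem (c := c t) (by have := hdual.le t; omega) (hdual.right t) hm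
      rw [show 2 * (j - (c t : ℤ)) = 2 * j - 2 * c t by ring]
      exact h1
    · rintro z ⟨-, hz⟩
      funext t
      rw [hz]
      exact (pair_sum hY.chow hdual t z).symm
  · let o : ℤ → WithTop ℤ := fun j => ((Y.dimN (q ^ s) j : ℤ) : WithTop ℤ)
    let d : ℤ → ℤ := fun j => (finrank ℚ (T.grN (2 * j) j) : ℤ)
    have hN : ∀ j, RankN T Y (q ^ s) j ↔ Module.Finite ℚ (T.grN (2 * j) j) ∧
        o j = ((d j : ℤ) : WithTop ℤ) := by
      intro j
      refine and_congr_right fun _ => ?_
      change _ ↔ ((Y.dimN (q ^ s) j : ℤ) : WithTop ℤ) =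
        (((finrank ℚ (T.grN (2 * j) j) : ℤ)) : WithTop ℤ)
      rw [WithTop.coe_inj, Nat.cast_inj, eq_comm]
    have hM : ∀ j, RankM T Y φ (q ^ s) j ↔
        (∀ t, Module.Finite ℚ (T.grN (2 * (j - c t)) (j - c t))) ∧ ∑ t, o (j - c t) =
          ((∑ t, d (j - c t) : ℤ) : WithTop ℤ) := by
      intro j
      obtain ⟨e⟩ := hequiv j
      obtain ⟨hfin, hfr⟩ := finite_pi_iff e
      unfold RankM
      rw [hfin]
      refine and_congr_right fun h3 => ?_
      rw [hfr h3, hdim j]
      change _ ↔ ∑ t, ((Y.dimN (q ^ s) (j - c t) : ℤ) : WithTop ℤ) =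
        ((∑ t, ((finrank ℚ (T.grN (2 * (j - c t)) (j - c t)) : ℕ) : ℤ) : ℤ) : WithTop ℤ)
      rw [← WithTop.coe_sum, WithTop.coe_inj, ← Nat.cast_sum, ← Nat.cast_sum, Nat.cast_inj, eq_comm]
    have hneg : ∀ j < 0, Module.Finite ℚ (T.grN (2 * j) j) ∧ o j = ((d j : ℤ) : WithTop ℤ) := by
      intro j hj
      rw [← hN]
      have hbot : T.grN (2 * j) j = ⊥ := by
        rw [Submodule.eq_bot_iff]
        intro x hx
        exact hY.neg_chow j hj x hx
      have hsub := hY.neg_cohomology (2 * j) (by omega)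
      unfold RankN
      rw [hbot]
      refine ⟨inferInstance, ?_⟩
      rw [finrank_bot]
      unfold InvData.dimN eigenDim
      exact (Module.finrank_zero_of_subsingleton).symm
    have h0 : ∃ t, c t = 0 := hF.exists_eq 0 (Nat.zero_le _)
    have htri := triangularZ c h0 (fun j => Module.Finite ℚ (T.grN (2 * j) j)) o d hneg n
    constructor
    · intro h j hj
      exact (hN j).2 (htri.1 (fun j hj => (hM j).1 (h j hj)) j hj)
    · intro h j hj
      exact (hM j).2 (htri.2 (fun j hj => (hN j).1 (h j hj)) j hj)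

end

end Pool.Agent.V1168.BB
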