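import Mathlib
import Pool.Agent.V1168.BB.Defs
import Pool.Agent.V1168.UN.Diag

/-!
# The isomorphism conjectured by Tate, with finitely generated groups of classes, for products with
constant abelian varieties: definitions
-/

set_option autoImplicit false

namespace Pool.Agent.V1168.BB

open Polynomial Module Pool.Agent.Y156.L Pool.Agent.Y1.CT

/-- Groups of classes of cycles with integral coefficients. -/
structure IntegralClasses {Λ : Type} [Field Λ] {A : AbelianData Λ} (T : RelData A) where
  /-- the classes of the cycles of codimension `c` on `A`, with integral coefficients -/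
  zA : ℕ → AddSubgroup A.CH
  /-- the classes of the cycles of codimension `j` on `Y`, with integral coefficients -/
  zN : ℤ → AddSubgroup T.N
  /-- the classes of the cycles of codimension `j` on `A × Y`, with integral coefficients -/
  zM : ℤ → AddSubgroup T.M

/-- Every class with rational coefficients has a multiple with integral coefficients, and the
exterior products and push-forwards of classes with integral coefficients have integral coefficients. -/
structure IsIntegralClasses {Λ : Type} [Field Λ] {A : AbelianData Λ} {T : RelData A}
    (Z : IntegralClasses T) : Prop where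
  multiple : ∀ {c : ℕ} {x : A.CH}, A.Codim c x → ∃ n : ℕ, n ≠ 0 ∧ n • x ∈ Z.zA c
  codimN : ∀ {j : ℤ} {n : T.N}, n ∈ Z.zN j → T.DegN (2 * j) j n
  codimM : ∀ {j : ℤ} {m : T.M}, m ∈ Z.zM j → T.DegM (2 * j) j m
  mul_mem : ∀ {c : ℕ} {x : A.CH} {j : ℤ} {n : T.N}, x ∈ Z.zA c → n ∈ Z.zN j →
    T.mul x n ∈ Z.zM (j + c)
  push_mem : ∀ {c d : ℕ} {x : A.CH} {j : ℤ} {m : T.M}, c + d = A.dim → x ∈ Z.zA d →
    m ∈ Z.zM j → T.push x m ∈ Z.zN (j - c)

/-- The `ℓ`-adic cohomology `R` is a vector space over `L = ℚ_ℓ`, and products with classes of cycles
and push-forwards are `L`-linear. -/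
structure IsLinear (L : Type) [Field L] {Λ : Type} [Field Λ] {A : AbelianData Λ} (R : RelData A)
    [Module L R.N] [Module L R.M] : Prop where
  mul_smul : ∀ (x : A.CH) (a : L) (n : R.N), R.mul x (a • n) = a • R.mul x n
  push_smul : ∀ (x : A.CH) (a : L) (m : R.M), R.push x (a • m) = a • R.push x m

/-- The cycle class map `ρ` from the groups `T` of cycles modulo homological equivalence is compatible
with products and push-forwards and with the Frobenius endomorphism, and injective. -/
structure IsClassMap {Λ : Type} [Field Λ] {A : AbelianData Λ} {T R : RelData A}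
    (ρ : Regulator T R) : Prop where
  regulator : IsRegulator ρ
  frob : ∀ m : T.M, ρ.regM (T.FM m) = R.FM (ρ.regM m)
  injective : ∀ {j : ℤ} {m : T.M}, T.DegM (2 * j) j m → ρ.regM m = 0 → m = 0

/-- The data of a smooth projective variety `Y` over a field `k` finitely generated over a finite
field. -/
structure TateData {Λ : Type} [Field Λ] (A : AbelianData Λ) (L : Type) [Field L] where
  /-- the groups of cycles of `Y` and `A × Y` modulo homological equivalence, with rational
  coefficients -/
  T : RelData A
  /-- the invariants of the geometric fundamental group of a model of `k` in the `ℓ`-adic cohomology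
  groups of `Y` and `A × Y` -/
  R : RelData A
  /-- the cycle class map -/
  ρ : Regulator T R
  /-- the classes with integral coefficients -/
  Z : IntegralClasses T
  [moduleN : Module L R.N]
  [moduleM : Module L R.M]

attribute [instance] TateData.moduleN TateData.moduleM

/-- The formal properties of the data: those of the theories `T` and `R` (`IsRel`); the absolute
Frobenius endomorphism of `A × Y` acts on cycles of codimension `j` as `Q^j`; those of the cycle
class map, the vector space structure and the integral classes. -/
structure IsTateTheory {Λ : Type} [Field Λ] {A : AbelianData Λ} {L : Type} [Field L]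
    (V : TateData A L) (Q : ℕ) : Prop where
  cycles : IsRel Q V.T
  pure : UN.IsPureDiag V.T Q
  cohomology : IsRel Q V.R
  classMap : IsClassMap V.ρ
  linear : IsLinear L V.R
  integral : IsIntegralClasses V.Z

section

variable (L : Type) [Field L] {V : Type} [AddCommGroup V] [Module L V] (C : AddSubgroup V)

/-- The tensor product `L ⊗_ℤ C` for a subgroup `C` of an `L`-vector space `V`. -/
def ScalarExt : Type := TensorProduct ℤ L C

noncomputable instance : AddCommGroup (ScalarExt L C) :=
  inferInstanceAs (AddCommGroup (TensorProduct ℤ L C))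

theorem scalar_add (a b : L) (x : C) : (a + b) • (x : V) = a • (x : V) + b • (x : V) :=
  add_smul a b (x : V)

theorem scalar_int (n : ℤ) (a : L) (x : C) : (n • a) • (x : V) = n • (a • (x : V)) :=
  smul_assoc n a (x : V)

theorem scalar_add' (a : L) (x y : C) : a • ((x + y : C) : V) = a • (x : V) + a • (y : V) :=
  smul_add a (x : V) (y : V)

theorem scalar_int' (n : ℤ) (a : L) (x : C) : a • ((n • x : C) : V) = n • (a • (x : V)) :=
  smul_comm a n (x : V)

/-- The map `(a, x) ↦ a x`. -/
def scalarBilin : L →ₗ[ℤ] C →ₗ[ℤ] V :=
  LinearMap.mk₂ ℤ (fun (a : L) (x : C) => a • (x : V)) (scalar_add L C)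
    (fun n a x => scalar_int L C n a x) (scalar_add' L C) (fun n a x => scalar_int' L C n a x)

/-- The natural map `L ⊗_ℤ C → V`, which maps `a ⊗ x` to `a x`. -/
noncomputable def scalarMap : ScalarExt L C →+ V :=
  (TensorProduct.lift (scalarBilin L C)).toAddMonoidHom

/-- The natural map `L ⊗_ℤ C → V` is injective. -/
def TensorInj : Prop := Function.Injective (scalarMap L C)

/-- All elements of `V` with the property `P` are in the image of the natural map
`L ⊗_ℤ C → V`. -/
def TensorOnto (P : V → Prop) : Prop := ∀ w, P w → ∃ t, scalarMap L C t = w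

end

section

variable {Λ : Type} [Field Λ] {A : AbelianData Λ} {T R : RelData A} (ρ : Regulator T R)
  (Z : IntegralClasses T)

/-- The group `A^j(Y)` of the cohomology classes of the cycles of codimension `j` on `Y` (with integral
coefficients), a subgroup of the cohomology. -/
noncomputable def classesN (j : ℤ) : AddSubgroup R.N := (Z.zN j).map ρ.cN.toAddMonoidHom

/-- The group `A^j(A × Y)` of the cohomology classes of the cycles of codimension `j` on `A × Y`. -/
noncomputable def classesM (j : ℤ) : AddSubgroup R.M := (Z.zM j).map ρ.cM.toAddMonoidHom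

end

section

variable {Λ : Type} [Field Λ] {A : AbelianData Λ} {L : Type} [Field L] (V : TateData A L)

/-- The group `A^j(Y)` is finitely generated. -/
def FinGenN (j : ℤ) : Prop := Module.Finite ℤ (classesN V.ρ V.Z j)

/-- The group `A^j(A × Y)` is finitely generated. -/
def FinGenM (j : ℤ) : Prop := Module.Finite ℤ (classesM V.ρ V.Z j)

/-- The natural map from `A^j(Y) ⊗ L` to the cohomology is injective. -/
def TensorInjN (j : ℤ) : Prop := TensorInj L (classesN V.ρ V.Z j)

/-- The natural map from `A^j(A × Y) ⊗ L` to the cohomology is injective. -/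
def TensorInjM (j : ℤ) : Prop := TensorInj L (classesM V.ρ V.Z j)

/-- Every invariant class in `H^(2 j)(Y)(j)` is in the image of `A^j(Y) ⊗ L`. -/
def TensorOntoN (Q : ℕ) (j : ℤ) : Prop :=
  TensorOnto L (classesN V.ρ V.Z j) (V.R.InvN Q (2 * j) j)

/-- Every invariant class in `H^(2 j)(A × Y)(j)` is in the image of `A^j(A × Y) ⊗ L`. -/
def TensorOntoM (Q : ℕ) (j : ℤ) : Prop :=
  TensorOnto L (classesM V.ρ V.Z j) (V.R.InvM Q (2 * j) j)

/-- **The conjecture of Tate** for `Y` in codimension `j`: the group `A^j(Y)` is finitely generated,
and the natural map from `A^j(Y) ⊗ L` to the space of the invariants is injective and surjective. -/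
def TateIsoN (Q : ℕ) (j : ℤ) : Prop := FinGenN V j ∧ TensorInjN V j ∧ TensorOntoN V Q j

/-- **The conjecture of Tate** for `A × Y` in codimension `j`. -/
def TateIsoM (Q : ℕ) (j : ℤ) : Prop := FinGenM V j ∧ TensorInjM V j ∧ TensorOntoM V Q j

end

section

variable {I : Type} (K : I → Type) [∀ i, Field (K i)] (q : ℕ) (f : I → ℤ[X])

/-- `TateIsoTimes K q f`: for every abelian variety `A` as in `IsAbelian` over the field with
`Q = q ^ s` elements and every smooth projective variety `Y` over every field `k` finitely generated
over the field with `Q` elements, with the data `V` (cycles modulo homological equivalence, and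
geometric invariants in the cohomology) and the properties `IsTateTheory`, such that the Frobenius of
the field of constants, operating through `Y`, satisfies on each group `R^(2 j)(A × Y, j)` a nonzero
rational polynomial with roots unrelated to the fields `K i` (`DiagUnrelated`); and all `j`:

1. the group `A^j(A × Y)` is finitely generated if and only if the groups `A^(j - k)(Y)`,
  `0 ≤ k ≤ dim A`, are;
2. `A^j ⊗ L → H^(2 j)(j)` is injective for `A × Y` if and only if it is so for `Y` in the codimensions
  `j - k`, `0 ≤ k ≤ dim A`;
3. the conjecture of Tate (`TateIsoM`) holds for `A × Y` in codimension `j` if and only if it holds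
  for `Y` (`TateIsoN`) in the codimensions `j - k`, `0 ≤ k ≤ dim A`. -/
def TateIsoTimes : Prop :=
  ∀ (Λ : Type) [Field Λ] [CharZero Λ] (A : AbelianData Λ) (s : ℕ), IsAbelian A q s f →
    ∀ (L : Type) [Field L] [CharZero L] (V : TateData A L), IsTateTheory V (q ^ s) →
      UN.DiagUnrelated K V.R → ∀ j : ℤ,
        (FinGenM V j ↔ ∀ k : ℕ, k ≤ A.dim → FinGenN V (j - k)) ∧
        (TensorInjM V j ↔ ∀ k : ℕ, k ≤ A.dim → TensorInjN V (j - k)) ∧
        (TateIsoM V (q ^ s) j ↔ ∀ k : ℕ, k ≤ A.dim → TateIsoN V (q ^ s) (j - k))

end

end Pool.Agent.V1168.BB
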