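import Mathlib
import Pool.Agent.V1168.BB.Geo
import Pool.Agent.V1168.BB.IsoDefs

/-!
# The isomorphism conjectured by Tate for products with constant abelian varieties
-/

set_option autoImplicit false
set_option linter.unusedSectionVars false
set_option linter.unusedVariables false

namespace Pool.Agent.V1168.BB

open Module Polynomial Pool.Agent.Y156.L Pool.Agent.W484.HS Pool.Agent.Y1.CT Pool.Agent.V1168.UN

open scoped TensorProduct

section lattice

variable {L : Type} [Field L] [CharZero L]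

theorem nsmul_eq_zero_tensor {C : Type} [AddCommGroup C] {N : ℕ} (hN : N ≠ 0)
    {x : L ⊗[ℤ] C} (h : N • x = 0) : x = 0 := by
  have h1 : (N : L) ≠ 0 := Nat.cast_ne_zero.2 hN
  have h2 : x = (N : L)⁻¹ • (N • x) := by
    rw [← Nat.cast_smul_eq_nsmul L N x, smul_smul, inv_mul_cancel₀ h1, one_smul]
  rw [h2, h, smul_zero]

theorem nsmul_eq_zero_space {V : Type} [AddCommGroup V] [Module L V] {N : ℕ} (hN : N ≠ 0)
    {x : V} (h : N • x = 0) : x = 0 := by
  have h1 : (N : L) ≠ 0 := Nat.cast_ne_zero.2 hN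
  have h2 : x = (N : L)⁻¹ • (N • x) := by
    rw [← Nat.cast_smul_eq_nsmul L N x, smul_smul, inv_mul_cancel₀ h1, one_smul]
  rw [h2, h, smul_zero]

/-- The natural map, on the tensor product. -/
noncomputable def sMap (L : Type) [Field L] {V : Type} [AddCommGroup V] [Module L V]
    (C : AddSubgroup V) : L ⊗[ℤ] C →+ V := scalarMap L C

theorem scalarMap_tmul {V : Type} [AddCommGroup V] [Module L V] (C : AddSubgroup V) (a : L)
    (x : C) : sMap L C (a ⊗ₜ[ℤ] x) = a • (x : V) := rfl

variable {V W : Type} [AddCommGroup V] [Module L V] [AddCommGroup W] [Module L W]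

/-- The restriction of a linear map to subgroups. -/
def restr (α : V →ₗ[L] W) {C : AddSubgroup V} {C' : AddSubgroup W} (h : ∀ x ∈ C, α x ∈ C') :
    C →ₗ[ℤ] C' :=
  (((α.toAddMonoidHom.comp C.subtype).codRestrict C' fun x => h x x.2)).toIntLinearMap

theorem restr_coe (α : V →ₗ[L] W) {C : AddSubgroup V} {C' : AddSubgroup W}
    (h : ∀ x ∈ C, α x ∈ C') (x : C) : ((restr α h x : C') : W) = α x := rfl

theorem scalarMap_lTensor (α : V →ₗ[L] W) {C : AddSubgroup V} {C' : AddSubgroup W}
    (h : ∀ x ∈ C, α x ∈ C') (x : L ⊗[ℤ] C) :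
    sMap L C' (LinearMap.lTensor L (restr α h) x) = α (sMap L C x) := by
  induction x using TensorProduct.induction_on with
  | zero => simp
  | tmul a x =>
    rw [LinearMap.lTensor_tmul, scalarMap_tmul, scalarMap_tmul, restr_coe, map_smul]
  | add x y hx hy => rw [map_add, map_add, map_add, map_add, hx, hy]

variable {J : Type} [Fintype J] {C : J → AddSubgroup V} {C' : AddSubgroup W}
  {a : J → V →ₗ[L] W} {b : J → W →ₗ[L] V} {N : ℕ}

theorem lT_comp_N (ha : ∀ t, ∀ x ∈ C t, a t x ∈ C') (hb : ∀ t, ∀ x ∈ C', b t x ∈ C t)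
    (hba : ∀ t x, b t (a t x) = N • x) (t : J) (x : L ⊗[ℤ] C t) :
    LinearMap.lTensor L (restr (b t) (hb t)) (LinearMap.lTensor L (restr (a t) (ha t)) x) =
      N • x := by
  induction x using TensorProduct.induction_on with
  | zero => simp
  | tmul l x =>
    rw [LinearMap.lTensor_tmul, LinearMap.lTensor_tmul]
    have h1 : restr (b t) (hb t) (restr (a t) (ha t) x) = N • x := by
      apply Subtype.ext
      rw [restr_coe, restr_coe, hba]
      rfl
    rw [h1, TensorProduct.tmul_smul]
  | add x y hx hy => rw [map_add, map_add, hx, hy, smul_add]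

theorem lT_comp_M (ha : ∀ t, ∀ x ∈ C t, a t x ∈ C') (hb : ∀ t, ∀ x ∈ C', b t x ∈ C t)
    (hab : ∀ x ∈ C', ∑ t, a t (b t x) = N • x) (x : L ⊗[ℤ] C') :
    ∑ t, LinearMap.lTensor L (restr (a t) (ha t)) (LinearMap.lTensor L (restr (b t) (hb t)) x) =
      N • x := by
  induction x using TensorProduct.induction_on with
  | zero => simp
  | tmul l x =>
    simp only [LinearMap.lTensor_tmul]
    rw [← TensorProduct.tmul_sum]
    have h1 : ∑ t, restr (a t) (ha t) (restr (b t) (hb t) x) = N • x := by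
      apply Subtype.ext
      rw [AddSubgroup.val_finset_sum]
      simp only [restr_coe]
      rw [hab x x.2]
      rfl
    rw [h1, TensorProduct.tmul_smul]
  | add x y hx hy =>
    simp only [map_add]
    rw [Finset.sum_add_distrib, hx, hy, smul_add]

theorem finite_lattice_iff (hN : N ≠ 0) (ha : ∀ t, ∀ x ∈ C t, a t x ∈ C')
    (hb : ∀ t, ∀ x ∈ C', b t x ∈ C t) (hba : ∀ t x, b t (a t x) = N • x)
    (hab : ∀ x ∈ C', ∑ t, a t (b t x) = N • x) :
    Module.Finite ℤ C' ↔ ∀ t, Module.Finite ℤ (C t) := by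
  constructor
  · intro h t
    refine Module.Finite.of_injective (restr (a t) (ha t)) ?_
    intro x y hxy
    have h1 := congrArg (fun z => b t ((z : C') : W)) hxy
    simp only [restr_coe, hba] at h1
    have h2 : N • ((x : V) - y) = 0 := by rw [smul_sub, h1, sub_self]
    exact Subtype.ext (sub_eq_zero.1 (nsmul_eq_zero_space (L := L) hN h2))
  · intro h
    refine Module.Finite.of_injective (LinearMap.pi fun t => restr (b t) (hb t)) ?_
    intro x y hxy
    have h1 : ∀ t, b t (x : W) = b t y := fun t => congrArg Subtype.val (congrFun hxy t)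
    have h2 : N • ((x : W) - y) = 0 := by
      rw [smul_sub, ← hab x x.2, ← hab y y.2]
      simp only [h1, sub_self]
    exact Subtype.ext (sub_eq_zero.1 (nsmul_eq_zero_space (L := L) hN h2))

theorem injective_lattice_iff (hN : N ≠ 0) (ha : ∀ t, ∀ x ∈ C t, a t x ∈ C')
    (hb : ∀ t, ∀ x ∈ C', b t x ∈ C t) (hba : ∀ t x, b t (a t x) = N • x)
    (hab : ∀ x ∈ C', ∑ t, a t (b t x) = N • x) :
    Function.Injective (sMap L C') ↔ ∀ t, Function.Injective (sMap L (C t)) := by
  constructor
  · intro h t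
    rw [injective_iff_map_eq_zero] at h ⊢
    intro x hx
    have h1 := h (LinearMap.lTensor L (restr (a t) (ha t)) x) (by
      rw [scalarMap_lTensor, hx, map_zero])
    have h2 := lT_comp_N ha hb hba t x
    rw [h1, map_zero] at h2
    exact nsmul_eq_zero_tensor hN h2.symm
  · intro h
    rw [injective_iff_map_eq_zero]
    intro x hx
    have h1 : ∀ t, LinearMap.lTensor L (restr (b t) (hb t)) x = 0 := by
      intro t
      refine (injective_iff_map_eq_zero _).1 (h t) _ ?_
      rw [scalarMap_lTensor, hx, map_zero]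
    have h2 := lT_comp_M ha hb hab x
    simp only [h1, map_zero, Finset.sum_const_zero] at h2
    exact nsmul_eq_zero_tensor hN h2.symm

theorem surjective_lattice_iff (hN : N ≠ 0) (ha : ∀ t, ∀ x ∈ C t, a t x ∈ C')
    (hb : ∀ t, ∀ x ∈ C', b t x ∈ C t) (hba : ∀ t x, b t (a t x) = N • x)
    {P : J → V → Prop} {P' : W → Prop} (hP : ∀ t x, P t x → P' (a t x))
    (hP' : ∀ t x, P' x → P t (b t x)) (hPs : ∀ x, P' x → ∑ t, a t (b t x) = N • x) :
    (∀ w, P' w → ∃ x, sMap L C' x = w) ↔
      ∀ t, ∀ w, P t w → ∃ x, sMap L (C t) x = w := by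
  have hN' : (N : L) ≠ 0 := Nat.cast_ne_zero.2 hN
  have hsm : ∀ {U : Type} [AddCommGroup U] [Module L U] (D : AddSubgroup U) (l : L)
      (x : L ⊗[ℤ] D), sMap L D (l • x) = l • sMap L D x := by
    intro U _ _ D l x
    induction x using TensorProduct.induction_on with
    | zero => simp
    | tmul a x =>
      rw [TensorProduct.smul_tmul', scalarMap_tmul, scalarMap_tmul, smul_assoc]
    | add x y hx hy => rw [smul_add, map_add, map_add, hx, hy, smul_add]
  constructor
  · intro h t w hw
    obtain ⟨x, hx⟩ := h _ (hP t w hw)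
    refine ⟨(N : L)⁻¹ • LinearMap.lTensor L (restr (b t) (hb t)) x, ?_⟩
    rw [hsm, scalarMap_lTensor, hx, hba, ← Nat.cast_smul_eq_nsmul L N w, smul_smul,
      inv_mul_cancel₀ hN', one_smul]
  · intro h w hw
    choose x hx using fun t => h t _ (hP' t w hw)
    refine ⟨(N : L)⁻¹ • ∑ t, LinearMap.lTensor L (restr (a t) (ha t)) (x t), ?_⟩
    rw [hsm, map_sum]
    simp only [scalarMap_lTensor, hx]
    rw [hPs w hw, ← Nat.cast_smul_eq_nsmul L N w, smul_smul, inv_mul_cancel₀ hN', one_smul]

end lattice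

section

variable {I : Type} {K : I → Type} [∀ i, Field (K i)] {q : ℕ} {f : I → ℤ[X]}

/-- The condition for the groups of cycles. -/
theorem diagUnrelated_of {Λ : Type} [Field Λ] {A : AbelianData Λ} {T R : RelData A}
    {ρ : Regulator T R} {Q : ℕ} (hT : IsRel Q T) (hρ : IsClassMap ρ) (h : DiagUnrelated K R) :
    DiagUnrelated K T := by
  intro c
  obtain ⟨χ, h1, h2, h3⟩ := h c
  refine ⟨χ, h1, h2, fun m hm => ?_⟩
  have hpow : ∀ l : ℕ, T.DegM (2 * c) c ((T.frobM ^ l) m) ∧
      ρ.cM ((T.frobM ^ l) m) = (R.frobM ^ l) (ρ.cM m) := by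
    intro l
    induction l with
    | zero => exact ⟨hm, rfl⟩
    | succ l ih =>
      rw [pow_succ', pow_succ', Module.End.mul_apply, Module.End.mul_apply, ← ih.2]
      exact ⟨hT.frobenius.FM_mem ih.1, hρ.frob _⟩
  have h4 : ρ.cM (aeval T.frobM χ m) = aeval R.frobM χ (ρ.cM m) := by
    rw [aeval_eq_sum_range, aeval_eq_sum_range, LinearMap.sum_apply, LinearMap.sum_apply, map_sum]
    refine Finset.sum_congr rfl fun l _ => ?_
    rw [LinearMap.smul_apply, LinearMap.smul_apply, map_smul, (hpow l).2]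
  refine hρ.injective (j := c) ?_ ?_
  · rw [aeval_eq_sum_range, LinearMap.sum_apply]
    exact Submodule.sum_mem _ fun l _ => Submodule.smul_mem _ _ (hpow l).1
  · change ρ.cM (aeval T.frobM χ m) = 0
    rw [h4]
    exact h3 _ (hρ.regulator.memM hm)

/-- **The isomorphism conjectured by Tate, for products.** -/
theorem tateIsoTimes (hq : 1 < q) (hR : NoRel f q (Unrelated K)) : TateIsoTimes K q f := by
  classical
  intro Λ _ _ A s hA L _ _ V hV hK j
  obtain ⟨T, R, ρ, Z⟩ := V
  obtain ⟨hT, hpure, hR', hρ, hL, hZ⟩ := hV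
  obtain ⟨J, hJ, c, D, E, hF, hdual, hQ, hmain⟩ := exists_classes hq hR hA
  have hKT := diagUnrelated_of hT hρ hK
  have hT1 := isRel_diag hT
  have hR1 := isRel_diag hR'
  -- the expansions
  have hexpR : ∀ m : R.M, R.InvM (q ^ s) (2 * j) j m →
      m = ∑ t, R.times (D t) (R.pair (E t) m) := by
    intro m hm
    exact (hmain _ hR1 (unrelated_diag hK)).1 (2 * j) j m
      ⟨(degM_diag (T := R) j m).2 hm.1, hm.2⟩
  have hexpT : ∀ m : T.M, T.DegM (2 * j) j m → m = ∑ t, T.times (D t) (T.pair (E t) m) := by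
    intro m hm
    exact (hmain _ hT1 (unrelated_diag hKT)).1 (2 * j) j m
      (isPure_diag hpure (2 * j) j m ((degM_diag (T := T) j m).2 hm))
  -- the integral classes
  choose nD hnD hD using fun t => hZ.multiple (hdual.left t)
  choose nE hnE hE using fun t => hZ.multiple (hdual.right t)
  let N : ℕ := ∏ t, nD t * nE t
  have hN : N ≠ 0 := Finset.prod_ne_zero_iff.2 fun t _ => mul_ne_zero (hnD t) (hnE t)
  -- cofactors
  have hcof : ∀ t, ∃ k : ℕ, N = nD t * nE t * k := by
    intro t
    exact Finset.dvd_prod_of_mem _ (Finset.mem_univ t)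
  choose k hk using hcof
  let X : J → A.CH := fun t => k t • (nD t • D t)
  let Y : J → A.CH := fun t => nE t • E t
  have hX : ∀ t, X t ∈ Z.zA (c t) := fun t => AddSubgroup.nsmul_mem _ (hD t) _
  have hY : ∀ t, Y t ∈ Z.zA (A.dim - c t) := hE
  -- the maps
  let a : J → R.N →ₗ[L] R.M := fun t =>
    { toFun := fun n => R.times (X t) n
      map_add' := fun x y => map_add _ x y
      map_smul' := fun l x => hL.mul_smul (X t) l x }
  let b : J → R.M →ₗ[L] R.N := fun t =>
    { toFun := fun n => R.pair (Y t) n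
      map_add' := fun x y => map_add _ x y
      map_smul' := fun l x => hL.push_smul (Y t) l x }
  have haeq : ∀ t n, a t n = (k t * nD t) • R.times (D t) n := by
    intro t n
    change R.times (k t • (nD t • D t)) n = _
    rw [map_nsmul, map_nsmul, LinearMap.smul_apply, LinearMap.smul_apply, smul_smul]
  have hbeq : ∀ t m, b t m = nE t • R.pair (E t) m := by
    intro t m
    change R.pair (nE t • E t) m = _
    rw [map_nsmul, LinearMap.smul_apply]
  have hNt : ∀ t, nE t * (k t * nD t) = N := fun t => by rw [hk t]; ring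
  have hba : ∀ t x, b t (a t x) = N • x := by
    intro t x
    rw [hbeq, haeq, map_nsmul, dualpair hR' hdual t t x, if_pos rfl, smul_smul, hNt]
  have hab : ∀ x : R.M, x = ∑ t, R.times (D t) (R.pair (E t) x) →
      ∑ t, a t (b t x) = N • x := by
    intro x hx
    conv_rhs => rw [hx]
    rw [Finset.smul_sum]
    refine Finset.sum_congr rfl fun t _ => ?_
    rw [haeq, hbeq, map_nsmul, smul_smul, mul_comm (k t * nD t), hNt]
  have ha : ∀ t, ∀ x ∈ classesN ρ Z (j - c t), a t x ∈ classesM ρ Z j := by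
    rintro t x ⟨n, hn, rfl⟩
    refine ⟨T.mul (X t) n, ?_, hρ.regulator.mul (X t) n⟩
    have h1 := hZ.mul_mem (hX t) hn
    rwa [sub_add_cancel] at h1
  have hb : ∀ t, ∀ x ∈ classesM ρ Z j, b t x ∈ classesN ρ Z (j - c t) := by
    rintro t x ⟨m, hm, rfl⟩
    exact ⟨T.push (Y t) m, hZ.push_mem (by have := hdual.le t; omega) (hY t) hm,
      hρ.regulator.push (Y t) m⟩
  have hab' : ∀ x ∈ classesM ρ Z j, ∑ t, a t (b t x) = N • x := by
    rintro x ⟨m, hm, rfl⟩
    refine hab _ ?_
    change ρ.cM m = _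
    conv_lhs => rw [hexpT m (hZ.codimM hm)]
    rw [map_sum]
    refine Finset.sum_congr rfl fun t _ => ?_
    have h1 : ρ.cM (T.times (D t) (T.pair (E t) m)) = R.times (D t) (ρ.cN (T.pair (E t) m)) :=
      hρ.regulator.mul _ _
    have h2 : ρ.cN (T.pair (E t) m) = R.pair (E t) (ρ.cM m) := hρ.regulator.push _ _
    rw [h1, h2]
    rfl
  -- the invariants
  have hPa : ∀ t x, R.InvN (q ^ s) (2 * (j - c t)) (j - c t) x →
      R.InvM (q ^ s) (2 * j) j (a t x) := by
    intro t x hx
    have h1 := inv_times hQ hR' (hdual.left t) hx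
    rw [show 2 * (j - (c t : ℤ)) + 2 * c t = 2 * j by ring, sub_add_cancel] at h1
    rw [haeq]
    exact (mem_invSub (T := R)).1 ((invSub R (q ^ s) (2 * j) j).nsmul_mem h1 _)
  have hPb : ∀ t x, R.InvM (q ^ s) (2 * j) j x →
      R.InvN (q ^ s) (2 * (j - c t)) (j - c t) (b t x) := by
    intro t x hx
    have h1 := inv_pair hQ hR' hdual hx (hexpR x hx) t
    rw [invN_iff] at h1 ⊢
    rw [hbeq, show 2 * (j - (c t : ℤ)) = 2 * j - 2 * c t by ring]
    refine ⟨Submodule.smul_of_tower_mem _ _ h1.1, ?_⟩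
    rw [map_nsmul, h1.2, smul_comm]
  have hswap : ∀ P : ℤ → Prop, (∀ t, P (j - c t)) ↔ ∀ k : ℕ, k ≤ A.dim → P (j - k) := by
    intro P
    constructor
    · intro h k hk
      obtain ⟨t, rfl⟩ := hF.exists_eq k hk
      exact h t
    · intro h t
      exact h _ (hdual.le t)
  have hfin := (finite_lattice_iff (L := L) hN ha hb hba hab').trans
    (hswap fun i => Module.Finite ℤ (classesN ρ Z i))
  have hinj := (injective_lattice_iff (L := L) hN ha hb hba hab').trans
    (hswap fun i => Function.Injective (sMap L (classesN ρ Z i)))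
  have hsur := (surjective_lattice_iff (L := L) hN ha hb hba hPa hPb
    (fun x hx => hab x (hexpR x hx))).trans
    (hswap fun i => ∀ w : R.N, R.InvN (q ^ s) (2 * i) i w →
      ∃ t, sMap L (classesN ρ Z i) t = w)
  refine ⟨hfin, hinj, ?_⟩
  refine (and_congr hfin (and_congr hinj hsur)).trans ?_
  constructor
  · rintro ⟨h1, h2, h3⟩ k hk
    exact ⟨h1 k hk, h2 k hk, h3 k hk⟩
  · intro h
    exact ⟨fun k hk => (h k hk).1, fun k hk => (h k hk).2.1, fun k hk => (h k hk).2.2⟩

end

end Pool.Agent.V1168.BB
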