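import Mathlib
import Pool.Agent.Y156.L.Props
import Pool.Agent.Y1.CT.UnrelDefs

/-!
# The conjectures of Murre for products with constant abelian varieties: definitions
-/

set_option autoImplicit false

namespace Pool.Agent.V1168.BB

open Polynomial Module Pool.Agent.Y156.L Pool.Agent.Y1.CT

section decomposition

variable {Λ : Type} [Field Λ] {C H : Type} [Ring C] [AddCommGroup H] [Module Λ H]

/-- **Chow–Künneth decomposition** of a variety of dimension `d`, with the ring `C` of correspondences,
which operates on the cohomology `H`, the sum of the groups `gr m`: mutually orthogonal idempotent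
correspondences `π 0, …, π (2 d)` with the sum one, such that `π i` acts as the identity on `gr i` and as
zero on `gr m` for `m ≠ i` (and `π i = 0` for `i > 2 d`). -/
structure IsDecomposition (coh : C →+* Module.End Λ H) (gr : ℕ → Submodule Λ H) (d : ℕ)
    (π : ℕ → C) : Prop where
  idem : ∀ i, π i * π i = π i
  orthogonal : ∀ i j, i ≠ j → π i * π j = 0
  sum : ∑ i ∈ Finset.range (2 * d + 1), π i = 1
  zero : ∀ i, 2 * d < i → π i = 0
  id_on : ∀ i, ∀ v ∈ gr i, coh (π i) v = v
  zero_on : ∀ i j, i ≠ j → ∀ v ∈ gr j, coh (π i) v = 0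

end decomposition

section filtration

variable {C N : Type} [Ring C] [AddCommGroup N] [Module ℚ N]

/-- The sum of the operators given by `π 0, …, π (k - 1)`. -/
noncomputable def partialSum (act : C →+* Module.End ℚ N) (π : ℕ → C) (k : ℕ) : Module.End ℚ N :=
  ∑ j ∈ Finset.range k, act (π j)

/-- The filtration `F^ν CH^n = (π^(2 n - ν) + ⋯ + π^0)_* CH^n` of the group `CH^n = CH`. -/
noncomputable def murreFilt (act : C →+* Module.End ℚ N) (π : ℕ → C) (CH : Submodule ℚ N)
    (n ν : ℤ) : Submodule ℚ N :=
  CH.map (partialSum act π (2 * n - ν + 1).toNat)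

/-- Murre's conjecture (B) for `CH^n = CH`: `F^0 CH^n = CH^n` and `F^(n + 1) CH^n = 0`. -/
def MurreB (act : C →+* Module.End ℚ N) (π : ℕ → C) (CH : Submodule ℚ N) (n : ℤ) : Prop :=
  murreFilt act π CH n 0 = CH ∧ murreFilt act π CH n (n + 1) = ⊥

/-- Murre's conjecture (D) for `CH^n = CH`: `F^1 CH^n` is the group of the elements of `CH^n` with the
property `Hom` (which are homologically trivial). -/
def MurreD (act : C →+* Module.End ℚ N) (π : ℕ → C) (CH : Submodule ℚ N) (Hom : N → Prop)
    (n : ℤ) : Prop :=
  ∀ x, x ∈ murreFilt act π CH n 1 ↔ x ∈ CH ∧ Hom x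

end filtration

section kunneth

variable {Λ : Type} [Field Λ] (A : AbelianData Λ) (H : Type) [AddCommGroup H] [Module Λ H]

/-- The cohomology of `A × Y`, the tensor product of the cohomology of `A` with the cohomology `H` of
`Y` (Künneth formula). -/
def KunnethH : Type := TensorProduct Λ A.H H

noncomputable instance : AddCommGroup (KunnethH A H) :=
  inferInstanceAs (AddCommGroup (TensorProduct Λ A.H H))

noncomputable instance : Module Λ (KunnethH A H) :=
  inferInstanceAs (Module Λ (TensorProduct Λ A.H H))

variable {A H}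

/-- The element `x ⊗ y`. -/
def tens (x : A.H) (y : H) : KunnethH A H := TensorProduct.tmul Λ x y

/-- The group `H^a(A) ⊗ V` for a subspace `V` of `H`, in `H(A) ⊗ H`. Here `H^a(A) = H^1(A)^a`. -/
noncomputable def kunnethPart (a : ℕ) (V : Submodule Λ H) : Submodule Λ (KunnethH A H) :=
  Submodule.span Λ {w | ∃ x ∈ A.H1 ^ a, ∃ y ∈ V, w = tens x y}

end kunneth

/-- Data of the correspondences and the cohomology of `Y` and `A × Y`. -/
structure CorrData {Λ : Type} [Field Λ] {A : AbelianData Λ} (T : RelData A) where
  /-- the ring of correspondences `CH^d(Y × Y)`, with rational coefficients -/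
  CY : Type
  [ringY : Ring CY]
  /-- the ring of correspondences of `A × Y` -/
  CM : Type
  [ringM : Ring CM]
  /-- the cohomology of `Y` -/
  H : Type
  [groupH : AddCommGroup H]
  [moduleH : Module Λ H]
  /-- the group `H^m(Y)` -/
  grH : ℕ → Submodule Λ H
  /-- the cycle class map of `Y` -/
  clN : T.N →+ H
  /-- the cycle class map of `A × Y` -/
  clM : T.M →+ KunnethH A H
  /-- the operation of the correspondences of `Y` on the Chow groups -/
  actN : CY →+* Module.End ℚ T.N
  /-- the operation of the correspondences of `A × Y` on the Chow groups -/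
  actM : CM →+* Module.End ℚ T.M
  /-- the operation of the correspondences of `Y` on the cohomology -/
  cohN : CY →+* Module.End Λ H
  /-- the operation of the correspondences of `A × Y` on the cohomology -/
  cohM : CM →+* Module.End Λ (KunnethH A H)
  /-- the exterior product of correspondences of `A` and `Y` -/
  ext : A.Corr → CY → CM
  /-- the operation of the correspondences of `A` on the Chow ring of `A` -/
  actA : A.Corr → A.CH → A.CH
  /-- the Chow–Künneth projectors of `A` of Deninger and Murre -/
  piA : ℕ → A.Corr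

attribute [instance] CorrData.ringY CorrData.ringM CorrData.groupH CorrData.moduleH

section

variable {Λ : Type} [Field Λ] {A : AbelianData Λ} {T : RelData A} (V : CorrData T)

/-- The group `H^m(A × Y)`, the sum of the `H^a(A) ⊗ H^b(Y)`, `a + b = m`; `H^a(A) = H^1(A)^a`. -/
noncomputable def CorrData.grM (m : ℕ) : Submodule Λ (KunnethH A V.H) :=
  ⨆ p ∈ Finset.HasAntidiagonal.antidiagonal m, kunnethPart p.1 (V.grH p.2)

/-- The operation of a correspondence of `Y` on the Chow groups. -/
def CorrData.opN (Δ : V.CY) (n : T.N) : T.N := V.actN Δ n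

/-- The operation of a correspondence of `A × Y` on the Chow groups. -/
def CorrData.opM (Δ : V.CM) (m : T.M) : T.M := V.actM Δ m

/-- The class of a cycle on `Y`. -/
def CorrData.classN (n : T.N) : V.H := V.clN n

/-- The class of a cycle on `A × Y`. -/
noncomputable def CorrData.classM (m : T.M) : KunnethH A V.H := V.clM m

/-- The operation of a correspondence of `Y` on the cohomology. -/
def CorrData.cohOpN (Δ : V.CY) (y : V.H) : V.H := V.cohN Δ y

/-- The operation of a correspondence of `A × Y` on the cohomology. -/
noncomputable def CorrData.cohOpM (Δ : V.CM) (w : KunnethH A V.H) : KunnethH A V.H := V.cohM Δ w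

/-- The product of the Chow–Künneth decomposition of `A` with `πY`:
`π^m = ∑ π_A^a × π_Y^b`, `a + b = m`. -/
def CorrData.prodDec (πY : ℕ → V.CY) (m : ℕ) : V.CM :=
  ∑ p ∈ Finset.HasAntidiagonal.antidiagonal m, V.ext (V.piA p.1) (πY p.2)

/-- The exterior product of correspondences is bilinear and compatible with compositions. -/
structure IsExt : Prop where
  one : V.ext 1 1 = 1
  mul : ∀ Γ Γ' Δ Δ', V.ext (Γ * Γ') (Δ * Δ') = V.ext Γ Δ * V.ext Γ' Δ'
  add_left : ∀ Γ Γ' Δ, V.ext (Γ + Γ') Δ = V.ext Γ Δ + V.ext Γ' Δ
  add_right : ∀ Γ Δ Δ', V.ext Γ (Δ + Δ') = V.ext Γ Δ + V.ext Γ Δ'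

/-- The operation of an exterior product on a product of cycles. -/
def ActExt : Prop :=
  ∀ Γ Δ x n, V.opM (V.ext Γ Δ) (T.mul x n) = T.mul (V.actA Γ x) (V.opN Δ n)

/-- The operation of an exterior product on the cohomology. -/
def CohExt : Prop :=
  ∀ Γ Δ x y, V.cohOpM (V.ext Γ Δ) (tens x y) = tens (A.act Γ x) (V.cohOpN Δ y)

/-- The class of a product of cycles. -/
def ClassMul : Prop := ∀ x n, V.classM (T.mul x n) = tens (A.cl x) (V.classN n)

/-- The formal properties of correspondences and cycle classes of products. -/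
structure IsCorrData : Prop where
  ext : IsExt V
  actN_mem : ∀ (Δ : V.CY) {j : ℤ} {n : T.N}, T.DegN (2 * j) j n → T.DegN (2 * j) j (V.opN Δ n)
  actM_ext : ActExt V
  cohM_ext : CohExt V
  clM_mul : ClassMul V

/-- The `piA a` are a Chow–Künneth decomposition of `A`, and `piA a` acts as the identity (`a = 2 c`) or
as zero (`a ≠ 2 c`) on the products of `c` divisor classes (which are symmetric, as `A` is defined over
a finite field). -/
structure IsDeningerMurre : Prop where
  decomposition : IsDecomposition A.act (fun a => A.H1 ^ a) A.dim V.piA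
  divisors : ∀ {c : ℕ} {x : A.CH}, A.IsDivisorProduct c x → ∀ a : ℕ,
    V.actA (V.piA a) x = if a = 2 * c then x else 0

variable (πY : ℕ → V.CY)

/-- The filtration of `CH^n(Y)` given by the decomposition `πY` of `Y`. -/
noncomputable def CorrData.filtN (n ν : ℤ) : Submodule ℚ T.N :=
  murreFilt V.actN πY (T.grN (2 * n) n) n ν

/-- The filtration of `CH^n(A × Y)` given by the product decomposition. -/
noncomputable def CorrData.filtM (n ν : ℤ) : Submodule ℚ T.M :=
  murreFilt V.actM (V.prodDec πY) (T.grM (2 * n) n) n ν

/-- Murre's conjecture (B) for `CH^n(Y)`. -/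
def CorrData.BN (n : ℤ) : Prop := MurreB V.actN πY (T.grN (2 * n) n) n

/-- Murre's conjecture (B) for `CH^n(A × Y)` and the product decomposition. -/
def CorrData.BM (n : ℤ) : Prop := MurreB V.actM (V.prodDec πY) (T.grM (2 * n) n) n

/-- Murre's conjecture (D) for `CH^n(Y)`. -/
def CorrData.DN (n : ℤ) : Prop := MurreD V.actN πY (T.grN (2 * n) n) (fun x => V.classN x = 0) n

/-- Murre's conjecture (D) for `CH^n(A × Y)` and the product decomposition. -/
def CorrData.DM (n : ℤ) : Prop :=
  MurreD V.actM (V.prodDec πY) (T.grM (2 * n) n) (fun x => V.classM x = 0) n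

end

section

variable {Λ : Type} [Field Λ] {A : AbelianData Λ}

/-- The absolute Frobenius endomorphism of `A × Y` acts on `CH^j(A × Y)` as multiplication by
`Q ^ j`. -/
def PureCycles (T : RelData A) (Q : ℕ) : Prop :=
  ∀ (j : ℤ) (m : T.M), T.DegM (2 * j) j m → T.InvM Q (2 * j) j m

/-- The Frobenius endomorphism of `Y` satisfies on each group `CH^j(A × Y)` a nonzero rational
polynomial all of whose complex roots are unrelated to the fields `K i`. -/
def CyclesUnrelated {I : Type} (K : I → Type) [∀ i, Field (K i)] (T : RelData A) : Prop :=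
  ∀ j : ℤ, ∃ χ : ℚ[X], χ ≠ 0 ∧ (∀ ρ : ℂ, aeval ρ χ = 0 → Unrelated K ρ) ∧
    ∀ m, T.DegM (2 * j) j m → aeval T.frobM χ m = 0

/-- The formal properties of the Chow groups and the correspondences of a variety `Y` over a field
which contains the field with `Q` elements, and of `A × Y`. -/
structure IsMurreTheory {T : RelData A} (V : CorrData T) (Q : ℕ) : Prop where
  chow : IsRel Q T
  pure : PureCycles T Q
  correspondences : IsCorrData V
  projectors : IsDeningerMurre V

/-- The conclusion, for a Chow–Künneth decomposition `πY` of `Y`, of dimension `d`: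

1. the products `π^m = ∑ π_A^a × π_Y^b` are a Chow–Künneth decomposition of `A × Y`;
2. the elements of `F^ν CH^n(A × Y)` are the sums of the products of the `D t` with elements of
  `F^ν CH^(n - c t)(Y)`;
3. Murre's conjecture (B) holds for `A × Y` and all `n ≤ m` if and only if it does for `Y`;
4. Murre's conjecture (D) holds for `CH^n(A × Y)` if and only if it holds for the `CH^(n - k)(Y)`,
  `0 ≤ k ≤ dim A`. -/
structure MurreConclusion {T : RelData A} (V : CorrData T) {J : Type} [Fintype J] (c : J → ℕ)
    (D : J → A.CH) (d : ℕ) (πY : ℕ → V.CY) : Prop where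
  decomposition : IsDecomposition V.cohM V.grM (A.dim + d) (V.prodDec πY)
  filtration : ∀ n ν x, x ∈ V.filtM πY n ν ↔
    ∃ z : J → T.N, (∀ t, z t ∈ V.filtN πY (n - c t) ν) ∧ x = ∑ t, T.mul (D t) (z t)
  conjectureB : ∀ m : ℤ, (∀ n ≤ m, V.BM πY n) ↔ ∀ n ≤ m, V.BN πY n
  conjectureD : ∀ n : ℤ, V.DM πY n ↔ ∀ k : ℕ, k ≤ A.dim → V.DN πY (n - k)

end

section

variable {I : Type} (K : I → Type) [∀ i, Field (K i)] (q : ℕ) (f : I → ℤ[X])

/-- `MurreTimes K q f`: for every abelian variety `A` as in `IsAbelian` over the field with
`Q = q ^ s` elements there are finitely many products `D t` of `c t` divisor classes on `A`, such that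
for every smooth projective variety `Y` over every field `k` which contains the field with `Q`
elements, with the properties `IsMurreTheory`, such that the absolute Frobenius endomorphism of `Y`
satisfies on each `CH^j(A × Y)` a nonzero rational polynomial with roots unrelated to the
fields `K i` (`CyclesUnrelated`): every element of `CH^n(A × Y)` is in a unique way the sum of the products
of the `D t` with elements of `CH^(n - c t)(Y)`, and `MurreConclusion` holds for every Chow–Künneth
decomposition of `Y`. -/
def MurreTimes : Prop :=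
  ∀ (Λ : Type) [Field Λ] [CharZero Λ] (A : AbelianData Λ) (s : ℕ), IsAbelian A q s f →
    ∃ (J : Type) (_ : Fintype J) (c : J → ℕ) (D : J → A.CH), IsFamily A c D ∧
      ∀ (T : RelData A) (V : CorrData T), IsMurreTheory V (q ^ s) → CyclesUnrelated K T →
        (∀ (n : ℤ) (x : T.M), T.DegM (2 * n) n x → ∃! z : J → T.N,
          (∀ t, T.DegN (2 * (n - c t)) (n - c t) (z t)) ∧ x = ∑ t, T.mul (D t) (z t)) ∧
        ∀ (d : ℕ) (πY : ℕ → V.CY), IsDecomposition V.cohN V.grH d πY →
          MurreConclusion V c D d πY

end

end Pool.Agent.V1168.BB
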