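import Mathlib
import Pool.Agent.V1168.BB.MurreDefs
import Pool.Agent.V1168.UN.Diag

/-!
# The conjectures of Murre for products with constant abelian varieties
-/

set_option autoImplicit false
set_option linter.unusedSectionVars false
set_option linter.unusedVariables false

namespace Pool.Agent.V1168.BB

open Module Polynomial Pool.Agent.Y156.L Pool.Agent.W484.HS Pool.Agent.Y1.CT Pool.Agent.V1168.UN

open scoped TensorProduct

section decomposition

variable {Λ : Type} [Field Λ] {A : AbelianData Λ} {T : RelData A} {V : CorrData T}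
  {πY : ℕ → V.CY} {d : ℕ}

theorem ext_zero_left (hV : IsCorrData V) (Δ : V.CY) : V.ext 0 Δ = 0 := by
  have h := hV.ext.add_left 0 0 Δ
  rw [add_zero] at h
  exact left_eq_add.1 h

theorem ext_zero_right (hV : IsCorrData V) (Γ : A.Corr) : V.ext Γ 0 = 0 := by
  have h := hV.ext.add_right Γ 0 0
  rw [add_zero] at h
  exact left_eq_add.1 h

theorem ext_sum_left (hV : IsCorrData V) (s : Finset ℕ) (F : ℕ → A.Corr) (Δ : V.CY) :
    V.ext (∑ a ∈ s, F a) Δ = ∑ a ∈ s, V.ext (F a) Δ := by
  classical
  induction s using Finset.induction_on with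
  | empty => rw [Finset.sum_empty, Finset.sum_empty, ext_zero_left hV]
  | insert a s ha ih => rw [Finset.sum_insert ha, Finset.sum_insert ha, hV.ext.add_left, ih]

theorem ext_sum_right (hV : IsCorrData V) (s : Finset ℕ) (F : ℕ → V.CY) (Γ : A.Corr) :
    V.ext Γ (∑ a ∈ s, F a) = ∑ a ∈ s, V.ext Γ (F a) := by
  classical
  induction s using Finset.induction_on with
  | empty => rw [Finset.sum_empty, Finset.sum_empty, ext_zero_right hV]
  | insert a s ha ih => rw [Finset.sum_insert ha, Finset.sum_insert ha, hV.ext.add_right, ih]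

theorem ext_mul_piece (hV : IsCorrData V)
    (hA : IsDecomposition A.act (fun a => A.H1 ^ a) A.dim V.piA)
    (hπ : IsDecomposition V.cohN V.grH d πY) (p p' : ℕ × ℕ) :
    V.ext (V.piA p.1) (πY p.2) * V.ext (V.piA p'.1) (πY p'.2) =
      if p = p' then V.ext (V.piA p.1) (πY p.2) else 0 := by
  have h0 : V.ext (V.piA p.1 * V.piA p'.1) (πY p.2 * πY p'.2) =
      V.ext (V.piA p.1) (πY p.2) * V.ext (V.piA p'.1) (πY p'.2) := hV.ext.mul _ _ _ _
  rw [← h0]
  by_cases h : p = p'
  · subst h
    rw [if_pos rfl, hA.idem, hπ.idem]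
  · rw [if_neg h]
    by_cases h1 : p.1 = p'.1
    · have h2 : p.2 ≠ p'.2 := fun h2 => h (Prod.ext h1 h2)
      rw [hπ.orthogonal _ _ h2, ext_zero_right hV]
    · rw [hA.orthogonal _ _ h1, ext_zero_left hV]

theorem prodDec_mul (hV : IsCorrData V)
    (hA : IsDecomposition A.act (fun a => A.H1 ^ a) A.dim V.piA)
    (hπ : IsDecomposition V.cohN V.grH d πY) (m m' : ℕ) :
    V.prodDec πY m * V.prodDec πY m' = if m = m' then V.prodDec πY m else 0 := by
  unfold CorrData.prodDec
  rw [Finset.sum_mul_sum]
  simp only [ext_mul_piece hV hA hπ]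
  by_cases h : m = m'
  · subst h
    rw [if_pos rfl]
    refine Finset.sum_congr rfl fun p hp => ?_
    rw [Finset.sum_ite_eq, if_pos hp]
  · rw [if_neg h]
    refine Finset.sum_eq_zero fun p hp => Finset.sum_eq_zero fun p' hp' => ?_
    rw [if_neg]
    rintro rfl
    rw [Finset.HasAntidiagonal.mem_antidiagonal] at hp hp'
    exact h (hp.symm.trans hp')

theorem prodDec_sum (hV : IsCorrData V)
    (hA : IsDecomposition A.act (fun a => A.H1 ^ a) A.dim V.piA)
    (hπ : IsDecomposition V.cohN V.grH d πY) :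
    ∑ m ∈ Finset.range (2 * (A.dim + d) + 1), V.prodDec πY m = 1 := by
  classical
  let S : Finset (ℕ × ℕ) := Finset.range (2 * A.dim + 1) ×ˢ Finset.range (2 * d + 1)
  have h1 : ∑ p ∈ S, V.ext (V.piA p.1) (πY p.2) = 1 := by
    rw [Finset.sum_product]
    have h2 : ∀ a, ∑ b ∈ Finset.range (2 * d + 1), V.ext (V.piA a) (πY b) =
        V.ext (V.piA a) 1 := by
      intro a
      rw [← ext_sum_right hV, hπ.sum]
    simp only [h2]
    have h3 : ∑ a ∈ Finset.range (2 * A.dim + 1), V.ext (V.piA a) 1 =
        V.ext (∑ a ∈ Finset.range (2 * A.dim + 1), V.piA a) 1 := by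
      rw [ext_sum_left hV]
    rw [h3, hA.sum]
    exact hV.ext.one
  rw [← h1, ← Finset.sum_fiberwise_of_maps_to (s := S)
    (t := Finset.range (2 * (A.dim + d) + 1)) (g := fun p => p.1 + p.2) (by
      intro p hp
      rw [Finset.mem_product, Finset.mem_range, Finset.mem_range] at hp
      rw [Finset.mem_range]
      omega)]
  refine Finset.sum_congr rfl fun m _ => ?_
  unfold CorrData.prodDec
  symm
  refine Finset.sum_subset ?_ ?_
  · intro p hp
    rw [Finset.HasAntidiagonal.mem_antidiagonal]
    exact (Finset.mem_filter.1 hp).2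
  · intro p hp hnp
    rw [Finset.HasAntidiagonal.mem_antidiagonal] at hp
    have h4 : p ∉ S := fun h => hnp (Finset.mem_filter.2 ⟨h, hp⟩)
    rw [Finset.mem_product, Finset.mem_range, Finset.mem_range, not_and_or] at h4
    rcases h4 with h4 | h4
    · rw [hA.zero _ (by omega), ext_zero_left hV]
    · rw [hπ.zero _ (by omega), ext_zero_right hV]

theorem coh_piece (hV : IsCorrData V)
    (hA : IsDecomposition A.act (fun a => A.H1 ^ a) A.dim V.piA)
    (hπ : IsDecomposition V.cohN V.grH d πY) (p p' : ℕ × ℕ) {x : A.H} (hx : x ∈ A.H1 ^ p.1)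
    {y : V.H} (hy : y ∈ V.grH p.2) :
    V.cohM (V.ext (V.piA p'.1) (πY p'.2)) (tens x y) = if p' = p then tens x y else 0 := by
  have h0 : V.cohM (V.ext (V.piA p'.1) (πY p'.2)) (tens x y) =
      tens (A.act (V.piA p'.1) x) (V.cohN (πY p'.2) y) := hV.cohM_ext _ _ _ _
  rw [h0]
  by_cases h : p' = p
  · subst h
    rw [if_pos rfl, hA.id_on _ x hx, hπ.id_on _ y hy]
  · rw [if_neg h]
    by_cases h1 : p'.1 = p.1
    · have h2 : p'.2 ≠ p.2 := fun h2 => h (Prod.ext h1 h2)
      rw [hπ.zero_on _ _ h2 y hy]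
      exact TensorProduct.tmul_zero _ _
    · rw [hA.zero_on _ _ h1 x hx]
      exact TensorProduct.zero_tmul _ _

theorem isDecomposition_prod (hV : IsCorrData V)
    (hA : IsDecomposition A.act (fun a => A.H1 ^ a) A.dim V.piA)
    (hπ : IsDecomposition V.cohN V.grH d πY) :
    IsDecomposition V.cohM V.grM (A.dim + d) (V.prodDec πY) where
  idem := by
    intro i
    rw [prodDec_mul hV hA hπ, if_pos rfl]
  orthogonal := by
    intro i j hij
    rw [prodDec_mul hV hA hπ, if_neg hij]
  sum := prodDec_sum hV hA hπ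
  zero := by
    intro i hi
    unfold CorrData.prodDec
    refine Finset.sum_eq_zero fun p hp => ?_
    rw [Finset.HasAntidiagonal.mem_antidiagonal] at hp
    rcases lt_or_ge (2 * A.dim) p.1 with h | h
    · rw [hA.zero _ h, ext_zero_left hV]
    · rw [hπ.zero _ (by omega), ext_zero_right hV]
  id_on := by
    intro i v hv
    have h1 : V.grM i ≤ LinearMap.ker (V.cohM (V.prodDec πY i) - 1) := by
      refine iSup₂_le fun p hp => Submodule.span_le.2 ?_
      rintro _ ⟨x, hx, y, hy, rfl⟩
      rw [SetLike.mem_coe, LinearMap.mem_ker, LinearMap.sub_apply, Module.End.one_apply,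
        sub_eq_zero]
      unfold CorrData.prodDec
      rw [map_sum, LinearMap.sum_apply, Finset.sum_congr rfl fun p' _ =>
        coh_piece hV hA hπ p p' hx hy, Finset.sum_ite_eq', if_pos hp]
    have h2 := h1 hv
    rwa [LinearMap.mem_ker, LinearMap.sub_apply, Module.End.one_apply, sub_eq_zero] at h2
  zero_on := by
    intro i j hij v hv
    have h1 : V.grM j ≤ LinearMap.ker (V.cohM (V.prodDec πY i)) := by
      refine iSup₂_le fun p hp => Submodule.span_le.2 ?_
      rintro _ ⟨x, hx, y, hy, rfl⟩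
      rw [SetLike.mem_coe, LinearMap.mem_ker]
      unfold CorrData.prodDec
      rw [map_sum, LinearMap.sum_apply, Finset.sum_congr rfl fun p' _ =>
        coh_piece hV hA hπ p p' hx hy]
      refine Finset.sum_eq_zero fun p' hp' => ?_
      rw [if_neg]
      rintro rfl
      rw [Finset.HasAntidiagonal.mem_antidiagonal] at hp hp'
      exact hij (hp'.symm.trans hp)
    exact h1 hv

end decomposition

section filtration

variable {Λ : Type} [Field Λ] {C H N : Type} [Ring C] [AddCommGroup H] [Module Λ H]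
  [AddCommGroup N] [Module ℚ N] {coh : C →+* Module.End Λ H} {gr : ℕ → Submodule Λ H} {d : ℕ}
  {π : ℕ → C} {act : C →+* Module.End ℚ N}

theorem partialSum_mul (h : IsDecomposition coh gr d π) {k k' : ℕ} (hk : k ≤ k') :
    partialSum act π k' * partialSum act π k = partialSum act π k := by
  unfold partialSum
  rw [Finset.sum_mul_sum, Finset.sum_comm]
  refine Finset.sum_congr rfl fun i hi => ?_
  rw [Finset.sum_eq_single i]
  · rw [← map_mul, h.idem]
  · intro j _ hj
    rw [← map_mul, h.orthogonal _ _ hj, map_zero]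
  · intro hi'
    rw [Finset.mem_range] at hi hi'
    omega

theorem mem_murreFilt (h : IsDecomposition coh gr d π) {CH : Submodule ℚ N}
    (hCH : ∀ i, ∀ x ∈ CH, act (π i) x ∈ CH) {n ν : ℤ} {x : N} :
    x ∈ murreFilt act π CH n ν ↔
      x ∈ CH ∧ partialSum act π (2 * n - ν + 1).toNat x = x := by
  constructor
  · rintro ⟨y, hy, rfl⟩
    refine ⟨?_, ?_⟩
    · unfold partialSum
      rw [LinearMap.sum_apply]
      exact Submodule.sum_mem _ fun i _ => hCH i y hy
    · rw [← Module.End.mul_apply, partialSum_mul h le_rfl]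
  · rintro ⟨h1, h2⟩
    exact ⟨x, h1, h2⟩

theorem murreFilt_anti (h : IsDecomposition coh gr d π) {CH : Submodule ℚ N}
    (hCH : ∀ i, ∀ x ∈ CH, act (π i) x ∈ CH) {n ν ν' : ℤ} (hν : ν ≤ ν') {x : N}
    (hx : x ∈ murreFilt act π CH n ν') : x ∈ murreFilt act π CH n ν := by
  rw [mem_murreFilt h hCH] at hx ⊢
  refine ⟨hx.1, ?_⟩
  have h1 : (2 * n - ν' + 1).toNat ≤ (2 * n - ν + 1).toNat := by omega
  rw [← hx.2, ← Module.End.mul_apply, partialSum_mul h h1]

end filtration

section product

variable {Λ : Type} [Field Λ] {A : AbelianData Λ} {T : RelData A} {V : CorrData T}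
  {πY : ℕ → V.CY} {d : ℕ}

theorem actM_prodDec (hV : IsCorrData V) (hD : IsDeningerMurre V) {c : ℕ} {x : A.CH}
    (hx : A.IsDivisorProduct c x) (m : ℕ) (n : T.N) :
    V.actM (V.prodDec πY m) (T.times x n) =
      if 2 * c ≤ m then T.times x (V.actN (πY (m - 2 * c)) n) else 0 := by
  have h1 : ∀ p : ℕ × ℕ, V.actM (V.ext (V.piA p.1) (πY p.2)) (T.times x n) =
      if p.1 = 2 * c then T.times x (V.actN (πY p.2) n) else 0 := by
    intro p
    have h2 := hV.actM_ext (V.piA p.1) (πY p.2) x n
    rw [hD.divisors hx] at h2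
    refine h2.trans ?_
    change T.times (if p.1 = 2 * c then x else 0) (V.actN (πY p.2) n) = _
    by_cases h3 : p.1 = 2 * c
    · rw [if_pos h3, if_pos h3]
    · rw [if_neg h3, if_neg h3, map_zero, LinearMap.zero_apply]
  unfold CorrData.prodDec
  rw [map_sum, LinearMap.sum_apply, Finset.sum_congr rfl fun p _ => h1 p]
  by_cases h : 2 * c ≤ m
  · rw [if_pos h, Finset.sum_eq_single (2 * c, m - 2 * c)]
    · rw [if_pos rfl]
    · rintro ⟨a, b⟩ hp hne
      rw [Finset.HasAntidiagonal.mem_antidiagonal] at hp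
      rw [if_neg]
      intro h2
      change a = 2 * c at h2
      change a + b = m at hp
      apply hne
      rw [Prod.mk.injEq]
      omega
    · intro h2
      exfalso
      apply h2
      rw [Finset.HasAntidiagonal.mem_antidiagonal]
      change 2 * c + (m - 2 * c) = m
      omega
  · rw [if_neg h]
    refine Finset.sum_eq_zero fun p hp => ?_
    rw [Finset.HasAntidiagonal.mem_antidiagonal] at hp
    rw [if_neg (by omega)]

theorem partialSum_times (hV : IsCorrData V) (hD : IsDeningerMurre V) {c : ℕ} {x : A.CH}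
    (hx : A.IsDivisorProduct c x) (k : ℕ) (n : T.N) :
    partialSum V.actM (V.prodDec πY) k (T.times x n) =
      T.times x (partialSum V.actN πY (k - 2 * c) n) := by
  induction k with
  | zero =>
    unfold partialSum
    simp
  | succ k ih =>
    have h1 : partialSum V.actM (V.prodDec πY) (k + 1) (T.times x n) =
        partialSum V.actM (V.prodDec πY) k (T.times x n) +
          V.actM (V.prodDec πY k) (T.times x n) := by
      unfold partialSum
      rw [Finset.sum_range_succ, LinearMap.add_apply]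
    rw [h1, ih, actM_prodDec hV hD hx]
    by_cases h : 2 * c ≤ k
    · rw [if_pos h, show k + 1 - 2 * c = (k - 2 * c) + 1 by omega, ← map_add]
      congr 1
      unfold partialSum
      rw [Finset.sum_range_succ, LinearMap.add_apply]
    · rw [if_neg h, show k + 1 - 2 * c = k - 2 * c by omega, add_zero]

end product

section

variable {Λ : Type} [Field Λ] [CharZero Λ] {A : AbelianData Λ} {q s : ℕ} {I : Type}
  {f : I → ℤ[X]} {T : RelData A} {V : CorrData T} {J : Type} [Fintype J] {c : J → ℕ}
  {D E : J → A.CH}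

/-- The functional on the tensor product. -/
noncomputable def component' (V : CorrData T) (x : A.CH) :
    TensorProduct Λ A.H V.H →ₗ[Λ] V.H :=
  (TensorProduct.lid Λ V.H).toLinearMap ∘ₗ
    TensorProduct.map (A.tr ∘ₗ LinearMap.mulLeft Λ (A.cl x)) LinearMap.id

/-- The functional on the cohomology of the product. -/
noncomputable def component (V : CorrData T) (x : A.CH) : KunnethH A V.H →ₗ[Λ] V.H :=
  component' V x

theorem component_tmul (hA : IsAbelian A q s f) (x y : A.CH) (v : V.H) :
    component V x (tens (A.cl y) v) = (A.deg (x * y) : Λ) • v := by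
  change component' V x (A.cl y ⊗ₜ[Λ] v) = _
  unfold component'
  rw [LinearMap.comp_apply, TensorProduct.map_tmul, LinearEquiv.coe_coe,
    TensorProduct.lid_tmul, LinearMap.comp_apply, LinearMap.mulLeft_apply, ← map_mul, hA.tr_cl,
    LinearMap.id_apply]

/-- **The conclusion.** -/
theorem murreConclusion (hA : IsAbelian A q s f) (hF : IsFamily A c D)
    (h : Pool.Agent.Y156.L.IsDual A c D E) {Q : ℕ} (hVT : IsMurreTheory V Q)
    (hexp : ∀ (n : ℤ) (x : T.M), T.DegM (2 * n) n x → x = ∑ t, T.times (D t) (T.pair (E t) x))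
    (d : ℕ) (πY : ℕ → V.CY) (hπ : IsDecomposition V.cohN V.grH d πY) :
    MurreConclusion V c D d πY := by
  classical
  have hT := hVT.chow
  have hV := hVT.correspondences
  have hDM := hVT.projectors
  have hprod := isDecomposition_prod hV hDM.decomposition hπ
  have htimes : ∀ (t : J) (n : ℤ) (z : T.N), z ∈ T.grN (2 * (n - c t)) (n - c t) →
      T.times (D t) z ∈ T.grM (2 * n) n := by
    intro t n z hz
    have h1 := hT.times_mem (h.left t) hz
    rwa [show 2 * (n - (c t : ℤ)) + 2 * c t = 2 * n by ring, sub_add_cancel] at h1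
  have hpair : ∀ (t : J) (n : ℤ) (x : T.M), x ∈ T.grM (2 * n) n →
      T.pair (E t) x ∈ T.grN (2 * (n - c t)) (n - c t) := by
    intro t n x hx
    have h1 := hT.pair_mem (c := c t) (by have := h.le t; omega) (h.right t) hx
    rwa [show 2 * n - 2 * (c t : ℤ) = 2 * (n - c t) by ring] at h1
  have hNst : ∀ n : ℤ, ∀ i, ∀ x ∈ T.grN (2 * n) n, V.actN (πY i) x ∈ T.grN (2 * n) n :=
    fun n i x hx => hV.actN_mem (πY i) hx
  have hMst : ∀ n : ℤ, ∀ i, ∀ x ∈ T.grM (2 * n) n,
      V.actM (V.prodDec πY i) x ∈ T.grM (2 * n) n := by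
    intro n i x hx
    rw [hexp n x hx, map_sum]
    refine Submodule.sum_mem _ fun t _ => ?_
    rw [actM_prodDec hV hDM (hF.product t)]
    split_ifs
    · exact htimes t n _ (hNst _ _ _ (hpair t n x hx))
    · exact Submodule.zero_mem _
  have hsum : ∀ (n ν : ℤ) (z : J → T.N),
      partialSum V.actM (V.prodDec πY) (2 * n - ν + 1).toNat (∑ t, T.times (D t) (z t)) =
        ∑ t, T.times (D t) (partialSum V.actN πY (2 * (n - c t) - ν + 1).toNat (z t)) := by
    intro n ν z
    rw [map_sum]
    refine Finset.sum_congr rfl fun t _ => ?_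
    rw [partialSum_times hV hDM (hF.product t)]
    congr 3
    omega
  have hmemN : ∀ (n ν : ℤ) (x : T.N), x ∈ V.filtN πY n ν ↔ x ∈ T.grN (2 * n) n ∧
      partialSum V.actN πY (2 * n - ν + 1).toNat x = x :=
    fun n ν x => mem_murreFilt hπ (hNst n)
  have hmemM : ∀ (n ν : ℤ) (x : T.M), x ∈ V.filtM πY n ν ↔ x ∈ T.grM (2 * n) n ∧
      partialSum V.actM (V.prodDec πY) (2 * n - ν + 1).toNat x = x :=
    fun n ν x => mem_murreFilt hprod (hMst n)
  -- the elements of the filtration
  have hfwd : ∀ (n ν : ℤ) (x : T.M), x ∈ V.filtM πY n ν → ∀ t,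
      T.pair (E t) x ∈ V.filtN πY (n - c t) ν := by
    intro n ν x hx t
    rw [hmemM] at hx
    rw [hmemN]
    refine ⟨hpair t n x hx.1, ?_⟩
    have h1 := hsum n ν fun t => T.pair (E t) x
    rw [← hexp n x hx.1, hx.2] at h1
    have h2 := congrArg (T.pair (E t)) h1
    rw [pair_sum hT h] at h2
    exact h2.symm
  have hbwd : ∀ (n ν : ℤ) (z : J → T.N), (∀ t, z t ∈ V.filtN πY (n - c t) ν) →
      ∑ t, T.times (D t) (z t) ∈ V.filtM πY n ν := by
    intro n ν z hz
    rw [hmemM]
    refine ⟨Submodule.sum_mem _ fun t _ => htimes t n _ ((hmemN _ _ _).1 (hz t)).1, ?_⟩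
    rw [hsum]
    refine Finset.sum_congr rfl fun t _ => ?_
    rw [((hmemN _ _ _).1 (hz t)).2]
  have hone : ∀ (n ν : ℤ) (t : J) (z : T.N), z ∈ V.filtN πY (n - c t) ν →
      T.times (D t) z ∈ V.filtM πY n ν := by
    intro n ν t z hz
    have h1 := hbwd n ν (fun u => if u = t then z else 0) (fun u => by
      split_ifs with hu
      · rw [hu]
        exact hz
      · exact Submodule.zero_mem _)
    rwa [Finset.sum_eq_single t (fun u _ hu => by
      rw [if_neg hu, map_zero]) (fun hu => absurd (Finset.mem_univ t) hu), if_pos rfl] at h1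
  have hpt : ∀ (t : J) (z : T.N), T.pair (E t) (T.times (D t) z) = z := by
    intro t z
    rw [dualpair hT h t t z, if_pos rfl]
  refine ⟨hprod, fun n ν x => ⟨fun hx => ⟨fun t => T.pair (E t) x, hfwd n ν x hx, ?_⟩, ?_⟩,
    fun m => ?_, fun n => ?_⟩
  · exact hexp n x ((hmemM n ν x).1 hx).1
  · rintro ⟨z, hz, rfl⟩
    exact hbwd n ν z hz
  · -- conjecture (B)
    have hBN : ∀ n, V.BN πY n ↔ (∀ x ∈ T.grN (2 * n) n, x ∈ V.filtN πY n 0) ∧
        ∀ x ∈ V.filtN πY n (n + 1), x = 0 := by
      intro n
      refine and_congr ⟨fun h1 x hx => ?_, fun h1 => le_antisymm (fun x hx =>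
        ((hmemN n 0 x).1 hx).1) h1⟩ (Submodule.eq_bot_iff _)
      rw [← h1] at hx
      exact hx
    have hBM : ∀ n, V.BM πY n ↔ (∀ x ∈ T.grM (2 * n) n, x ∈ V.filtM πY n 0) ∧
        ∀ x ∈ V.filtM πY n (n + 1), x = 0 := by
      intro n
      refine and_congr ⟨fun h1 x hx => ?_, fun h1 => le_antisymm (fun x hx =>
        ((hmemM n 0 x).1 hx).1) h1⟩ (Submodule.eq_bot_iff _)
      rw [← h1] at hx
      exact hx
    constructor
    · intro h0 n hn
      obtain ⟨t, ht⟩ := hF.exists_eq 0 (Nat.zero_le _)
      obtain ⟨h1, h2⟩ := (hBM n).1 (h0 n hn)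
      have hn' : n - (c t : ℤ) = n := by rw [ht]; ring
      refine (hBN n).2 ⟨fun z hz => ?_, fun z hz => ?_⟩
      · have h3 := hfwd n 0 _ (h1 _ (htimes t n z (by rw [hn']; exact hz))) t
        rwa [hpt, hn'] at h3
      · have h3 := h2 _ (hone n (n + 1) t z (by rw [hn']; exact hz))
        rw [← hpt t z, h3, map_zero]
    · intro h0 n hn
      have h1 : ∀ t, V.BN πY (n - c t) := fun t => h0 _ (by omega)
      refine (hBM n).2 ⟨fun x hx => ?_, fun x hx => ?_⟩
      · rw [hexp n x hx]
        exact hbwd n 0 _ fun t => ((hBN _).1 (h1 t)).1 _ (hpair t n x hx)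
      · rw [hexp n x ((hmemM _ _ _).1 hx).1]
        refine Finset.sum_eq_zero fun t _ => ?_
        have h2 : T.pair (E t) x ∈ V.filtN πY (n - c t) (n - c t + 1) :=
          murreFilt_anti hπ (hNst _) (by omega) (hfwd n (n + 1) x hx t)
        rw [((hBN _).1 (h1 t)).2 _ h2, map_zero]
  · -- conjecture (D)
    have hswap : ∀ P : ℤ → Prop, (∀ t, P (n - c t)) ↔ ∀ k : ℕ, k ≤ A.dim → P (n - k) := by
      intro P
      constructor
      · intro h k hk
        obtain ⟨t, rfl⟩ := hF.exists_eq k hk
        exact h t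
      · intro h' t
        exact h' _ (h.le t)
    rw [← hswap fun n => V.DN πY n]
    have hclt : ∀ (t : J) (z : T.N), V.clM (T.times (D t) z) = tens (A.cl (D t)) (V.clN z) :=
      fun t z => hV.clM_mul (D t) z
    have hzero : ∀ (z : J → T.N), V.clM (∑ t, T.times (D t) (z t)) = 0 ↔
        ∀ t, V.clN (z t) = 0 := by
      intro z
      rw [map_sum]
      simp only [hclt]
      constructor
      · intro h1 t
        have h2 := congrArg (component V (E t)) h1
        rw [map_sum, map_zero] at h2
        simp only [component_tmul hA] at h2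
        rw [Finset.sum_eq_single t (fun u _ hu => by
          rw [mul_comm, h.ne u t hu, Rat.cast_zero, zero_smul])
          (fun hu => absurd (Finset.mem_univ t) hu), mul_comm, h.eq, Rat.cast_one, one_smul] at h2
        exact h2
      · intro h1
        exact Finset.sum_eq_zero fun t _ => by
          rw [h1 t]
          exact TensorProduct.tmul_zero _ _
    constructor
    · intro h0 t z
      constructor
      · intro hz
        have h1 := (h0 _).1 (hone n 1 t z hz)
        refine ⟨((hmemN _ _ _).1 hz).1, ?_⟩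
        have h2 := (hzero fun u => if u = t then z else 0).1 (by
          rw [Finset.sum_eq_single t (fun u _ hu => by
            rw [if_neg hu, map_zero]) (fun hu => absurd (Finset.mem_univ t) hu), if_pos rfl]
          exact h1.2) t
        rwa [if_pos rfl] at h2
      · rintro ⟨hz, hcl⟩
        have h1 := (h0 _).2 ⟨htimes t n z hz, by
          change V.clM (T.times (D t) z) = 0
          rw [hclt]
          have hcl' : V.clN z = 0 := hcl
          rw [hcl']
          exact TensorProduct.tmul_zero _ _⟩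
        have h2 := hfwd n 1 _ h1 t
        rw [hpt] at h2
        exact h2
    · intro h0 x
      constructor
      · intro hx
        have hx' := ((hmemM _ _ _).1 hx).1
        refine ⟨hx', ?_⟩
        change V.clM x = 0
        rw [hexp n x hx', hzero]
        intro t
        exact ((h0 t _).1 (hfwd n 1 x hx t)).2
      · rintro ⟨hx, hcl⟩
        have hcl' : V.clM x = 0 := hcl
        rw [hexp n x hx, hzero] at hcl'
        rw [hexp n x hx]
        exact hbwd n 1 _ fun t => (h0 t _).2 ⟨hpair t n x hx, hcl' t⟩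

end

section

variable {I : Type} {K : I → Type} [∀ i, Field (K i)] {q : ℕ} {f : I → ℤ[X]}

/-- **The conjectures of Murre for products.** -/
theorem murreTimes (hq : 1 < q) (hR : NoRel f q (Unrelated K)) : MurreTimes K q f := by
  classical
  intro Λ _ _ A s hA
  obtain ⟨J, hJ, c, D, E, hF, hdual, hQ, hmain⟩ := exists_classes hq hR hA
  refine ⟨J, hJ, c, D, hF, fun T V hVT hK => ?_⟩
  have hT := hVT.chow
  have hexp : ∀ (n : ℤ) (x : T.M), T.DegM (2 * n) n x →
      x = ∑ t, T.times (D t) (T.pair (E t) x) := by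
    intro n x hx
    exact (hmain _ (isRel_diag hT) (unrelated_diag hK)).1 (2 * n) n x
      (isPure_diag hVT.pure (2 * n) n x ((degM_diag (T := T) n x).2 hx))
  refine ⟨fun n x hx => ⟨fun t => T.pair (E t) x, ⟨fun t => ?_, hexp n x hx⟩, ?_⟩,
    fun d πY hπ => murreConclusion hA hF hdual hVT hexp d πY hπ⟩
  · have h1 := hT.pair_mem (c := c t) (by have := hdual.le t; omega) (hdual.right t) hx
    rw [show 2 * (n - (c t : ℤ)) = 2 * n - 2 * c t by ring]
    exact h1
  · rintro z ⟨-, hz⟩
    funext t
    rw [hz]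
    exact (pair_sum hT hdual t z).symm

end

end Pool.Agent.V1168.BB
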