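import Mathlib
import Pool.Agent.V1168.BB.Defs

/-!
# Zeta functions and higher Chow groups of products with abelian varieties: definitions
-/

set_option autoImplicit false

namespace Pool.Agent.V1168.BB

open Polynomial Module Pool.Agent.Y156.L Pool.Agent.Y1.CT

/-- The closed points of a scheme of finite type over the field with `Q` elements, and their
degrees. -/
structure PointData where
  /-- the closed points -/
  Point : Type
  /-- the degrees of the closed points -/
  deg : Point → ℕ

/-- The local factor `(1 - N(v)^(-s))^(-1)` of the zeta function, `N(v) = Q^(deg v)`. -/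
noncomputable def PointData.factor (U : PointData) (Q : ℕ) (v : U.Point) (s : ℂ) : ℂ :=
  (1 - ((Q : ℂ) ^ (-s)) ^ U.deg v)⁻¹

/-- For all `m ≥ 1` the number of the points of the scheme with coordinates in the field with `Q^m`
elements is `N m`; each closed point `v` whose degree divides `m` contributes `deg v`. -/
structure IsPoints (U : PointData) (N : ℕ → ℂ) : Prop where
  pos : ∀ v, 0 < U.deg v
  finite : ∀ m, 0 < m → {v | U.deg v ∣ m}.Finite
  count : ∀ (m : ℕ) (hm : 0 < m), ∑ v ∈ (finite m hm).toFinset, (U.deg v : ℂ) = N m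

/-- The closed points `X` of `A × U`: the number of points over the field with `Q^m` elements is the
one of `U`, multiplied by the one of `A`, which is the alternating sum of the traces of the `m`-th
powers of the Frobenius endomorphism on the groups `H^a(A)`, `0 ≤ a ≤ 2 dim A` (Lefschetz trace
formula). The number of points of `U` grows at most exponentially. -/
def IsProductPoints {A : AbelianData ℂ} (φ : CohData A) (U X : PointData) : Prop :=
  ∃ N : ℕ → ℂ, IsPoints U N ∧ (∃ C B : ℝ, ∀ m, ‖N m‖ ≤ C * B ^ m) ∧
    IsPoints X fun m => (∑ a ∈ Finset.range (2 * A.dim + 1),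
      (-1) ^ a * LinearMap.trace ℂ (φ.V a) ((φ.frob a : Module.End ℂ (φ.V a)) ^ m)) * N m

section

variable {A : AbelianData ℂ} (T : RelData A)

/-- **The formula of Bloch and Soulé** for the scheme `U` of dimension `d` and the integer `r`: the
spaces `CH^r(U, i) = T^(2 r - i)(U, r)`, `i ≥ 0`, are finite-dimensional, almost all of them are zero,
and the order of the zeta function (of any meromorphic continuation `Λ`) at `s = d - r` is the
opposite of the alternating sum of their dimensions. -/
def SouleN (U : PointData) (Q d : ℕ) (r : ℤ) : Prop :=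
  ((∀ i : ℕ, Module.Finite ℚ (T.grN (2 * r - i) r)) ∧
    {i : ℕ | T.grN (2 * r - i) r ≠ ⊥}.Finite) ∧
  ∀ Λ, IsContinuation (U.factor Q) Λ → meromorphicOrderAt Λ ((d - r : ℤ) : ℂ) =
    ((-(∑ᶠ i : ℕ, (-1) ^ i * (finrank ℚ (T.grN (2 * r - i) r) : ℤ)) : ℤ) : WithTop ℤ)

/-- **The formula of Bloch and Soulé** for the scheme `A × U` with the closed points `X`, of dimension
`dim A + d`, and the integer `r`. -/
def SouleM (X : PointData) (Q d : ℕ) (r : ℤ) : Prop :=
  ((∀ i : ℕ, Module.Finite ℚ (T.grM (2 * r - i) r)) ∧
    {i : ℕ | T.grM (2 * r - i) r ≠ ⊥}.Finite) ∧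
  ∀ Λ, IsContinuation (X.factor Q) Λ → meromorphicOrderAt Λ ((A.dim + d - r : ℤ) : ℂ) =
    ((-(∑ᶠ i : ℕ, (-1) ^ i * (finrank ℚ (T.grM (2 * r - i) r) : ℤ)) : ℤ) : WithTop ℤ)

/-- The formal properties of the higher Chow groups `T^i(U, j) = CH^j(U, 2 j - i)` of the scheme `U`
of dimension `d` over the field with `Q` elements (and of `A × U`): those in `IsRel`; the Frobenius
endomorphism of `A × U` acts on the groups of codimension `j` as `Q^j`; the groups of negative
codimension are zero; the zeta function has no zeros and poles for `Re s > d` (where the Euler product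
converges). -/
structure IsSchemeTheory (U : PointData) (Q d : ℕ) : Prop where
  rel : IsRel Q T
  pure : T.IsPure Q
  neg : ∀ i j : ℤ, j < 0 → ∀ n, T.DegN i j n → n = 0
  edge : ∀ Λ, IsContinuation (U.factor Q) Λ → ∀ s : ℂ, (d : ℝ) < s.re → meromorphicOrderAt Λ s = 0

/-- `U` is unrelated to the fields `K i`: on each group `T^i(A × U, j)` the Frobenius endomorphism of
`U` satisfies a nonzero rational polynomial with roots unrelated to the fields `K i`, and the zeta
function has a meromorphic continuation with zeros and poles only at points `s` with `Q^s`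
unrelated to the fields `K i`. -/
structure SchemeUnrelated {I : Type} (K : I → Type) [∀ i, Field (K i)] (U : PointData) (Q : ℕ) :
    Prop where
  motivic : ∀ i j : ℤ, ∃ χ : ℚ[X], χ ≠ 0 ∧ (∀ ρ : ℂ, aeval ρ χ = 0 → Unrelated K ρ) ∧
    ∀ m, T.DegM i j m → aeval T.frobM χ m = 0
  zeta : ∃ Λ, IsContinuation (U.factor Q) Λ ∧
    ∀ s : ℂ, meromorphicOrderAt Λ s ≠ 0 → Unrelated K ((Q : ℂ) ^ s)

end

section

variable {I : Type} (K : I → Type) [∀ i, Field (K i)] (q : ℕ) (f : I → ℤ[X])

/-- `SouleTimes K q f`: for every abelian variety `A` as in `IsAbelian` over the field with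
`Q = q ^ s` elements there are finitely many products `D t` of `c t` divisor classes on `A`, such that
for every scheme `U` of finite type over the field with `Q` elements, of dimension `d`, with the
properties `IsSchemeTheory` and `SchemeUnrelated`:

1. every element of `CH^r(A × U, i)` is in a unique way the sum of the products of the `D t` with
  elements of `CH^(r - c t)(U, i)`;
2. the zeta function of `A × U` has a meromorphic continuation, and its order at `s = dim A + d - r` is
  the sum over `t` of the orders of the zeta function of `U` at `s = d - (r - c t)`;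
3. for all `n`, the formula of Bloch and Soulé holds for `A × U` and all `r ≤ n` if and only if it
  holds for `U` and all `r ≤ n`. -/
def SouleTimes : Prop :=
  ∀ (A : AbelianData ℂ) (s : ℕ), IsAbelian A q s f →
    ∃ (J : Type) (_ : Fintype J) (c : J → ℕ) (D : J → A.CH), IsFamily A c D ∧
      ∀ φ : CohData A, IsCoh φ → ∀ (T : RelData A) (U X : PointData) (d : ℕ),
        IsProductPoints φ U X → IsSchemeTheory T U (q ^ s) d → SchemeUnrelated T K U (q ^ s) →
        (∀ (r : ℤ) (i : ℕ) (m : T.M), T.DegM (2 * r - i) r m → ∃! z : J → T.N,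
          (∀ t, T.DegN (2 * (r - c t) - i) (r - c t) (z t)) ∧ m = ∑ t, T.mul (D t) (z t)) ∧
        (∃ Λ, IsContinuation (X.factor (q ^ s)) Λ) ∧
        (∀ (r : ℤ) (Λ Λ' : ℂ → ℂ), IsContinuation (X.factor (q ^ s)) Λ →
          IsContinuation (U.factor (q ^ s)) Λ' →
          meromorphicOrderAt Λ ((A.dim + d - r : ℤ) : ℂ) =
            ∑ t, meromorphicOrderAt Λ' ((d - (r - c t) : ℤ) : ℂ)) ∧
        ∀ n : ℤ, (∀ r ≤ n, SouleM T X (q ^ s) d r) ↔ ∀ r ≤ n, SouleN T U (q ^ s) d r

end

end Pool.Agent.V1168.BB
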