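import Mathlib
import Pool.Agent.V1168.BB.ZetaDefs

/-!
# The poles of the zeta functions of products with abelian varieties: definitions
-/

set_option autoImplicit false

namespace Pool.Agent.V1168.BB

open Polynomial Module Pool.Agent.Y156.L Pool.Agent.Y1.CT

section

variable {A : AbelianData ℂ} (T : RelData A)

/-- **The formula of Tate** for the variety `Y` over the field with `Q` elements and the integer `j`:
the order of the zeta function (of any meromorphic continuation `Λ`) at `s = j` is the opposite of the
rank of the group `T^(2 j)(Y, j)` of the cycles of codimension `j` modulo numerical equivalence. -/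
def PoleNumN (Y : PointData) (Q : ℕ) (j : ℤ) : Prop :=
  ∀ Λ, IsContinuation (Y.factor Q) Λ → meromorphicOrderAt Λ (j : ℂ) =
    ((-(finrank ℚ (T.grN (2 * j) j) : ℤ) : ℤ) : WithTop ℤ)

/-- **The formula of Tate** for `A × Y` with the closed points `X` and the integer `j`. -/
def PoleNumM (X : PointData) (Q : ℕ) (j : ℤ) : Prop :=
  ∀ Λ, IsContinuation (X.factor Q) Λ → meromorphicOrderAt Λ (j : ℂ) =
    ((-(finrank ℚ (T.grM (2 * j) j) : ℤ) : ℤ) : WithTop ℤ)

/-- The formal properties of the groups `T^(2 j)(Y, j)` of the cycles of codimension `j` modulo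
numerical equivalence, with rational coefficients, on the smooth projective variety `Y` over the field
with `Q` elements (and on `A × Y`): those in `IsRel`; the Frobenius endomorphism of `A × Y` acts on
cycles of codimension `j` as `Q^j`; the groups are finite-dimensional, and the order of the pole of the
zeta function of `Y` at `s = j` is at least the rank. -/
structure IsNumTheory (Y : PointData) (Q : ℕ) : Prop where
  rel : IsRel Q T
  pure : PureChow T Q
  finite : ∀ j : ℤ, Module.Finite ℚ (T.grN (2 * j) j)
  bound : ∀ Λ, IsContinuation (Y.factor Q) Λ → ∀ j : ℤ, ∃ z : ℤ,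
    meromorphicOrderAt Λ (j : ℂ) = (z : WithTop ℤ) ∧ (finrank ℚ (T.grN (2 * j) j) : ℤ) ≤ -z

/-- `Y` is unrelated to the fields `K i`: on each of the groups of cycles of `A × Y` the Frobenius
endomorphism of `Y` satisfies a nonzero rational polynomial with roots unrelated to the fields `K i`,
and the zeta function of `Y` has a meromorphic continuation with zeros and poles only at points `s`
with `Q^s` unrelated to the fields `K i`. -/
structure NumUnrelated {I : Type} (K : I → Type) [∀ i, Field (K i)] (Y : PointData) (Q : ℕ) :
    Prop where
  cycles : ChowUnrelated K T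
  zeta : ∃ Λ, IsContinuation (Y.factor Q) Λ ∧
    ∀ s : ℂ, meromorphicOrderAt Λ s ≠ 0 → Unrelated K ((Q : ℂ) ^ s)

end

section

variable {I : Type} (K : I → Type) [∀ i, Field (K i)] (q : ℕ) (f : I → ℤ[X])

/-- `PoleNumTimes K q f`: for every abelian variety `A` as in `IsAbelian` over the field with
`Q = q ^ s` elements there are finitely many products `D t` of `c t` divisor classes on `A`, such that
for every smooth projective variety `Y` over the field with `Q` elements, with the properties
`IsNumTheory` and `NumUnrelated`:

1. every class of cycles of codimension `j` on `A × Y` modulo numerical equivalence is in a unique way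
  the sum of the products of the `D t` with classes of codimension `j - c t` on `Y`, and the rank is
  the sum of the ranks;
2. the zeta function of `A × Y` has a meromorphic continuation, and its order at `s = j` is the sum
  over `t` of the orders of the zeta function of `Y` at `s = j - c t`;
3. for all `j`, the formula of Tate holds for `A × Y` at `s = j` if and only if it holds for `Y` at
  `s = j - k` for all `0 ≤ k ≤ dim A`. -/
def PoleNumTimes : Prop :=
  ∀ (A : AbelianData ℂ) (s : ℕ), IsAbelian A q s f →
    ∃ (J : Type) (_ : Fintype J) (c : J → ℕ) (D : J → A.CH), IsFamily A c D ∧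
      ∀ φ : CohData A, IsCoh φ → ∀ (T : RelData A) (Y X : PointData),
        IsProductPoints φ Y X → IsNumTheory T Y (q ^ s) → NumUnrelated T K Y (q ^ s) →
        (∀ (j : ℤ) (m : T.M), T.DegM (2 * j) j m → ∃! z : J → T.N,
          (∀ t, T.DegN (2 * (j - c t)) (j - c t) (z t)) ∧ m = ∑ t, T.mul (D t) (z t)) ∧
        (∀ j : ℤ, finrank ℚ (T.grM (2 * j) j) =
          ∑ t, finrank ℚ (T.grN (2 * (j - c t)) (j - c t))) ∧
        (∃ Λ, IsContinuation (X.factor (q ^ s)) Λ) ∧
        (∀ (j : ℤ) (Λ Λ' : ℂ → ℂ), IsContinuation (X.factor (q ^ s)) Λ →
          IsContinuation (Y.factor (q ^ s)) Λ' →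
          meromorphicOrderAt Λ (j : ℂ) = ∑ t, meromorphicOrderAt Λ' ((j - c t : ℤ) : ℂ)) ∧
        ∀ j : ℤ, PoleNumM T X (q ^ s) j ↔ ∀ k : ℕ, k ≤ A.dim → PoleNumN T Y (q ^ s) (j - k)

end

end Pool.Agent.V1168.BB
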