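import Mathlib
import Pool.Agent.V1168.BB.ZetaDefs
import Pool.Agent.V1168.BB.LF
import Pool.Agent.W484.BB.Zeta

/-!
# Euler products and numbers of points
-/

set_option autoImplicit false
set_option linter.unusedSectionVars false
set_option linter.unusedVariables false

namespace Pool.Agent.V1168.BB

open Complex

/-- **The Euler product of the zeta function.** -/
theorem hasProd_points (U : PointData) (N : ℕ → ℂ) (hU : IsPoints U N) (C B : ℝ)
    (hC : ∀ m, ‖N m‖ ≤ C * B ^ m) (hB : 1 ≤ B) (x : ℂ) (hx : ‖x‖ * B < 1) :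
    ∃ S : ℂ, HasSum (fun m : ℕ => x ^ m / m * (if m = 0 then 0 else N m)) S ∧
      HasProd (fun v => (1 - x ^ U.deg v)⁻¹) (exp S) := by
  classical
  obtain ⟨hdeg, hfin, hcount⟩ := hU
  have hx1 : ‖x‖ < 1 := by nlinarith [norm_nonneg x]
  have hC0 : 0 ≤ C := by
    have h1 := (norm_nonneg _).trans (hC 0)
    simpa using h1
  -- the double family
  let f : ℕ × U.Point → ℂ := fun z =>
    if U.deg z.2 ∣ z.1 then (U.deg z.2 : ℂ) * x ^ z.1 / z.1 else 0
  have hrow : ∀ m, HasSum (fun v => f (m, v)) (x ^ m / m * (if m = 0 then 0 else N m)) := by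
    intro m
    rcases Nat.eq_zero_or_pos m with rfl | hm
    · have h1 : ∀ v, f (0, v) = 0 := by
        intro v
        simp [f]
      simp only [h1, Nat.cast_zero, div_zero, zero_mul]
      exact hasSum_zero
    · rw [if_neg hm.ne', ← hcount m hm, Finset.mul_sum]
      have h1 : ∑ v ∈ (hfin m hm).toFinset, x ^ m / m * (U.deg v : ℂ) =
          ∑ v ∈ (hfin m hm).toFinset, f (m, v) := by
        refine Finset.sum_congr rfl fun v hv => ?_
        rw [Set.Finite.mem_toFinset] at hv
        have hv' : U.deg v ∣ m := hv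
        simp only [f]
        rw [if_pos hv']
        ring
      rw [h1]
      refine hasSum_sum_of_ne_finset_zero fun v hv => ?_
      rw [Set.Finite.mem_toFinset] at hv
      simp only [f]
      exact if_neg hv
  have hnorm : ∀ m v, ‖f (m, v)‖ =
      if U.deg v ∣ m then (U.deg v : ℝ) * ‖x‖ ^ m / m else 0 := by
    intro m v
    simp only [f]
    split_ifs
    · rw [norm_div, norm_mul, norm_pow, Complex.norm_natCast, Complex.norm_natCast]
    · simp
  have hrown : ∀ m, Summable (fun v => ‖f (m, v)‖) := fun m => (hrow m).summable.norm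
  have hbound : ∀ m, ∑' v, ‖f (m, v)‖ ≤ C * (‖x‖ * B) ^ m := by
    intro m
    have hnn : 0 ≤ C * (‖x‖ * B) ^ m := by positivity
    rcases Nat.eq_zero_or_pos m with rfl | hm
    · have h1 : ∀ v, ‖f (0, v)‖ = 0 := by
        intro v
        simp [f]
      simp only [h1, tsum_zero]
      exact hnn
    · have h1 : HasSum (fun v => ‖f (m, v)‖)
          (∑ v ∈ (hfin m hm).toFinset, ‖x‖ ^ m / m * (U.deg v : ℝ)) := by
        have h2 : ∑ v ∈ (hfin m hm).toFinset, ‖x‖ ^ m / m * (U.deg v : ℝ) =
            ∑ v ∈ (hfin m hm).toFinset, ‖f (m, v)‖ := by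
          refine Finset.sum_congr rfl fun v hv => ?_
          rw [Set.Finite.mem_toFinset] at hv
          have hv' : U.deg v ∣ m := hv
          rw [hnorm, if_pos hv']
          ring
        rw [h2]
        refine hasSum_sum_of_ne_finset_zero fun v hv => ?_
        rw [Set.Finite.mem_toFinset] at hv
        rw [hnorm]
        exact if_neg hv
      rw [h1.tsum_eq, ← Finset.mul_sum]
      have h3 : (∑ v ∈ (hfin m hm).toFinset, (U.deg v : ℝ)) ≤ C * B ^ m := by
        have h4 : (∑ v ∈ (hfin m hm).toFinset, (U.deg v : ℝ)) =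
            ‖(∑ v ∈ (hfin m hm).toFinset, (U.deg v : ℂ))‖ := by
          have h5 : (∑ v ∈ (hfin m hm).toFinset, (U.deg v : ℂ)) =
              ((∑ v ∈ (hfin m hm).toFinset, U.deg v : ℕ) : ℂ) := by push_cast; rfl
          rw [h5, Complex.norm_natCast]
          push_cast
          rfl
        rw [h4, hcount m hm]
        exact hC m
      have hm1 : (1 : ℝ) ≤ m := by exact_mod_cast hm
      calc ‖x‖ ^ m / m * ∑ v ∈ (hfin m hm).toFinset, (U.deg v : ℝ)
          ≤ ‖x‖ ^ m * (C * B ^ m) := by
            refine mul_le_mul ?_ h3 (Finset.sum_nonneg fun v _ => Nat.cast_nonneg _) (by positivity)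
            exact div_le_self (by positivity) hm1
        _ = C * (‖x‖ * B) ^ m := by rw [mul_pow]; ring
  have hsumm : Summable f := by
    refine Summable.of_norm ?_
    rw [summable_prod_of_nonneg (fun z => norm_nonneg _)]
    refine ⟨hrown, ?_⟩
    refine Summable.of_nonneg_of_le (fun m => tsum_nonneg fun v => norm_nonneg _) hbound ?_
    refine Summable.mul_left _ (summable_geometric_of_lt_one (by positivity) hx)
  obtain ⟨S, hS⟩ := hsumm
  have hS1 := hS.prod_fiberwise hrow
  refine ⟨S, hS1, ?_⟩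
  have hB' : HasSum (fun v => -log (1 - x ^ U.deg v)) S := by
    have h1 : HasSum (f ∘ Prod.swap) S := (Equiv.prodComm U.Point ℕ).hasSum_iff.2 hS
    exact h1.prod_fiberwise (fun v => Pool.Agent.W484.BB.hasSum_fiber U.deg hdeg x hx1 v)
  have hne : ∀ z : ℂ, ‖z‖ < 1 → 1 - z ≠ 0 := by
    intro z hz h
    have h1 : z = 1 := (sub_eq_zero.1 h).symm
    rw [h1, norm_one] at hz
    exact lt_irrefl _ hz
  have hxd : ∀ v, ‖x ^ U.deg v‖ < 1 := by
    intro v
    rw [norm_pow]
    exact pow_lt_one₀ (norm_nonneg _) hx1 (hdeg v).ne'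
  have hlog : ∀ z : ℂ, ‖z‖ < 1 → log (1 - z)⁻¹ = -log (1 - z) := by
    intro z hz
    apply Complex.log_inv
    have h1 : 1 - z ∈ slitPlane := by
      left
      rw [sub_re, one_re]
      have := Complex.re_le_norm z
      linarith
    exact (mem_slitPlane_iff_arg.1 h1).1
  exact hasProd_of_hasSum_log (f := fun v => (1 - x ^ U.deg v)⁻¹) (a := S)
    (fun v => inv_ne_zero (hne _ (hxd v))) (by
      simp only [hlog _ (hxd _)]
      exact hB')

end Pool.Agent.V1168.BB
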