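import Mathlib
import Pool.Agent.V1168.BB.Points
import Pool.Agent.V1168.BB.Pole

/-!
# The zeta functions of products with abelian varieties
-/

set_option autoImplicit false
set_option linter.unusedSectionVars false
set_option linter.unusedVariables false

namespace Pool.Agent.V1168.BB

open Module Polynomial Pool.Agent.Y156.L Pool.Agent.W484.HS Pool.Agent.Y1.CT Pool.Agent.V1168.UN

section

variable {A : AbelianData ℂ} {I : Type} {f : I → ℤ[X]} {q s : ℕ}
  {K : I → Type} [∀ i, Field (K i)]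

/-- The sign as an integral exponent. -/
def sgn (a : ℕ) : ℤ := (-1) ^ a

/-- **The continuation of the zeta function.** -/
theorem zeta_continuation (hQ1 : 1 < q ^ s) {φ : CohData A} {r : ℕ → ℕ}
    (e : ∀ a, Basis (Fin (r a)) ℂ (φ.V a)) (α : ∀ a, Fin (r a) → ℂ)
    (he : ∀ a j, φ.frob a (e a j) = α a j • e a j) (u : ℂ → ℂ)
    (hu : ∀ a j, ((q ^ s : ℕ) : ℂ) ^ u (α a j) = α a j) {U X : PointData}
    (hX : IsProductPoints φ U X) {Λ : ℂ → ℂ} (hΛ : IsContinuation (U.factor (q ^ s)) Λ) :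
    IsContinuation (X.factor (q ^ s)) fun z => ∏ a ∈ Finset.range (2 * A.dim + 1),
      ∏ j : Fin (r a), (Λ (z - u (α a j))) ^ sgn a := by
  classical
  set Q : ℕ := q ^ s with hQ
  have hQ0 : (Q : ℂ) ≠ 0 := by exact_mod_cast (by omega : Q ≠ 0)
  have hQ0' : (0 : ℝ) < Q := by exact_mod_cast (by omega : 0 < Q)
  have hQ1' : (1 : ℝ) < Q := by exact_mod_cast hQ1
  obtain ⟨N, hN, ⟨C, B, hCB⟩, hNX⟩ := hX
  obtain ⟨hmer, σ, hσ⟩ := hΛ
  -- bounds
  set B' : ℝ := max |B| 1 with hB'
  have hB1 : 1 ≤ B' := le_max_right _ _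
  have hC' : ∀ m, ‖N m‖ ≤ |C| * B' ^ m := by
    intro m
    refine (hCB m).trans ((le_abs_self _).trans ?_)
    rw [abs_mul, abs_pow]
    exact mul_le_mul_of_nonneg_left (pow_le_pow_left₀ (abs_nonneg _) (le_max_left _ _) m)
      (abs_nonneg _)
  set M : ℝ := 1 + ∑ a ∈ Finset.range (2 * A.dim + 1), ∑ j : Fin (r a), ‖α a j‖ with hM
  have hM1 : 1 ≤ M := by
    have : 0 ≤ ∑ a ∈ Finset.range (2 * A.dim + 1), ∑ j : Fin (r a), ‖α a j‖ :=
      Finset.sum_nonneg fun a _ => Finset.sum_nonneg fun j _ => norm_nonneg _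
    linarith
  have hαM : ∀ a ∈ Finset.range (2 * A.dim + 1), ∀ j, ‖α a j‖ ≤ M := by
    intro a ha j
    have h1 : ‖α a j‖ ≤ ∑ j : Fin (r a), ‖α a j‖ :=
      Finset.single_le_sum (f := fun j => ‖α a j‖) (fun _ _ => norm_nonneg _) (Finset.mem_univ j)
    have h2 : ∑ j : Fin (r a), ‖α a j‖ ≤
        ∑ a ∈ Finset.range (2 * A.dim + 1), ∑ j : Fin (r a), ‖α a j‖ :=
      Finset.single_le_sum (f := fun a => ∑ j : Fin (r a), ‖α a j‖)
        (fun _ _ => Finset.sum_nonneg fun j _ => norm_nonneg _) ha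
    linarith
  set R : ℝ := ∑ a ∈ Finset.range (2 * A.dim + 1), ∑ j : Fin (r a), |(u (α a j)).re| with hR
  have huR : ∀ a ∈ Finset.range (2 * A.dim + 1), ∀ j, (u (α a j)).re ≤ R := by
    intro a ha j
    have h1 : |(u (α a j)).re| ≤ ∑ j : Fin (r a), |(u (α a j)).re| :=
      Finset.single_le_sum (f := fun j => |(u (α a j)).re|) (fun _ _ => abs_nonneg _)
        (Finset.mem_univ j)
    have h2 : ∑ j : Fin (r a), |(u (α a j)).re| ≤
        ∑ a ∈ Finset.range (2 * A.dim + 1), ∑ j : Fin (r a), |(u (α a j)).re| :=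
      Finset.single_le_sum (f := fun a => ∑ j : Fin (r a), |(u (α a j)).re|)
        (fun _ _ => Finset.sum_nonneg fun j _ => abs_nonneg _) ha
    have h3 := le_abs_self (u (α a j)).re
    linarith
  obtain ⟨n, hn⟩ := pow_unbounded_of_one_lt (M * B') hQ1'
  refine ⟨fun z => ?_, max (σ + R) n, fun z hz => ?_⟩
  · refine MeromorphicAt.fun_prod fun a _ => MeromorphicAt.fun_prod fun j _ => ?_
    refine MeromorphicAt.fun_zpow ?_ _
    rw [meromorphicAt_fun_comp_sub_const_iff_meromorphicAt]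
    exact hmer _
  · have hz1 : σ + R < z.re := lt_of_le_of_lt (le_max_left _ _) hz
    have hz2 : (n : ℝ) < z.re := lt_of_le_of_lt (le_max_right _ _) hz
    set x : ℂ := (Q : ℂ) ^ (-z) with hx
    have hxn : ‖x‖ = (Q : ℝ) ^ (-z.re) := by
      have h2 := Complex.norm_cpow_eq_rpow_re_of_pos hQ0' (-z)
      rw [Complex.neg_re] at h2
      rw [← h2, hx]
      norm_num
    have hxMB : ‖x‖ * (M * B') < 1 := by
      have h1 : ‖x‖ < ((Q : ℝ) ^ n)⁻¹ := by
        rw [hxn, ← Real.rpow_natCast, ← Real.rpow_neg hQ0'.le]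
        exact Real.rpow_lt_rpow_of_exponent_lt hQ1' (by linarith)
      have h2 : 0 < (Q : ℝ) ^ n := by positivity
      calc ‖x‖ * (M * B') ≤ ((Q : ℝ) ^ n)⁻¹ * (M * B') :=
            mul_le_mul_of_nonneg_right h1.le (by positivity)
        _ < ((Q : ℝ) ^ n)⁻¹ * (Q : ℝ) ^ n := mul_lt_mul_of_pos_left hn (by positivity)
        _ = 1 := inv_mul_cancel₀ h2.ne'
    -- the factors
    have hUa : ∀ a ∈ Finset.range (2 * A.dim + 1), ∀ j : Fin (r a), ∃ S : ℂ,
        HasSum (fun m : ℕ => (x * α a j) ^ m / m * (if m = 0 then 0 else N m)) S ∧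
          Λ (z - u (α a j)) = Complex.exp S := by
      intro a ha j
      have h1 : ‖x * α a j‖ * B' < 1 := by
        rw [norm_mul]
        have h2 := hαM a ha j
        calc ‖x‖ * ‖α a j‖ * B' ≤ ‖x‖ * M * B' := by
              refine mul_le_mul_of_nonneg_right ?_ (by linarith)
              exact mul_le_mul_of_nonneg_left h2 (norm_nonneg _)
          _ = ‖x‖ * (M * B') := by ring
          _ < 1 := hxMB
      obtain ⟨S, hS1, hS2⟩ := hasProd_points U N hN |C| B' hC' hB1 (x * α a j) h1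
      refine ⟨S, hS1, ?_⟩
      have h3 := hσ (z - u (α a j)) (by
        rw [Complex.sub_re]
        have := huR a ha j
        linarith)
      have h4 : (fun v => U.factor Q v (z - u (α a j))) = fun v => (1 - (x * α a j) ^ U.deg v)⁻¹ := by
        funext v
        unfold PointData.factor
        rw [show -(z - u (α a j)) = -z + u (α a j) by ring, Complex.cpow_add _ _ hQ0, hu]
      rw [h4] at h3
      exact h3.unique hS2
    -- the product
    set NX : ℕ → ℂ := fun m => (∑ a ∈ Finset.range (2 * A.dim + 1),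
      (-1) ^ a * LinearMap.trace ℂ (φ.V a) ((φ.frob a : Module.End ℂ (φ.V a)) ^ m)) * N m with hNXd
    have htr : ∀ m, NX m = ∑ a ∈ Finset.range (2 * A.dim + 1), ∑ j : Fin (r a),
        (sgn a : ℂ) * (α a j ^ m * N m) := by
      intro m
      rw [hNXd]
      simp only
      rw [Finset.sum_mul]
      refine Finset.sum_congr rfl fun a _ => ?_
      rw [Pool.Agent.W484.BB.trace_pow (φ.frob a) (e a) (α a) (he a) m, mul_assoc,
        Finset.sum_mul, Finset.mul_sum]
      refine Finset.sum_congr rfl fun j _ => ?_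
      unfold sgn
      push_cast
      rfl
    set C₀ : ℝ := (∑ a ∈ Finset.range (2 * A.dim + 1), ∑ j : Fin (r a), (1 : ℝ)) * |C| with hC₀
    have hNXb : ∀ m, ‖NX m‖ ≤ C₀ * (M * B') ^ m := by
      intro m
      rw [htr, hC₀]
      calc ‖∑ a ∈ Finset.range (2 * A.dim + 1), ∑ j : Fin (r a),
            (sgn a : ℂ) * (α a j ^ m * N m)‖
          ≤ ∑ a ∈ Finset.range (2 * A.dim + 1), ∑ j : Fin (r a), 1 * (|C| * (M * B') ^ m) := by
            refine (norm_sum_le _ _).trans (Finset.sum_le_sum fun a ha => ?_)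
            refine (norm_sum_le _ _).trans (Finset.sum_le_sum fun j _ => ?_)
            rw [norm_mul]
            have h1 : ‖((sgn a : ℤ) : ℂ)‖ = 1 := by
              unfold sgn
              push_cast
              rw [norm_pow, norm_neg, norm_one, one_pow]
            rw [h1, norm_mul, norm_pow]
            refine mul_le_mul_of_nonneg_left ?_ zero_le_one
            calc ‖α a j‖ ^ m * ‖N m‖ ≤ M ^ m * (|C| * B' ^ m) := by
                  refine mul_le_mul (pow_le_pow_left₀ (norm_nonneg _) (hαM a ha j) m) (hC' m)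
                    (norm_nonneg _) (by positivity)
              _ = |C| * (M * B') ^ m := by rw [mul_pow]; ring
        _ = _ := by
            simp only [← Finset.sum_mul]
            ring
    obtain ⟨S, hS1, hS2⟩ := hasProd_points X NX hNX C₀ (M * B') hNXb
      (by nlinarith) x hxMB
    choose! S' hS'1 hS'2 using hUa
    have hsum : HasSum (fun m : ℕ => x ^ m / m * (if m = 0 then 0 else NX m))
        (∑ a ∈ Finset.range (2 * A.dim + 1), ∑ j : Fin (r a), (sgn a : ℂ) * S' a j) := by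
      have h1 : (fun m : ℕ => x ^ m / m * (if m = 0 then 0 else NX m)) =
          fun m : ℕ => ∑ a ∈ Finset.range (2 * A.dim + 1), ∑ j : Fin (r a),
            (sgn a : ℂ) * ((x * α a j) ^ m / m * (if m = 0 then 0 else N m)) := by
        funext m
        by_cases hm : m = 0
        · simp [hm]
        · rw [if_neg hm, htr, Finset.mul_sum]
          refine Finset.sum_congr rfl fun a _ => ?_
          rw [Finset.mul_sum]
          refine Finset.sum_congr rfl fun j _ => ?_
          rw [if_neg hm, mul_pow]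
          ring
      rw [h1]
      exact hasSum_sum fun a ha => hasSum_sum fun j _ => (hS'1 a ha j).mul_left _
    have hSeq := hS1.unique hsum
    have hfin : Complex.exp S = ∏ a ∈ Finset.range (2 * A.dim + 1),
        ∏ j : Fin (r a), (Λ (z - u (α a j))) ^ sgn a := by
      rw [hSeq, Complex.exp_sum]
      refine Finset.prod_congr rfl fun a ha => ?_
      rw [Complex.exp_sum]
      refine Finset.prod_congr rfl fun j _ => ?_
      rw [hS'2 a ha j, Complex.exp_int_mul]
    rw [hfin] at hS2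
    exact hS2

/-- The symmetry of the numbers of classes. -/
theorem card_le (hA : IsAbelian A q s f) {J : Type} [Fintype J] {c : J → ℕ} {D E : J → A.CH}
    (hdual : Pool.Agent.Y156.L.IsDual A c D E)
    (hspan : ∀ (k : ℕ) (x : A.H), A.frobH x = ((q ^ s : ℕ) : ℂ) ^ k • x →
        x ∈ Submodule.span ℂ {a | ∃ j, c j = k ∧ a = A.cl (D j)} ∧ x ∈ A.H1 ^ (2 * k)) (k : ℕ) :
    Nat.card {t // c t = k} ≤ Nat.card {t // c t = A.dim - k} := by
  classical
  have hfin := hA.finite
  have hli : LinearIndependent ℂ (fun t : {t // c t = k} => A.cl (E t)) := by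
    rw [Fintype.linearIndependent_iff]
    intro g hg u
    have h1 := congrArg (fun x => A.tr (x * A.cl (D u))) hg
    simp only [zero_mul, map_zero, Finset.sum_mul, map_sum, smul_mul_assoc, map_smul,
      smul_eq_mul, ← map_mul, hA.tr_cl] at h1
    rw [Finset.sum_eq_single u] at h1
    · rw [mul_comm (E u), hdual.eq, Rat.cast_one, mul_one] at h1
      exact h1
    · intro t _ htu
      rw [mul_comm (E t), hdual.ne _ _ (fun h => htu (Subtype.ext h.symm)), Rat.cast_zero,
        mul_zero]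
    · intro h
      exact absurd (Finset.mem_univ u) h
  have h1 : Submodule.span ℂ (Set.range fun t : {t // c t = k} => A.cl (E t)) ≤
      Submodule.span ℂ (Set.range fun t : {t // c t = A.dim - k} => A.cl (D t)) := by
    refine Submodule.span_le.2 ?_
    rintro _ ⟨⟨t, ht⟩, rfl⟩
    have h2 := (hspan (A.dim - k) (A.cl (E t)) (by
      have h3 := hdual.right t
      rw [ht] at h3
      exact hA.frob_cl h3)).1
    refine Submodule.span_mono ?_ h2
    rintro _ ⟨j, hj, rfl⟩
    exact ⟨⟨j, hj⟩, rfl⟩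
  rw [Nat.card_eq_fintype_card, Nat.card_eq_fintype_card, ← finrank_span_eq_card hli]
  exact (Submodule.finrank_mono h1).trans (finrank_range_le_card _)

theorem sum_symm (hA : IsAbelian A q s f) {J : Type} [Fintype J] {c : J → ℕ} {D E : J → A.CH}
    (hdual : Pool.Agent.Y156.L.IsDual A c D E)
    (hspan : ∀ (k : ℕ) (x : A.H), A.frobH x = ((q ^ s : ℕ) : ℂ) ^ k • x →
        x ∈ Submodule.span ℂ {a | ∃ j, c j = k ∧ a = A.cl (D j)} ∧ x ∈ A.H1 ^ (2 * k))
    (F : ℕ → WithTop ℤ) : ∑ t, F (c t) = ∑ t, F (A.dim - c t) := by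
  classical
  have hcard : ∀ k ≤ A.dim, Nat.card {t // c t = k} = Nat.card {t // c t = A.dim - k} := by
    intro k hk
    refine le_antisymm (card_le hA hdual hspan k) ?_
    have h1 := card_le hA hdual hspan (A.dim - k)
    rwa [Nat.sub_sub_self hk] at h1
  have hmaps : ∀ t ∈ (Finset.univ : Finset J), c t ∈ Finset.range (A.dim + 1) := fun t _ => by
    rw [Finset.mem_range]
    have := hdual.le t
    omega
  rw [← Finset.sum_fiberwise_of_maps_to hmaps, ← Finset.sum_fiberwise_of_maps_to hmaps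
    (f := fun t => F (A.dim - c t)), ← Finset.sum_range_reflect]
  refine Finset.sum_congr rfl fun k hk => ?_
  have hk' : k ≤ A.dim := by
    rw [Finset.mem_range] at hk
    omega
  have h1 : ∑ t ∈ Finset.univ.filter (fun t => c t = A.dim + 1 - 1 - k), F (c t) =
      Nat.card {t // c t = A.dim - k} • F (A.dim - k) := by
    rw [Nat.card_eq_fintype_card, Fintype.card_subtype, ← Finset.sum_const]
    refine Finset.sum_congr (by rw [Nat.add_sub_cancel]) fun t ht => ?_
    rw [(Finset.mem_filter.1 ht).2]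
  have h2 : ∑ t ∈ Finset.univ.filter (fun t => c t = k), F (A.dim - c t) =
      Nat.card {t // c t = k} • F (A.dim - k) := by
    rw [Nat.card_eq_fintype_card, Fintype.card_subtype, ← Finset.sum_const]
    refine Finset.sum_congr rfl fun t ht => ?_
    rw [(Finset.mem_filter.1 ht).2]
  rw [h1, h2, hcard k hk']

/-- **The order of the zeta function.** -/
theorem zeta_order (hq : 1 < q) (hR : NoRel f q (Unrelated K)) (hA : IsAbelian A q s f)
    {J : Type} [Fintype J] {c : J → ℕ} {D E : J → A.CH}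
    (hdual : Pool.Agent.Y156.L.IsDual A c D E)
    (hspan : ∀ (k : ℕ) (x : A.H), A.frobH x = ((q ^ s : ℕ) : ℂ) ^ k • x →
        x ∈ Submodule.span ℂ {a | ∃ j, c j = k ∧ a = A.cl (D j)} ∧ x ∈ A.H1 ^ (2 * k))
    {φ : CohData A} (hφ : IsCoh φ) {U X : PointData}
    (hX : IsProductPoints φ U X) {Λ : ℂ → ℂ} (hΛ : IsContinuation (U.factor (q ^ s)) Λ)
    (h2 : ∀ z : ℂ, meromorphicOrderAt Λ z ≠ 0 → Unrelated K (((q ^ s : ℕ) : ℂ) ^ z)) :
    ∃ Λ', IsContinuation (X.factor (q ^ s)) Λ' ∧ ∀ i : ℤ, meromorphicOrderAt Λ' i =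
      ∑ t, meromorphicOrderAt Λ ((i - c t : ℤ) : ℂ) := by
  classical
  have hs := hA.pos
  have hQ1 : 1 < q ^ s := Nat.one_lt_pow hs.ne' hq
  have hQ0 : ((q ^ s : ℕ) : ℂ) ≠ 0 := by exact_mod_cast (by omega : q ^ s ≠ 0)
  obtain ⟨u, hu1, hu2⟩ := exists_log hQ1
  choose r e α hα he using fun a => exists_basis_coh (s := s) (f := f) hA hφ a
  have hα0 : ∀ a j, α a j ≠ 0 := fun a j => eigen_ne_zero_coh hQ0 hA hφ a (e a) (α a) (he a) j
  refine ⟨_, zeta_continuation hQ1 e α he u (fun a j => hu1 _ (hα0 a j)) hX hΛ, fun i => ?_⟩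
  let g : ℕ → ℂ → WithTop ℤ := fun a x =>
    (sgn a : WithTop ℤ) * meromorphicOrderAt Λ ((i : ℂ) - u x)
  have hmer : ∀ (x z : ℂ), MeromorphicAt (fun z => Λ (z - x)) z := by
    intro x z
    rw [meromorphicAt_fun_comp_sub_const_iff_meromorphicAt]
    exact hΛ.1 _
  have h3 : meromorphicOrderAt (fun z => ∏ a ∈ Finset.range (2 * A.dim + 1),
      ∏ j : Fin (r a), (Λ (z - u (α a j))) ^ sgn a) i =
      ∑ a ∈ Finset.range (2 * A.dim + 1), ∑ j : Fin (r a), g a (α a j) := by
    have h4 := meromorphicOrderAt_fun_prod (x := (i : ℂ)) (s := Finset.range (2 * A.dim + 1))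
      (f := fun a z => ∏ j : Fin (r a), (Λ (z - u (α a j))) ^ sgn a)
      (fun a _ => MeromorphicAt.fun_prod fun j _ => (hmer _ _).fun_zpow _)
    refine h4.trans (Finset.sum_congr rfl fun a _ => ?_)
    have h5 := meromorphicOrderAt_fun_prod (x := (i : ℂ)) (s := Finset.univ)
      (f := fun (j : Fin (r a)) z => (Λ (z - u (α a j))) ^ sgn a)
      (fun j _ => (hmer _ _).fun_zpow _)
    refine h5.trans (Finset.sum_congr rfl fun j _ => ?_)
    have h6 := fun_meromorphicOrderAt_zpow (hmer (u (α a j)) i) (n := sgn a)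
    refine h6.trans ?_
    have h7 := meromorphicOrderAt_fun_comp_sub_const_eq_meromorphicOrderAt (f := Λ)
      (c := u (α a j)) (x := (i : ℂ))
    rw [h7]
  -- the vanishing
  have hg : ∀ a j, g a (α a j) ≠ 0 → ∃ k : ℕ, a = 2 * k ∧ α a j = ((q ^ s : ℕ) : ℂ) ^ k := by
    intro a j h
    have h4 := h2 ((i : ℂ) - u (α a j)) (fun h0 => h (by
      change (sgn a : WithTop ℤ) * meromorphicOrderAt Λ ((i : ℂ) - u (α a j)) = 0
      rw [h0, mul_zero]))
    obtain ⟨M, hM1, hM2⟩ := hα a j
    have h5 : (M.map fun z : Rt f => (z : ℂ) ^ s).prod * ((q ^ s : ℕ) : ℂ) ^ ((i : ℂ) - u (α a j)) =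
        ((q : ℂ) ^ s) ^ i := by
      rw [← hM2, Complex.cpow_sub _ _ hQ0, hu1 _ (hα0 a j), mul_div_cancel₀ _ (hα0 a j),
        Complex.cpow_intCast]
      push_cast
      rfl
    obtain ⟨k, h6, h7⟩ := list_unrel hq hR hs h4 M i h5
    refine ⟨k, by omega, ?_⟩
    rw [hM2, h7]
    push_cast
    rfl
  -- the even terms
  have h4 : ∀ k : ℕ, ∑ j : Fin (r (2 * k)), g (2 * k) (α (2 * k) j) =
      Nat.card {t // c t = k} • meromorphicOrderAt Λ ((i - k : ℤ) : ℂ) := by
    intro k
    rw [← card_eigen_coh hA hdual hspan hφ k (e (2 * k)) (α (2 * k)) (he (2 * k)),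
      Nat.card_eq_fintype_card, Fintype.card_subtype, ← Finset.sum_const]
    rw [Finset.sum_filter]
    refine Finset.sum_congr rfl fun j _ => ?_
    by_cases h : α (2 * k) j = ((q ^ s : ℕ) : ℂ) ^ k
    · rw [if_pos h, h]
      change (sgn (2 * k) : WithTop ℤ) *
        meromorphicOrderAt Λ ((i : ℂ) - u (((q ^ s : ℕ) : ℂ) ^ k)) = _
      have h8 : sgn (2 * k) = 1 := by
        unfold sgn
        rw [pow_mul]
        norm_num
      rw [hu2, h8, WithTop.coe_one, one_mul]
      push_cast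
      rfl
    · rw [if_neg h]
      by_contra hcon
      obtain ⟨l, h5, h6⟩ := hg _ _ hcon
      have h7 : l = k := by omega
      rw [h7] at h6
      exact h h6
  have h5 : ∀ a, (¬ ∃ k, a = 2 * k) → ∑ j : Fin (r a), g a (α a j) = 0 := by
    intro a ha
    refine Finset.sum_eq_zero fun j _ => ?_
    by_contra hcon
    obtain ⟨k, h6, -⟩ := hg _ _ hcon
    exact ha ⟨k, h6⟩
  have h6 : ∑ a ∈ Finset.range (2 * A.dim + 1), ∑ j : Fin (r a), g a (α a j) =
      ∑ k ∈ Finset.range (A.dim + 1), ∑ j : Fin (r (2 * k)), g (2 * k) (α (2 * k) j) := by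
    have hinj : Set.InjOn (fun k : ℕ => 2 * k) (Finset.range (A.dim + 1)) := by
      intro x _ y _ h
      have h' : 2 * x = 2 * y := h
      omega
    rw [← Finset.sum_image (s := Finset.range (A.dim + 1)) (g := fun k => 2 * k)
      (f := fun a => ∑ j : Fin (r a), g a (α a j)) hinj]
    symm
    refine Finset.sum_subset ?_ ?_
    · intro a ha
      obtain ⟨k, hk, rfl⟩ := Finset.mem_image.1 ha
      rw [Finset.mem_range] at hk ⊢
      omega
    · intro a ha hna
      refine h5 a fun ⟨k, hk⟩ => hna ?_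
      rw [Finset.mem_image]
      refine ⟨k, ?_, hk.symm⟩
      rw [Finset.mem_range] at ha ⊢
      omega
  rw [h3, h6]
  simp only [h4]
  rw [← Finset.sum_fiberwise_of_maps_to (s := Finset.univ) (t := Finset.range (A.dim + 1))
    (g := c) (fun t _ => by
      rw [Finset.mem_range]
      have := hdual.le t
      omega)]
  refine Finset.sum_congr rfl fun k _ => ?_
  rw [Nat.card_eq_fintype_card, Fintype.card_subtype, ← Finset.sum_const]
  refine Finset.sum_congr rfl fun t ht => ?_
  rw [(Finset.mem_filter.1 ht).2]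

end

end Pool.Agent.V1168.BB
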