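import Mathlib
import Pool.Agent.V1168.BB.Zeta
import Pool.Agent.V1168.BB.PoleNumDefs

/-!
# The poles of the zeta functions of products with abelian varieties
-/

set_option autoImplicit false
set_option linter.unusedSectionVars false
set_option linter.unusedVariables false

namespace Pool.Agent.V1168.BB

open Module Polynomial Pool.Agent.Y156.L Pool.Agent.W484.HS Pool.Agent.Y1.CT Pool.Agent.V1168.UN

variable {I : Type} {K : I → Type} [∀ i, Field (K i)] {q : ℕ} {f : I → ℤ[X]}

/-- **The formula of Tate for products.** -/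
theorem poleNumTimes (hq : 1 < q) (hR : NoRel f q (Unrelated K)) : PoleNumTimes K q f := by
  classical
  intro A s hA
  obtain ⟨J, hJ, c, D, E, hF, hdual, hQ, hspan, hmain⟩ := exists_core2 hq hR hA
  refine ⟨J, hJ, c, D, hF, fun φ hφ T Y X hX hY hU => ?_⟩
  have hexp := expands_chow hmain hY.rel hY.pure hU.cycles
  obtain ⟨Λ, hΛ, h2⟩ := hU.zeta
  obtain ⟨Λ', hΛ', hord⟩ := zeta_order hq hR hA hdual hspan hφ hX hΛ h2
  have hequiv : ∀ j : ℤ, Nonempty ((∀ t, T.grN (2 * (j - c t)) (j - c t)) ≃ₗ[ℚ]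
      T.grM (2 * j) j) := by
    intro j
    exact exists_equiv_deg hY.rel hdual (2 * j) j (hexp j) (fun t => 2 * (j - c t))
      fun t => by ring
  have hrank : ∀ j : ℤ, finrank ℚ (T.grM (2 * j) j) =
      ∑ t, finrank ℚ (T.grN (2 * (j - c t)) (j - c t)) := by
    intro j
    obtain ⟨e⟩ := hequiv j
    exact (finite_pi_iff e).2 fun t => hY.finite _
  refine ⟨fun j m hm => ?_, hrank, ⟨Λ', hΛ'⟩, fun j Λ₁ Λ₁' h3 h4 => ?_, fun j => ?_⟩
  · refine ⟨fun t => T.pair (E t) m, ⟨fun t => ?_, hexp j m hm⟩, ?_⟩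
    · have h1 := hY.rel.pair_mem (c := c t) (by have := hdual.le t; omega) (hdual.right t) hm
      rw [show 2 * (j - (c t : ℤ)) = 2 * j - 2 * c t by ring]
      exact h1
    · rintro z ⟨-, hz⟩
      funext t
      rw [hz]
      exact (pair_sum hY.rel hdual t z).symm
  · rw [order_unique h3 hΛ', hord]
    exact Finset.sum_congr rfl fun t _ => order_unique hΛ h4 _
  · choose z hz1 hz2 using hY.bound Λ hΛ
    have hN : ∀ j, PoleNumN T Y (q ^ s) j ↔ z j = -(finrank ℚ (T.grN (2 * j) j) : ℤ) := by
      intro j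
      constructor
      · intro h
        have h3 := h _ hΛ
        rw [hz1, WithTop.coe_inj] at h3
        exact h3
      · intro h Λ₁ h3
        rw [order_unique h3 hΛ, hz1, h]
    have hM : PoleNumM T X (q ^ s) j ↔
        ∑ t, z (j - c t) = ∑ t, -(finrank ℚ (T.grN (2 * (j - c t)) (j - c t)) : ℤ) := by
      have h4 : meromorphicOrderAt Λ' (j : ℂ) = ((∑ t, z (j - c t) : ℤ) : WithTop ℤ) := by
        rw [hord, Finset.sum_congr rfl fun t _ => hz1 (j - c t), ← WithTop.coe_sum]
      constructor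
      · intro h
        have h3 := h _ hΛ'
        rw [h4, WithTop.coe_inj, hrank, Nat.cast_sum] at h3
        rw [h3, Finset.sum_neg_distrib]
      · intro h Λ₁ h3
        rw [order_unique h3 hΛ', h4, h, hrank, Nat.cast_sum, Finset.sum_neg_distrib]
    rw [hM]
    constructor
    · intro h k hk
      obtain ⟨t, rfl⟩ := hF.exists_eq k hk
      rw [hN]
      have h3 : ∀ t, 0 ≤ -z (j - c t) - (finrank ℚ (T.grN (2 * (j - c t)) (j - c t)) : ℤ) := by
        intro t
        have := hz2 (j - c t)
        omega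
      have h4 : ∑ t, (-z (j - c t) - (finrank ℚ (T.grN (2 * (j - c t)) (j - c t)) : ℤ)) = 0 := by
        rw [Finset.sum_sub_distrib, Finset.sum_neg_distrib, h, Finset.sum_neg_distrib, neg_neg,
          sub_self]
      have h5 := (Finset.sum_eq_zero_iff_of_nonneg fun t _ => h3 t).1 h4 t (Finset.mem_univ t)
      omega
    · intro h
      refine Finset.sum_congr rfl fun t _ => ?_
      exact (hN _).1 (h (c t) (hdual.le t))

end Pool.Agent.V1168.BB
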