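import Mathlib
import Pool.Agent.V1168.BB.Zeta

/-!
# The conjecture of Bloch and Soulé for products with abelian varieties
-/

set_option autoImplicit false
set_option linter.unusedSectionVars false
set_option linter.unusedVariables false

namespace Pool.Agent.V1168.BB

open Module Polynomial Pool.Agent.Y156.L Pool.Agent.W484.HS Pool.Agent.Y1.CT Pool.Agent.V1168.UN

/-- The expansion of the elements of motivic cohomology. -/
theorem expands_all {I : Type} {K : I → Type} [∀ i, Field (K i)] {q : ℕ}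
    {Λ₀ : Type} [Field Λ₀] [CharZero Λ₀] {A : AbelianData Λ₀} {s : ℕ} {J : Type} [Fintype J]
    {D E : J → A.CH}
    (hmain : ∀ T : RelData A, IsRel (q ^ s) T → ∀ (j : ℤ) (χ : ℚ[X]), χ ≠ 0 →
        (∀ ρ : ℂ, aeval ρ χ = 0 → Unrelated K ρ) → ∀ (V : Submodule ℚ T.M) (N : ℕ),
        (∀ m ∈ V, T.act A.frob m ∈ V) →
        (∀ m ∈ V, aeval (T.act A.frob) ((rev χ (((q ^ s : ℕ) : ℚ) ^ j)) ^ N) m = 0) →
        ∀ m ∈ V, m = ∑ t, T.times (D t) (T.pair (E t) m))
    {T : RelData A} (hT : IsRel (q ^ s) T) (hpure : T.IsPure (q ^ s))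
    (hK : ∀ i j : ℤ, ∃ χ : ℚ[X], χ ≠ 0 ∧ (∀ ρ : ℂ, aeval ρ χ = 0 → Unrelated K ρ) ∧
      ∀ m, T.DegM i j m → aeval T.frobM χ m = 0)
    (i j : ℤ) (m : T.M) (hm : T.DegM i j m) : m = ∑ t, T.times (D t) (T.pair (E t) m) := by
  have hm' : T.InvM (q ^ s) i j m := hpure i j m hm
  obtain ⟨χ, hχ, hrank, hkill⟩ := hK i j
  have hkill' : ∀ m ∈ invSub T (q ^ s) i j, aeval T.frobM χ m = 0 := fun m hm => hkill m hm.1
  have hV1 : ∀ m ∈ invSub T (q ^ s) i j, T.frobM m ∈ invSub T (q ^ s) i j :=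
    fun m hm => inv_frob hT hm
  have hV2 : ∀ m ∈ invSub T (q ^ s) i j, T.act A.frob (T.frobM m) =
      ((q ^ s : ℕ) : ℚ) ^ j • m := fun m hm => hm.2
  have hV : ∀ m ∈ invSub T (q ^ s) i j, T.act A.frob m ∈ invSub T (q ^ s) i j := fun m hm =>
    stable_of _ T.frobM _ _ hV1 hV2 χ
      (coeff_zero_ne' (not_unrelated_zero K) hrank) hkill' hm
  exact hmain T hT j χ hχ hrank (invSub T (q ^ s) i j) 1 hV (fun m hm => by
    rw [pow_one]
    exact aeval_rev_op _ T.frobM _ _ hV1 hV2 χ hkill' hm) m hm'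

/-- A finite product is zero if and only if the factors are. -/
theorem subsingleton_pi_iff {J : Type} [Fintype J] {M : Type} [AddCommGroup M] [Module ℚ M]
    {V : J → Type} [∀ t, AddCommGroup (V t)] [∀ t, Module ℚ (V t)] (e : (∀ t, V t) ≃ₗ[ℚ] M) :
    Subsingleton M ↔ ∀ t, Subsingleton (V t) := by
  classical
  constructor
  · intro h t
    have h1 : Subsingleton (∀ t, V t) := e.toEquiv.subsingleton
    refine ⟨fun x y => ?_⟩
    have h2 := congrFun (Subsingleton.elim (Pi.single t x : ∀ t, V t) (Pi.single t y)) t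
    rwa [Pi.single_eq_same, Pi.single_eq_same] at h2
  · intro h
    exact e.symm.toEquiv.subsingleton

section

variable {I : Type} {K : I → Type} [∀ i, Field (K i)] {q : ℕ} (hq : 1 < q) {f : I → ℤ[X]}
  (hR : NoRel f q (Unrelated K))

include hq hR in
/-- **The conjecture of Bloch and Soulé for products.** -/
theorem souleTimes : SouleTimes K q f := by
  classical
  intro A s hA
  obtain ⟨J, hJ, c, D, E, hF, hdual, hQ, hspan, hmain⟩ := exists_core2 hq hR hA
  refine ⟨J, hJ, c, D, hF, fun φ hφ T U X d hX hY hU => ?_⟩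
  have hexp := expands_all hmain hY.rel hY.pure hU.motivic
  obtain ⟨Λ, hΛ, h2⟩ := hU.zeta
  obtain ⟨Λ', hΛ', hord'⟩ := zeta_order hq hR hA hdual hspan hφ hX hΛ h2
  have hord : ∀ r : ℤ, meromorphicOrderAt Λ' ((A.dim + d - r : ℤ) : ℂ) =
      ∑ t, meromorphicOrderAt Λ ((d - (r - c t) : ℤ) : ℂ) := by
    intro r
    rw [hord', sum_symm hA hdual hspan
      (fun k => meromorphicOrderAt Λ ((A.dim + d - r - k : ℤ) : ℂ))]
    refine Finset.sum_congr rfl fun t _ => ?_
    have h3 : ((A.dim - c t : ℕ) : ℤ) = (A.dim : ℤ) - c t := by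
      have := hdual.le t
      omega
    rw [h3]
    congr 2
    ring
  have hequiv : ∀ (r : ℤ) (i : ℕ), Nonempty ((∀ t, T.grN (2 * (r - c t) - i) (r - c t)) ≃ₗ[ℚ]
      T.grM (2 * r - i) r) := by
    intro r i
    exact exists_equiv_deg hY.rel hdual (2 * r - i) r (fun m hm => hexp _ _ m hm)
      (fun t => 2 * (r - c t) - i) fun t => by ring
  refine ⟨fun r i m hm => ?_, ⟨Λ', hΛ'⟩, fun r Λ₁ Λ₁' h3 h4 => ?_, fun n => ?_⟩
  · refine ⟨fun t => T.pair (E t) m, ⟨fun t => ?_, hexp _ _ m hm⟩, ?_⟩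
    · have h1 := hY.rel.pair_mem (c := c t) (by have := hdual.le t; omega) (hdual.right t) hm
      rw [show 2 * (r - (c t : ℤ)) - i = 2 * r - i - 2 * c t by ring]
      exact h1
    · rintro z ⟨-, hz⟩
      funext t
      rw [hz]
      exact (pair_sum hY.rel hdual t z).symm
  · rw [order_unique h3 hΛ', hord]
    exact Finset.sum_congr rfl fun t _ => order_unique hΛ h4 _
  · -- the reformulations
    let o : ℤ → WithTop ℤ := fun r => meromorphicOrderAt Λ ((d - r : ℤ) : ℂ)
    let F : ℤ → Prop := fun r => (∀ i : ℕ, Module.Finite ℚ (T.grN (2 * r - i) r)) ∧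
      {i : ℕ | T.grN (2 * r - i) r ≠ ⊥}.Finite
    let χ : ℤ → ℤ := fun r => -(∑ᶠ i : ℕ, (-1) ^ i * (finrank ℚ (T.grN (2 * r - i) r) : ℤ))
    have hN : ∀ r, SouleN T U (q ^ s) d r ↔ F r ∧ o r = (χ r : WithTop ℤ) := by
      intro r
      constructor
      · rintro ⟨h, h'⟩
        exact ⟨h, h' _ hΛ⟩
      · rintro ⟨h3, h4⟩
        exact ⟨h3, fun Λ₁ h5 => by rw [order_unique h5 hΛ]; exact h4⟩
    -- the groups of the product
    have hbot : ∀ (r : ℤ) (i : ℕ), T.grM (2 * r - i) r = ⊥ ↔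
        ∀ t, T.grN (2 * (r - c t) - i) (r - c t) = ⊥ := by
      intro r i
      obtain ⟨e⟩ := hequiv r i
      have h3 := subsingleton_pi_iff e
      rw [Submodule.subsingleton_iff_eq_bot] at h3
      rw [h3]
      exact forall_congr' fun t => Submodule.subsingleton_iff_eq_bot
    have hFM : ∀ r : ℤ, ((∀ i : ℕ, Module.Finite ℚ (T.grM (2 * r - i) r)) ∧
        {i : ℕ | T.grM (2 * r - i) r ≠ ⊥}.Finite) ↔ ∀ t, F (r - c t) := by
      intro r
      constructor
      · rintro ⟨h3, h4⟩ t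
        refine ⟨fun i => ?_, h4.subset fun i hi => ?_⟩
        · obtain ⟨e⟩ := hequiv r i
          exact (finite_pi_iff e).1.1 (h3 i) t
        · intro h5
          exact hi ((hbot r i).1 h5 t)
      · intro h3
        refine ⟨fun i => ?_, ?_⟩
        · obtain ⟨e⟩ := hequiv r i
          exact (finite_pi_iff e).1.2 fun t => (h3 t).1 i
        · refine (Set.finite_iUnion fun t => (h3 t).2).subset fun i hi => ?_
          by_contra hcon
          apply hi
          rw [hbot]
          intro t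
          by_contra h5
          exact hcon (Set.mem_iUnion.2 ⟨t, h5⟩)
    have hχM : ∀ r : ℤ, (∀ t, F (r - c t)) →
        -(∑ᶠ i : ℕ, (-1) ^ i * (finrank ℚ (T.grM (2 * r - i) r) : ℤ)) = ∑ t, χ (r - c t) := by
      intro r h3
      have h4 : ∀ i : ℕ, (-1) ^ i * (finrank ℚ (T.grM (2 * r - i) r) : ℤ) =
          ∑ t, (-1) ^ i * (finrank ℚ (T.grN (2 * (r - c t) - i) (r - c t)) : ℤ) := by
        intro i
        obtain ⟨e⟩ := hequiv r i
        rw [(finite_pi_iff e).2 fun t => (h3 t).1 i, Nat.cast_sum, Finset.mul_sum]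
      simp only [h4]
      rw [finsum_sum_comm, ← Finset.sum_neg_distrib]
      intro t _
      refine (h3 t).2.subset fun i hi => ?_
      intro h5
      apply hi
      change (-1) ^ i * (finrank ℚ (T.grN (2 * (r - c t) - i) (r - c t)) : ℤ) = 0
      rw [h5, finrank_bot, Nat.cast_zero, mul_zero]
    have hM : ∀ r, SouleM T X (q ^ s) d r ↔ (∀ t, F (r - c t)) ∧
        ∑ t, o (r - c t) = ((∑ t, χ (r - c t) : ℤ) : WithTop ℤ) := by
      intro r
      constructor
      · rintro ⟨h, h'⟩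
        have h3 := (hFM r).1 h
        refine ⟨h3, ?_⟩
        rw [← hχM r h3, ← h' _ hΛ', hord]
      · rintro ⟨h3, h4⟩
        refine ⟨(hFM r).2 h3, fun Λ₁ h5 => ?_⟩
        rw [order_unique h5 hΛ', hord, hχM r h3]
        exact h4
    have hneg : ∀ r < 0, F r ∧ o r = (χ r : WithTop ℤ) := by
      intro r hr
      have h3 : ∀ i : ℕ, T.grN (2 * r - i) r = ⊥ := by
        intro i
        rw [Submodule.eq_bot_iff]
        intro x hx
        exact hY.neg _ _ hr x hx
      refine ⟨⟨fun i => ?_, ?_⟩, ?_⟩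
      · rw [h3]
        infer_instance
      · simp only [h3, ne_eq, not_true_eq_false, Set.setOf_false, Set.finite_empty]
      · have h4 : χ r = 0 := by
          change -(∑ᶠ i : ℕ, (-1) ^ i * (finrank ℚ (T.grN (2 * r - i) r) : ℤ)) = 0
          have h5 : ∀ i : ℕ, (-1) ^ i * (finrank ℚ (T.grN (2 * r - i) r) : ℤ) = 0 := fun i => by
            rw [h3, finrank_bot, Nat.cast_zero, mul_zero]
          simp only [h5, finsum_zero, neg_zero]
        rw [h4]
        refine hY.edge Λ hΛ _ ?_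
        rw [Complex.intCast_re]
        have : (d : ℤ) < d - r := by omega
        exact_mod_cast this
    have h0 : ∃ t, c t = 0 := hF.exists_eq 0 (Nat.zero_le _)
    have htri := triangularZ c h0 F o χ hneg n
    constructor
    · intro h r hr
      exact (hN r).2 (htri.1 (fun r hr => (hM r).1 (h r hr)) r hr)
    · intro h r hr
      exact (hM r).2 (htri.2 (fun r hr => (hN r).1 (h r hr)) r hr)

end

end Pool.Agent.V1168.BB
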